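import Mathlib

/-! For a fixed `m`, few `(s, p)` satisfy `s ^ 2 = m p ^ 2 - w t ^ 2`. -/

set_option autoImplicit false

namespace Pool.Agent.TH562.CN

theorem coprime_int {a b : ℕ} (h : Nat.Coprime a b) : IsCoprime (a : ℤ) (b : ℤ) :=
  Nat.isCoprime_iff_coprime.2 h

/-- the main divisibility -/
theorem sq_dvd {t : ℕ} (ht : Odd t) {m w : ℤ} {s₁ p₁ s p : ℕ}
    (h1 : (s₁ : ℤ) ^ 2 = m * p₁ ^ 2 - w * t ^ 2) (h2 : (s : ℤ) ^ 2 = m * p ^ 2 - w * t ^ 2)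
    (hs1 : Nat.Coprime s₁ t) (hp : Nat.Coprime p t) :
    Int.gcd ((s₁ : ℤ) * p - s * p₁) ((t : ℤ) ^ 2) * Int.gcd ((s₁ : ℤ) * p + s * p₁) ((t : ℤ) ^ 2)
      = t ^ 2 ∧
    Nat.Coprime (Int.gcd ((s₁ : ℤ) * p - s * p₁) ((t : ℤ) ^ 2))
      (Int.gcd ((s₁ : ℤ) * p + s * p₁) ((t : ℤ) ^ 2)) := by
  set D : ℤ := (s₁ : ℤ) * p - s * p₁ with hD
  set S : ℤ := (s₁ : ℤ) * p + s * p₁ with hS
  have hDS : D * S = w * t ^ 2 * (p₁ ^ 2 - p ^ 2) := by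
    rw [hD, hS]
    have : ((s₁ : ℤ) * p - s * p₁) * ((s₁ : ℤ) * p + s * p₁) =
      (s₁ : ℤ) ^ 2 * p ^ 2 - (s : ℤ) ^ 2 * p₁ ^ 2 := by ring
    rw [this, h1, h2]
    ring
  have hcop : Nat.Coprime (Int.gcd D ((t : ℤ) ^ 2)) (Int.gcd S ((t : ℤ) ^ 2)) := by
    apply Nat.Coprime.symm
    by_contra hcon
    obtain ⟨q, hq, hqa, hqb⟩ := Nat.Prime.not_coprime_iff_dvd.1 hcon
    have hqS : (q : ℤ) ∣ S := (Int.natCast_dvd_natCast.2 hqa).trans (Int.gcd_dvd_left ..)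
    have hqD : (q : ℤ) ∣ D := (Int.natCast_dvd_natCast.2 hqb).trans (Int.gcd_dvd_left ..)
    have hqt : (q : ℤ) ∣ (t : ℤ) ^ 2 :=
      (Int.natCast_dvd_natCast.2 hqa).trans (Int.gcd_dvd_right ..)
    have hqt' : q ∣ t := by
      have : (q : ℤ) ∣ ((t ^ 2 : ℕ) : ℤ) := by push_cast; exact hqt
      exact hq.dvd_of_dvd_pow (Int.natCast_dvd_natCast.1 this)
    have h2 : (q : ℤ) ∣ ((2 * (s₁ * p) : ℕ) : ℤ) := by
      have h3 : ((2 * (s₁ * p) : ℕ) : ℤ) = S + D := by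
        rw [hS, hD]; push_cast; ring
      rw [h3]
      exact dvd_add hqS hqD
    have h4 : q ∣ 2 * (s₁ * p) := Int.natCast_dvd_natCast.1 h2
    rcases (Nat.Prime.dvd_mul hq).1 h4 with h5 | h5
    · have h6 : q = 2 := (Nat.prime_dvd_prime_iff_eq hq Nat.prime_two).1 h5
      rw [h6] at hqt'
      exact (Nat.not_even_iff_odd.2 ht) (even_iff_two_dvd.2 hqt')
    · rcases (Nat.Prime.dvd_mul hq).1 h5 with h6 | h6
      · exact hq.one_lt.ne' (Nat.Coprime.eq_one_of_dvd (hs1.coprime_dvd_left h6) hqt')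
      · exact hq.one_lt.ne' (Nat.Coprime.eq_one_of_dvd (hp.coprime_dvd_left h6) hqt')
  refine ⟨?_, hcop⟩
  have hN : t ^ 2 ∣ Int.gcd D ((t : ℤ) ^ 2) * Int.gcd S ((t : ℤ) ^ 2) := by
    have h3 : (t ^ 2 : ℕ) ∣ D.natAbs * S.natAbs := by
      rw [← Int.natAbs_mul, ← Int.natCast_dvd, hDS]
      refine ⟨w * (p₁ ^ 2 - p ^ 2), ?_⟩
      push_cast
      ring
    have e1 : ∀ Z : ℤ, Int.gcd Z ((t : ℤ) ^ 2) = Nat.gcd (t ^ 2) Z.natAbs := by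
      intro Z
      rw [Int.gcd_comm, Int.gcd_def]
      congr 1
    rw [e1, e1]
    exact Nat.dvd_gcd_mul_gcd_iff_dvd_mul.2 h3
  have hd1 : Int.gcd D ((t : ℤ) ^ 2) ∣ t ^ 2 := by
    have := Int.gcd_dvd_right (a := D) (b := ((t : ℤ) ^ 2))
    have h3 : ((t : ℤ) ^ 2) = ((t ^ 2 : ℕ) : ℤ) := by push_cast; ring
    rw [h3] at this ⊢
    exact Int.natCast_dvd_natCast.1 this
  have hd2 : Int.gcd S ((t : ℤ) ^ 2) ∣ t ^ 2 := by
    have := Int.gcd_dvd_right (a := S) (b := ((t : ℤ) ^ 2))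
    have h3 : ((t : ℤ) ^ 2) = ((t ^ 2 : ℕ) : ℤ) := by push_cast; ring
    rw [h3] at this ⊢
    exact Int.natCast_dvd_natCast.1 this
  exact Nat.dvd_antisymm (Nat.Coprime.mul_dvd_of_dvd_of_dvd hcop hd1 hd2) hN

/-- Few solutions `(s, p)` for fixed `m`. -/
theorem rigid {t : ℕ} (ht : Odd t) {m w : ℤ} (hw : w ≠ 0) (A B : ℕ) (hAB : A * B < t ^ 2)
    (F : Finset (ℕ × ℕ))
    (hF : ∀ x ∈ F, ((x.1 : ℕ) : ℤ) ^ 2 = m * (x.2 : ℤ) ^ 2 - w * (t : ℤ) ^ 2 ∧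
      Nat.Coprime x.1 t ∧ Nat.Coprime x.2 t ∧ x.1 ≤ A ∧ x.2 ≤ B) :
    F.card ≤ (t ^ 2).divisors.card := by
  have ht0 : 0 < t := ht.pos
  rcases F.eq_empty_or_nonempty with rfl | ⟨⟨s₁, p₁⟩, hb⟩
  · simp
  obtain ⟨b1, b2, b3, b4, b5⟩ := hF _ hb
  simp only at b1 b2 b3 b4 b5
  refine Finset.card_le_card_of_injOn
    (fun x => Int.gcd ((s₁ : ℤ) * x.2 - x.1 * p₁) ((t : ℤ) ^ 2)) ?_ ?_
  · intro x hx
    rw [Finset.mem_coe, Nat.mem_divisors]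
    refine ⟨?_, by positivity⟩
    have h3 : ((t : ℤ) ^ 2) = ((t ^ 2 : ℕ) : ℤ) := by push_cast; ring
    have := Int.gcd_dvd_right (a := (s₁ : ℤ) * x.2 - x.1 * p₁) (b := ((t : ℤ) ^ 2))
    rw [h3] at this ⊢
    exact Int.natCast_dvd_natCast.1 this
  · rintro ⟨s₂, p₂⟩ hx ⟨s₃, p₃⟩ hy hxy
    obtain ⟨c1, c2, c3, c4, c5⟩ := hF _ hx
    obtain ⟨d1, d2, d3, d4, d5⟩ := hF _ hy
    simp only at c1 c2 c3 c4 c5 d1 d2 d3 d4 d5 hxy
    obtain ⟨e1, e2⟩ := sq_dvd ht b1 c1 b2 c3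
    obtain ⟨f1, f2⟩ := sq_dvd ht b1 d1 b2 d3
    set e := Int.gcd ((s₁ : ℤ) * p₂ - s₂ * p₁) ((t : ℤ) ^ 2) with he
    set f := Int.gcd ((s₁ : ℤ) * p₂ + s₂ * p₁) ((t : ℤ) ^ 2) with hf
    rw [← hxy] at f1 f2
    set f' := Int.gcd ((s₁ : ℤ) * p₃ + s₃ * p₁) ((t : ℤ) ^ 2) with hf'
    have he0 : 0 < e := Nat.pos_of_ne_zero (by rintro h; rw [h, zero_mul] at e1; exact (by positivity : t ^ 2 ≠ 0) e1.symm)
    have hff : f = f' := Nat.eq_of_mul_eq_mul_left he0 (e1.trans f1.symm)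
    set E : ℤ := (s₂ : ℤ) * p₃ - s₃ * p₂ with hE
    have hcopt : ∀ g : ℕ, g ∣ t ^ 2 → IsCoprime (g : ℤ) (p₁ : ℤ) := by
      intro g hg
      apply coprime_int
      exact Nat.Coprime.coprime_dvd_left hg (Nat.Coprime.pow_left 2 b3.symm)
    have hedvd : (e : ℤ) ∣ E := by
      have h1 : (e : ℤ) ∣ (p₁ : ℤ) * E := by
        have h2 : (p₁ : ℤ) * E = ((s₁ : ℤ) * p₃ - s₃ * p₁) * p₂ - ((s₁ : ℤ) * p₂ - s₂ * p₁) * p₃ := by
          rw [hE]; ring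
        rw [h2]
        refine dvd_sub (Dvd.dvd.mul_right ?_ _) (Dvd.dvd.mul_right (Int.gcd_dvd_left ..) _)
        rw [hxy]
        exact Int.gcd_dvd_left ..
      exact (hcopt e (Dvd.intro _ e1)).dvd_of_dvd_mul_left h1
    have hfdvd : (f : ℤ) ∣ E := by
      have h1 : (f : ℤ) ∣ (p₁ : ℤ) * E := by
        have h2 : (p₁ : ℤ) * E = ((s₁ : ℤ) * p₂ + s₂ * p₁) * p₃ - ((s₁ : ℤ) * p₃ + s₃ * p₁) * p₂ := by
          rw [hE]; ring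
        rw [h2]
        refine dvd_sub (Dvd.dvd.mul_right (Int.gcd_dvd_left ..) _) (Dvd.dvd.mul_right ?_ _)
        rw [hff]
        exact Int.gcd_dvd_left ..
      exact (hcopt f (Dvd.intro_left _ e1)).dvd_of_dvd_mul_left h1
    have hNdvd : ((t ^ 2 : ℕ) : ℤ) ∣ E := by
      rw [← e1]
      push_cast
      exact (coprime_int e2).mul_dvd hedvd hfdvd
    have hE0 : E = 0 := by
      apply Int.eq_zero_of_abs_lt_dvd hNdvd
      rw [abs_lt]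
      have g1 : (s₂ : ℤ) * p₃ ≤ A * B := by
        exact_mod_cast Nat.mul_le_mul c4 d5
      have g2 : (s₃ : ℤ) * p₂ ≤ A * B := by
        exact_mod_cast Nat.mul_le_mul d4 c5
      have g3 : (A : ℤ) * B < ((t ^ 2 : ℕ) : ℤ) := by exact_mod_cast hAB
      have g4 : (0 : ℤ) ≤ (s₂ : ℤ) * p₃ := by positivity
      have g5 : (0 : ℤ) ≤ (s₃ : ℤ) * p₂ := by positivity
      constructor
      · rw [hE]; linarith
      · rw [hE]; linarith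
    have hsp : (s₂ : ℤ) * p₃ = s₃ * p₂ := by rw [hE] at hE0; linarith
    have hpp : (w * (t : ℤ) ^ 2) * ((p₃ : ℤ) ^ 2) = (w * (t : ℤ) ^ 2) * ((p₂ : ℤ) ^ 2) := by
      have h1 : ((s₂ : ℤ) * p₃) ^ 2 = ((s₃ : ℤ) * p₂) ^ 2 := by rw [hsp]
      rw [mul_pow, mul_pow, c1, d1] at h1
      linarith
    have ht1 : (w * (t : ℤ) ^ 2) ≠ 0 := mul_ne_zero hw (by positivity)
    have hp' := mul_left_cancel₀ ht1 hpp
    have hp3 : p₃ = p₂ := by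
      have : (p₃ : ℤ) = p₂ := by
        apply (sq_eq_sq₀ (by positivity) (by positivity)).1 hp'
      exact_mod_cast this
    have hs3 : s₂ = s₃ := by
      have h5 : ((s₂ : ℤ)) ^ 2 = ((s₃ : ℤ)) ^ 2 := by rw [c1, d1, hp3]
      have : (s₂ : ℤ) = s₃ := by
        apply (sq_eq_sq₀ (by positivity) (by positivity)).1 h5
      exact_mod_cast this
    rw [hs3, hp3]

end Pool.Agent.TH562.CN
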