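import Mathlib
import Pool.Agent.TH562.CN.Pell

/-! The sieve for square divisors of `z t ^ 2 ± s ^ 2`. -/

set_option autoImplicit false

namespace Pool.Agent.TH562.CN

/-- the two factors `z t ^ 2 + c s ^ 2`, `c = ±1` -/
def V (z t : ℕ) (c : ℤ) (s : ℕ) : ℤ := z * (t : ℤ) ^ 2 + c * (s : ℤ) ^ 2

/-- elements of a set which are pairwise congruent modulo `d` -/
theorem card_class {d N : ℕ} (_hd : 0 < d) (T : Finset ℕ) (hT : ∀ x ∈ T, x < N)
    (h : ∀ x ∈ T, ∀ y ∈ T, x % d = y % d) : T.card ≤ N / d + 1 := by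
  rw [← Finset.card_range (N / d + 1)]
  refine Finset.card_le_card_of_injOn (fun x => x / d) ?_ ?_
  · intro x hx
    rw [Finset.mem_coe, Finset.mem_range]
    exact Nat.lt_succ_of_le (Nat.div_le_div_right (hT x hx).le)
  · intro x hx y hy hxy
    have h1 := h x hx y hy
    simp only at hxy
    rw [← Nat.div_add_mod x d, ← Nat.div_add_mod y d, hxy, h1]

theorem modEq_of_dvd_mul {Q d : ℕ} (hQ : Nat.Coprime Q d) {x y a : ℕ} {e : ℤ}
    (hx : (d : ℤ) ∣ ((a + Q * x : ℕ) : ℤ) + e) (hy : (d : ℤ) ∣ ((a + Q * y : ℕ) : ℤ) + e) :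
    x % d = y % d := by
  have h1 : (d : ℤ) ∣ (Q : ℤ) * ((x : ℤ) - y) := by
    have h2 : (Q : ℤ) * ((x : ℤ) - y) =
        (((a + Q * x : ℕ) : ℤ) + e) - (((a + Q * y : ℕ) : ℤ) + e) := by
      push_cast; ring
    rw [h2]
    exact dvd_sub hx hy
  have h3 : (d : ℤ) ∣ (x : ℤ) - y := (coprime_int hQ).symm.dvd_of_dvd_mul_left h1
  have h4 : (x : ℤ) ≡ y [ZMOD d] := (Int.modEq_iff_dvd.2 (by
    have := dvd_neg.2 h3
    simpa using this))
  have h5 : x ≡ y [MOD d] := (Int.natCast_modEq_iff).1 h4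
  exact h5

/-- The number of places in a progression at which `p` divides. -/
theorem card_dvd {p Q : ℕ} (hp : p.Prime) (hQ : Nat.Coprime Q p) (a N : ℕ) :
    ((Finset.range N).filter fun σ => p ∣ a + Q * σ).card ≤ N / p + 1 := by
  apply card_class hp.pos
  · intro x hx
    exact Finset.mem_range.1 (Finset.mem_filter.1 hx).1
  · intro x hx y hy
    have h1 := (Finset.mem_filter.1 hx).2
    have h2 := (Finset.mem_filter.1 hy).2
    refine modEq_of_dvd_mul (a := a) (e := 0) hQ ?_ ?_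
    · rw [add_zero]; exact Int.natCast_dvd_natCast.2 h1
    · rw [add_zero]; exact Int.natCast_dvd_natCast.2 h2

/-- The number of places at which `p ^ 2` divides `z t ^ 2 ± s ^ 2`. -/
theorem card_sq {p Q z t : ℕ} {c : ℤ} (hc : c = 1 ∨ c = -1) (hp : p.Prime) (hp2 : p ≠ 2)
    (hQ : Nat.Coprime Q p) (hz : ¬ p ∣ z) (a N : ℕ) :
    ((Finset.range N).filter fun σ => Nat.Coprime (a + Q * σ) t ∧
      ((p ^ 2 : ℕ) : ℤ) ∣ V z t c (a + Q * σ)).card ≤ 2 * (N / p ^ 2 + 1) := by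
  classical
  set F := (Finset.range N).filter fun σ => Nat.Coprime (a + Q * σ) t ∧
      ((p ^ 2 : ℕ) : ℤ) ∣ V z t c (a + Q * σ) with hF
  rcases F.eq_empty_or_nonempty with h0 | ⟨σ₁, h1⟩
  · rw [h0]; simp
  obtain ⟨h1a, h1b, h1c⟩ := Finset.mem_filter.1 h1
  set s₁ := a + Q * σ₁ with hs1
  have hpt : ¬ p ∣ t := by
    intro hpt
    have h2 : (p : ℤ) ∣ c * (s₁ : ℤ) ^ 2 := by
      have h3 : c * (s₁ : ℤ) ^ 2 = V z t c s₁ - z * (t : ℤ) ^ 2 := by unfold V; ring
      rw [h3]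
      refine dvd_sub ((Int.natCast_dvd_natCast.2 (dvd_pow_self p two_ne_zero)).trans h1c) ?_
      exact Dvd.dvd.mul_left ((Int.natCast_dvd_natCast.2 hpt).trans (dvd_pow_self _ two_ne_zero)) _
    have h4 : (p : ℤ) ∣ (s₁ : ℤ) ^ 2 := by
      rcases hc with rfl | rfl
      · simpa using h2
      · simpa using h2
    have h5 : p ∣ s₁ := by
      have : (p : ℤ) ∣ ((s₁ ^ 2 : ℕ) : ℤ) := by push_cast; exact h4
      exact hp.dvd_of_dvd_pow (Int.natCast_dvd_natCast.1 this)
    exact hp.one_lt.ne' (Nat.Coprime.eq_one_of_dvd (h1b.coprime_dvd_left h5) hpt)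
  have hps1 : ¬ p ∣ s₁ := by
    intro hps
    have h2 : (p : ℤ) ∣ ((z * t ^ 2 : ℕ) : ℤ) := by
      have h3 : ((z * t ^ 2 : ℕ) : ℤ) = V z t c s₁ - c * (s₁ : ℤ) ^ 2 := by
        unfold V; push_cast; ring
      rw [h3]
      refine dvd_sub ((Int.natCast_dvd_natCast.2 (dvd_pow_self p two_ne_zero)).trans h1c) ?_
      exact Dvd.dvd.mul_left ((Int.natCast_dvd_natCast.2 hps).trans (dvd_pow_self _ two_ne_zero)) _
    rcases (Nat.Prime.dvd_mul hp).1 (Int.natCast_dvd_natCast.1 h2) with h4 | h4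
    · exact hz h4
    · exact hpt (hp.dvd_of_dvd_pow h4)
  have hkey : ∀ σ ∈ F, ((p ^ 2 : ℕ) : ℤ) ∣ ((a + Q * σ : ℕ) : ℤ) + (-(s₁ : ℤ)) ∨
      ((p ^ 2 : ℕ) : ℤ) ∣ ((a + Q * σ : ℕ) : ℤ) + (s₁ : ℤ) := by
    intro σ hσ
    obtain ⟨h2a, h2b, h2c⟩ := Finset.mem_filter.1 hσ
    set s := a + Q * σ with hs
    have h3 : ((p ^ 2 : ℕ) : ℤ) ∣ ((s : ℤ) + (-(s₁ : ℤ))) * ((s : ℤ) + s₁) := by
      have h4 : ((s : ℤ) + (-(s₁ : ℤ))) * ((s : ℤ) + s₁) = c * (V z t c s - V z t c s₁) := by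
        unfold V
        rcases hc with rfl | rfl <;> ring
      rw [h4]
      exact Dvd.dvd.mul_left (dvd_sub h2c h1c) _
    by_cases h5 : (p : ℤ) ∣ (s : ℤ) + (-(s₁ : ℤ))
    · left
      have h6 : ¬ (p : ℤ) ∣ (s : ℤ) + s₁ := by
        intro h6
        have h7 : (p : ℤ) ∣ ((2 * s₁ : ℕ) : ℤ) := by
          have h8 : ((2 * s₁ : ℕ) : ℤ) = ((s : ℤ) + s₁) - ((s : ℤ) + (-(s₁ : ℤ))) := by
            push_cast; ring
          rw [h8]; exact dvd_sub h6 h5
        rcases (Nat.Prime.dvd_mul hp).1 (Int.natCast_dvd_natCast.1 h7) with h8 | h8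
        · exact hp2 ((Nat.prime_dvd_prime_iff_eq hp Nat.prime_two).1 h8)
        · exact hps1 h8
      have h9 : IsCoprime (((p ^ 2 : ℕ)) : ℤ) ((s : ℤ) + s₁) := by
        push_cast
        apply IsCoprime.pow_left
        exact (Prime.coprime_iff_not_dvd (Nat.prime_iff_prime_int.1 hp)).2 h6
      exact h9.dvd_of_dvd_mul_right h3
    · right
      have h9 : IsCoprime (((p ^ 2 : ℕ)) : ℤ) ((s : ℤ) + (-(s₁ : ℤ))) := by
        push_cast
        apply IsCoprime.pow_left
        exact (Prime.coprime_iff_not_dvd (Nat.prime_iff_prime_int.1 hp)).2 h5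
      exact h9.dvd_of_dvd_mul_left h3
  have hsub : F ⊆ ((Finset.range N).filter fun σ =>
        ((p ^ 2 : ℕ) : ℤ) ∣ ((a + Q * σ : ℕ) : ℤ) + (-(s₁ : ℤ))) ∪
      ((Finset.range N).filter fun σ =>
        ((p ^ 2 : ℕ) : ℤ) ∣ ((a + Q * σ : ℕ) : ℤ) + (s₁ : ℤ)) := by
    intro σ hσ
    have hr := (Finset.mem_filter.1 hσ).1
    rcases hkey σ hσ with h | h
    · exact Finset.mem_union_left _ (Finset.mem_filter.2 ⟨hr, h⟩)
    · exact Finset.mem_union_right _ (Finset.mem_filter.2 ⟨hr, h⟩)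
  have hQ2 : Nat.Coprime Q (p ^ 2) := Nat.Coprime.pow_right 2 hQ
  have hcard : ∀ e : ℤ, ((Finset.range N).filter fun σ =>
        ((p ^ 2 : ℕ) : ℤ) ∣ ((a + Q * σ : ℕ) : ℤ) + e).card ≤ N / p ^ 2 + 1 := by
    intro e
    apply card_class (pow_pos hp.pos 2)
    · intro x hx
      exact Finset.mem_range.1 (Finset.mem_filter.1 hx).1
    · intro x hx y hy
      exact modEq_of_dvd_mul hQ2 (Finset.mem_filter.1 hx).2 (Finset.mem_filter.1 hy).2
  calc F.card ≤ _ := Finset.card_le_card hsub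
    _ ≤ _ := Finset.card_union_le _ _
    _ ≤ (N / p ^ 2 + 1) + (N / p ^ 2 + 1) := Nat.add_le_add (hcard _) (hcard _)
    _ = 2 * (N / p ^ 2 + 1) := by ring

/-- The contribution of the large primes. -/
theorem card_large {z t : ℕ} (ht : Odd t) (hz : 0 < z) {c : ℤ} (hc : c = 1 ∨ c = -1)
    (P M A B : ℕ) (hAB : A * B < t ^ 2) (F : Finset ℕ)
    (hF : ∀ s ∈ F, s ≤ A ∧ Nat.Coprime s t ∧ 0 < V z t c s ∧ V z t c s ≤ M * P ^ 2 ∧
      V z t c s ≤ B ^ 2 ∧ ∃ p : ℕ, p.Prime ∧ P < p ∧ ((p ^ 2 : ℕ) : ℤ) ∣ V z t c s) :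
    F.card ≤ M * (t ^ 2).divisors.card := by
  classical
  have hp : ∀ s : ℕ, ∃ x : ℕ × ℕ, s ∈ F → x.1.Prime ∧ P < x.1 ∧
      V z t c s = (x.1 : ℤ) ^ 2 * (x.2 : ℤ) ∧ x.2 ∈ Finset.Icc 1 M ∧ x.1 ≤ B := by
    intro s
    by_cases hs : s ∈ F
    · obtain ⟨h1, h2, h3, h4, h5, p, h6, h7, h8⟩ := hF s hs
      obtain ⟨m, hm⟩ := h8
      have hp0 : (0 : ℤ) < (p : ℤ) ^ 2 := by
        have := h6.pos
        positivity
      push_cast at hm
      have hm0 : 0 < m := by
        rw [hm] at h3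
        exact (mul_pos_iff_of_pos_left hp0).1 h3
      refine ⟨(p, m.toNat), fun _ => ⟨h6, h7, ?_, ?_, ?_⟩⟩
      · simp only
        rw [Int.toNat_of_nonneg hm0.le]
        exact hm
      · simp only [Finset.mem_Icc]
        constructor
        · omega
        · have h9 : (p : ℤ) ^ 2 * m ≤ M * (P : ℤ) ^ 2 := hm ▸ h4
          have h10 : (P : ℤ) ^ 2 < (p : ℤ) ^ 2 := by
            have : (P : ℤ) < p := by exact_mod_cast h7
            nlinarith [(by positivity : (0 : ℤ) ≤ P)]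
          have h11 : m ≤ M := by
            by_contra hcon
            push Not at hcon
            have hM : (0 : ℤ) ≤ M := by positivity
            nlinarith
          omega
      · simp only
        have h9 : (p : ℤ) ^ 2 ≤ (B : ℤ) ^ 2 := by
          calc (p : ℤ) ^ 2 ≤ (p : ℤ) ^ 2 * m := by nlinarith
            _ = V z t c s := hm.symm
            _ ≤ _ := h5
        have h10 : (p : ℤ) ≤ B := by
          apply (sq_le_sq₀ (by positivity) (by positivity)).1 h9
        exact_mod_cast h10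
    · exact ⟨(0, 0), fun h => absurd h hs⟩
  choose x hx using hp
  have hmaps : ∀ s ∈ F, (x s).2 ∈ Finset.Icc 1 M := fun s hs => (hx s hs).2.2.2.1
  rw [Finset.card_eq_sum_card_fiberwise hmaps]
  calc ∑ m ∈ Finset.Icc 1 M, (F.filter fun s => (x s).2 = m).card
      ≤ ∑ _m ∈ Finset.Icc 1 M, (t ^ 2).divisors.card := by
        apply Finset.sum_le_sum
        intro m _
        have hinj : (F.filter fun s => (x s).2 = m).card =
            ((F.filter fun s => (x s).2 = m).image fun s => (s, (x s).1)).card := by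
          rw [Finset.card_image_of_injective]
          intro a b hab
          exact (Prod.ext_iff.1 hab).1
        rw [hinj]
        refine rigid ht (m := c * m) (w := c * z) ?_ A B hAB _ ?_
        · rcases hc with rfl | rfl
          · simp; omega
          · simp; omega
        · intro y hy
          obtain ⟨s, hs, rfl⟩ := Finset.mem_image.1 hy
          obtain ⟨hsF, hsm⟩ := Finset.mem_filter.1 hs
          obtain ⟨h1, h2, h3, h4, h5, -⟩ := hF s hsF
          obtain ⟨g1, g2, g3, g4, g5⟩ := hx s hsF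
          rw [hsm] at g3
          simp only
          refine ⟨?_, h2, ?_, h1, g5⟩
          · unfold V at g3
            rcases hc with rfl | rfl
            · linarith
            · linarith
          · rw [Nat.Prime.coprime_iff_not_dvd g1]
            intro hpt
            have h7 : ((x s).1 : ℤ) ∣ c * (s : ℤ) ^ 2 := by
              have h8 : c * (s : ℤ) ^ 2 = ((x s).1 : ℤ) ^ 2 * (m : ℤ) - z * (t : ℤ) ^ 2 := by
                rw [← g3]; unfold V; ring
              rw [h8]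
              refine dvd_sub (Dvd.dvd.mul_right (dvd_pow_self _ two_ne_zero) _) ?_
              exact Dvd.dvd.mul_left
                ((Int.natCast_dvd_natCast.2 hpt).trans (dvd_pow_self _ two_ne_zero)) _
            have h9 : ((x s).1 : ℤ) ∣ (s : ℤ) ^ 2 := by
              rcases hc with rfl | rfl
              · simpa using h7
              · simpa using h7
            have h10 : (x s).1 ∣ s := by
              have : ((x s).1 : ℤ) ∣ ((s ^ 2 : ℕ) : ℤ) := by push_cast; exact h9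
              exact g1.dvd_of_dvd_pow (Int.natCast_dvd_natCast.1 this)
            exact g1.one_lt.ne' (Nat.Coprime.eq_one_of_dvd (h2.coprime_dvd_left h10) hpt)
    _ = M * (t ^ 2).divisors.card := by
        rw [Finset.sum_const, Nat.card_Icc, smul_eq_mul, Nat.add_sub_cancel]

end Pool.Agent.TH562.CN
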