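import Mathlib
import Pool.Agent.TH562.CN.Sieve

/-! The numbers `z (z t ^ 2 + s ^ 2) (z t ^ 2 - s ^ 2)`: congruent, squarefree, residues. -/

set_option autoImplicit false

namespace Pool.Agent.TH562.CN

/-- congruent numbers -/
def Cong (n : ℕ) : Prop := ∃ a b c : ℚ, 0 < a ∧ 0 < b ∧ 0 < c ∧ a ^ 2 + b ^ 2 = c ^ 2 ∧
  (n : ℚ) = a * b / 2

/-- the family -/
def val (z t s : ℕ) : ℕ := z * ((z * t ^ 2 + s ^ 2) * (z * t ^ 2 - s ^ 2))

theorem cong_val {z t s : ℕ} (hz : 0 < z) (ht : 0 < t) (hs : 0 < s) (h : s ^ 2 < z * t ^ 2) :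
    Cong (val z t s) := by
  have hz' : (0 : ℚ) < z := by exact_mod_cast hz
  have ht' : (0 : ℚ) < t := by exact_mod_cast ht
  have hs' : (0 : ℚ) < s := by exact_mod_cast hs
  have h' : (s : ℚ) ^ 2 < z * (t : ℚ) ^ 2 := by exact_mod_cast h
  refine ⟨2 * z * t * s, ((z * (t : ℚ) ^ 2) ^ 2 - ((s : ℚ) ^ 2) ^ 2) / (t * s),
    ((z * (t : ℚ) ^ 2) ^ 2 + ((s : ℚ) ^ 2) ^ 2) / (t * s), by positivity, ?_, by positivity, ?_, ?_⟩
  · apply div_pos _ (by positivity)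
    have : ((s : ℚ) ^ 2) ^ 2 < (z * (t : ℚ) ^ 2) ^ 2 := by
      apply pow_lt_pow_left₀ h' (by positivity) two_ne_zero
    linarith
  · field_simp
    ring
  · unfold val
    rw [Nat.cast_mul, Nat.cast_mul, Nat.cast_sub h.le]
    push_cast
    field_simp
    ring

theorem val_mod_odd {z t s : ℕ} (hz : z = 1 ∨ z = 3 ∨ z = 5 ∨ z = 7) (ht : Odd t) (hs : Even s)
    (h : s ^ 2 < z * t ^ 2) : val z t s % 8 = z := by
  obtain ⟨k, rfl⟩ := ht
  obtain ⟨l, rfl⟩ := hs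
  have h1 : ((val z (2 * k + 1) (l + l) : ℕ) : ZMod 8) = (z : ZMod 8) := by
    unfold val
    rw [Nat.cast_mul, Nat.cast_mul, Nat.cast_sub h.le]
    push_cast
    generalize (k : ZMod 8) = k
    generalize (l : ZMod 8) = l
    rcases hz with rfl | rfl | rfl | rfl <;> revert k l <;> decide
  have h2 := (ZMod.natCast_eq_natCast_iff' _ _ _).1 h1
  rcases hz with rfl | rfl | rfl | rfl <;> simpa using h2

theorem val_mod_two {t s : ℕ} (ht : Odd t) (hs : Odd s)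
    (h : s ^ 2 < 2 * t ^ 2) : val 2 t s % 8 = 6 := by
  obtain ⟨k, rfl⟩ := ht
  obtain ⟨l, rfl⟩ := hs
  have h1 : ((val 2 (2 * k + 1) (2 * l + 1) : ℕ) : ZMod 8) = ((6 : ℕ) : ZMod 8) := by
    unfold val
    rw [Nat.cast_mul, Nat.cast_mul, Nat.cast_sub h.le]
    push_cast
    generalize (k : ZMod 8) = k
    generalize (l : ZMod 8) = l
    revert k l
    decide
  have h2 := (ZMod.natCast_eq_natCast_iff' _ _ _).1 h1
  simpa using h2

theorem val_mod_six {t s : ℕ} (ht : Odd t) (hs : Odd s)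
    (h : s ^ 2 < 6 * t ^ 2) : val 6 t s % 8 = 2 := by
  obtain ⟨k, rfl⟩ := ht
  obtain ⟨l, rfl⟩ := hs
  have h1 : ((val 6 (2 * k + 1) (2 * l + 1) : ℕ) : ZMod 8) = ((2 : ℕ) : ZMod 8) := by
    unfold val
    rw [Nat.cast_mul, Nat.cast_mul, Nat.cast_sub h.le]
    push_cast
    generalize (k : ZMod 8) = k
    generalize (l : ZMod 8) = l
    revert k l
    decide
  have h2 := (ZMod.natCast_eq_natCast_iff' _ _ _).1 h1
  simpa using h2

theorem dvd_s_t {z t s p : ℕ} (hp : p.Prime) (h2z : ¬ p ∣ 2 * z)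
    (h1 : (p : ℤ) ∣ V z t 1 s) (h2 : (p : ℤ) ∣ V z t (-1) s) : p ∣ s ∧ p ∣ t := by
  have e1 : (p : ℤ) ∣ ((2 * z * t ^ 2 : ℕ) : ℤ) := by
    have : ((2 * z * t ^ 2 : ℕ) : ℤ) = V z t 1 s + V z t (-1) s := by
      unfold V; push_cast; ring
    rw [this]; exact dvd_add h1 h2
  have e2 : (p : ℤ) ∣ ((2 * s ^ 2 : ℕ) : ℤ) := by
    have : ((2 * s ^ 2 : ℕ) : ℤ) = V z t 1 s - V z t (-1) s := by
      unfold V; push_cast; ring
    rw [this]; exact dvd_sub h1 h2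
  have e1' := Int.natCast_dvd_natCast.1 e1
  have e2' := Int.natCast_dvd_natCast.1 e2
  refine ⟨?_, ?_⟩
  · rcases (Nat.Prime.dvd_mul hp).1 e2' with h | h
    · exact absurd (h.trans (dvd_mul_right 2 z)) h2z
    · exact hp.dvd_of_dvd_pow h
  · rcases (Nat.Prime.dvd_mul hp).1 e1' with h | h
    · exact absurd h h2z
    · exact hp.dvd_of_dvd_pow h

theorem sqf_val {z t s W : ℕ} (hz : Squarefree z) (h : s ^ 2 < z * t ^ 2)
    (h2W : 2 ≤ W) (hzW : ∀ p : ℕ, p.Prime → p ∣ z → p ≤ W)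
    (hst : Nat.Coprime s t)
    (hsm : ∀ c : ℤ, (c = 1 ∨ c = -1) → ∀ p : ℕ, p.Prime → p ≤ W → ¬ (p : ℤ) ∣ V z t c s)
    (hlg : ∀ c : ℤ, (c = 1 ∨ c = -1) → ∀ p : ℕ, p.Prime → W < p →
      ¬ ((p ^ 2 : ℕ) : ℤ) ∣ V z t c s) : Squarefree (val z t s) := by
  have e1 : ((z * t ^ 2 + s ^ 2 : ℕ) : ℤ) = V z t 1 s := by unfold V; push_cast; ring
  have e2 : ((z * t ^ 2 - s ^ 2 : ℕ) : ℤ) = V z t (-1) s := by
    rw [Nat.cast_sub h.le]; unfold V; push_cast; ring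
  have q : ∀ c : ℤ, (c = 1 ∨ c = -1) → ∀ n : ℕ, (n : ℤ) = V z t c s → Squarefree n := by
    intro c hc n hn
    rw [Nat.squarefree_iff_prime_squarefree]
    intro p hp hpp
    rcases le_or_gt p W with hpW | hpW
    · refine hsm c hc p hp hpW ?_
      rw [← hn]
      exact Int.natCast_dvd_natCast.2 ((dvd_mul_right p p).trans hpp)
    · refine hlg c hc p hp hpW ?_
      rw [← hn, pow_two]
      exact Int.natCast_dvd_natCast.2 hpp
  have q1 := q 1 (Or.inl rfl) _ e1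
  have q2 := q (-1) (Or.inr rfl) _ e2
  unfold val
  rw [Nat.squarefree_mul_iff, Nat.squarefree_mul_iff]
  refine ⟨?_, hz, ?_, q1, q2⟩
  · rw [Nat.coprime_mul_iff_right]
    constructor
    · by_contra hcon
      obtain ⟨p, hp, h1, h2⟩ := Nat.Prime.not_coprime_iff_dvd.1 hcon
      refine hsm 1 (Or.inl rfl) p hp (hzW p hp h1) ?_
      rw [← e1]
      exact Int.natCast_dvd_natCast.2 h2
    · by_contra hcon
      obtain ⟨p, hp, h1, h2⟩ := Nat.Prime.not_coprime_iff_dvd.1 hcon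
      refine hsm (-1) (Or.inr rfl) p hp (hzW p hp h1) ?_
      rw [← e2]
      exact Int.natCast_dvd_natCast.2 h2
  · by_contra hcon
    obtain ⟨p, hp, h1, h2⟩ := Nat.Prime.not_coprime_iff_dvd.1 hcon
    have h1' : (p : ℤ) ∣ V z t 1 s := by rw [← e1]; exact Int.natCast_dvd_natCast.2 h1
    have h2' : (p : ℤ) ∣ V z t (-1) s := by rw [← e2]; exact Int.natCast_dvd_natCast.2 h2
    rcases le_or_gt p W with hpW | hpW
    · exact hsm 1 (Or.inl rfl) p hp hpW h1'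
    · have h3 : ¬ p ∣ 2 * z := by
        intro h3
        rcases (Nat.Prime.dvd_mul hp).1 h3 with h4 | h4
        · have := (Nat.prime_dvd_prime_iff_eq hp Nat.prime_two).1 h4
          omega
        · have := hzW p hp h4
          omega
      obtain ⟨h4, h5⟩ := dvd_s_t hp h3 h1' h2'
      exact hp.one_lt.ne' (Nat.Coprime.eq_one_of_dvd (hst.coprime_dvd_left h4) h5)

/-- the small primes -/
theorem small_primes {z Q t s W : ℕ} (hQ : Squarefree Q) (hzQ : z ∣ Q)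
    (hQW : ∀ p : ℕ, p.Prime → p ≤ W → p ∣ Q)
    (ht : ∃ k, t = 1 + Q * k) (hs : ∃ k, s = Q / z + Q * k) :
    ∀ c : ℤ, (c = 1 ∨ c = -1) → ∀ p : ℕ, p.Prime → p ≤ W → ¬ (p : ℤ) ∣ V z t c s := by
  intro c hc p hp hpW hdvd
  have hpQ := hQW p hp hpW
  obtain ⟨k, rfl⟩ := ht
  obtain ⟨l, rfl⟩ := hs
  have hzz : z * (Q / z) = Q := Nat.mul_div_cancel' hzQ
  by_cases hpz : p ∣ z
  · have h1 : (p : ℤ) ∣ c * ((Q / z + Q * l : ℕ) : ℤ) ^ 2 := by
      have h2 : c * ((Q / z + Q * l : ℕ) : ℤ) ^ 2 =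
          V z (1 + Q * k) c (Q / z + Q * l) - z * (((1 + Q * k : ℕ) : ℤ)) ^ 2 := by
        unfold V; ring
      rw [h2]
      exact dvd_sub hdvd (Dvd.dvd.mul_right (Int.natCast_dvd_natCast.2 hpz) _)
    have h3 : (p : ℤ) ∣ (((Q / z + Q * l) ^ 2 : ℕ) : ℤ) := by
      push_cast at h1 ⊢
      rcases hc with rfl | rfl
      · simpa using h1
      · simpa using h1
    have h4 : p ∣ Q / z + Q * l := hp.dvd_of_dvd_pow (Int.natCast_dvd_natCast.1 h3)
    have h5 : p ∣ Q / z := (Nat.dvd_add_left (Dvd.dvd.mul_right hpQ l)).1 h4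
    have h6 : p * p ∣ Q := by
      rw [← hzz]
      exact mul_dvd_mul hpz h5
    exact hp.one_lt.ne' (Nat.isUnit_iff.1 (hQ p h6))
  · have h5 : p ∣ Q / z := by
      rw [← hzz] at hpQ
      rcases (Nat.Prime.dvd_mul hp).1 hpQ with h | h
      · exact absurd h hpz
      · exact h
    have h4 : p ∣ Q / z + Q * l := dvd_add h5 (Dvd.dvd.mul_right hpQ l)
    have h1 : (p : ℤ) ∣ ((z * (1 + Q * k) ^ 2 : ℕ) : ℤ) := by
      have h2 : ((z * (1 + Q * k) ^ 2 : ℕ) : ℤ) =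
          V z (1 + Q * k) c (Q / z + Q * l) - c * ((Q / z + Q * l : ℕ) : ℤ) ^ 2 := by
        unfold V; push_cast; ring
      rw [h2]
      refine dvd_sub hdvd (Dvd.dvd.mul_left ?_ _)
      exact (Int.natCast_dvd_natCast.2 h4).trans (dvd_pow_self _ two_ne_zero)
    rcases (Nat.Prime.dvd_mul hp).1 (Int.natCast_dvd_natCast.1 h1) with h | h
    · exact hpz h
    · have h7 : p ∣ 1 + Q * k := hp.dvd_of_dvd_pow h
      have h8 : p ∣ 1 := (Nat.dvd_add_left (Dvd.dvd.mul_right hpQ k)).1 h7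
      exact hp.one_lt.ne' (Nat.dvd_one.1 h8)

/-- the counting argument -/
theorem exists_good {z W t Q a N P M A B : ℕ} (hz : 0 < z) (hzW : ∀ p : ℕ, p.Prime → p ∣ z → p ≤ W)
    (h2W : 2 ≤ W) (hQ : ∀ p : ℕ, p.Prime → W < p → ¬ p ∣ Q) (ht : Odd t)
    (htW : ∀ p : ℕ, p.Prime → p ∣ t → W < p) (hAB : A * B < t ^ 2)
    (hA : ∀ σ < N, a + Q * σ ≤ A)
    (hV : ∀ σ < N, ∀ c : ℤ, (c = 1 ∨ c = -1) → 0 < V z t c (a + Q * σ) ∧
      V z t c (a + Q * σ) ≤ M * P ^ 2 ∧ V z t c (a + Q * σ) ≤ B ^ 2)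
    (hcount : ∑ p ∈ t.primeFactors, (N / p + 1) +
      2 * ∑ p ∈ (Finset.Ioc W P).filter Nat.Prime, 2 * (N / p ^ 2 + 1) +
      2 * (M * (t ^ 2).divisors.card) < N) :
    ∃ σ < N, Nat.Coprime (a + Q * σ) t ∧ ∀ c : ℤ, (c = 1 ∨ c = -1) → ∀ p : ℕ, p.Prime → W < p →
      ¬ ((p ^ 2 : ℕ) : ℤ) ∣ V z t c (a + Q * σ) := by
  classical
  by_contra hcon
  push Not at hcon
  set B1 := t.primeFactors.biUnion fun p => (Finset.range N).filter fun σ => p ∣ a + Q * σ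
    with hB1
  set B2 : ℤ → Finset ℕ := fun c => ((Finset.Ioc W P).filter Nat.Prime).biUnion fun p =>
    (Finset.range N).filter fun σ => Nat.Coprime (a + Q * σ) t ∧
      ((p ^ 2 : ℕ) : ℤ) ∣ V z t c (a + Q * σ) with hB2
  set B3 : ℤ → Finset ℕ := fun c => (Finset.range N).filter fun σ =>
    Nat.Coprime (a + Q * σ) t ∧ ∃ p : ℕ, p.Prime ∧ P < p ∧
      ((p ^ 2 : ℕ) : ℤ) ∣ V z t c (a + Q * σ) with hB3
  have hcopQ : ∀ p : ℕ, p.Prime → W < p → Nat.Coprime Q p := fun p hp hpW =>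
    ((Nat.Prime.coprime_iff_not_dvd hp).2 (hQ p hp hpW)).symm
  have hsub : Finset.range N ⊆ B1 ∪ (B2 1 ∪ B2 (-1)) ∪ (B3 1 ∪ B3 (-1)) := by
    intro σ hσ
    have hσN := Finset.mem_range.1 hσ
    by_cases hc : Nat.Coprime (a + Q * σ) t
    · obtain ⟨c, hc1, p, hp, hpW, hdvd⟩ := hcon σ hσN hc
      rcases le_or_gt p P with hpP | hpP
      · have hmem : σ ∈ B2 c := by
          rw [hB2, Finset.mem_biUnion]
          exact ⟨p, Finset.mem_filter.2 ⟨Finset.mem_Ioc.2 ⟨hpW, hpP⟩, hp⟩,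
            Finset.mem_filter.2 ⟨hσ, hc, hdvd⟩⟩
        rcases hc1 with rfl | rfl
        · exact Finset.mem_union_left _ (Finset.mem_union_right _ (Finset.mem_union_left _ hmem))
        · exact Finset.mem_union_left _ (Finset.mem_union_right _ (Finset.mem_union_right _ hmem))
      · have hmem : σ ∈ B3 c := by
          rw [hB3]
          exact Finset.mem_filter.2 ⟨hσ, hc, p, hp, hpP, hdvd⟩
        rcases hc1 with rfl | rfl
        · exact Finset.mem_union_right _ (Finset.mem_union_left _ hmem)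
        · exact Finset.mem_union_right _ (Finset.mem_union_right _ hmem)
    · obtain ⟨p, hp, h1, h2⟩ := Nat.Prime.not_coprime_iff_dvd.1 hc
      refine Finset.mem_union_left _ (Finset.mem_union_left _ ?_)
      rw [hB1, Finset.mem_biUnion]
      exact ⟨p, Nat.mem_primeFactors.2 ⟨hp, h2, ht.pos.ne'⟩, Finset.mem_filter.2 ⟨hσ, h1⟩⟩
  have c1 : B1.card ≤ ∑ p ∈ t.primeFactors, (N / p + 1) := by
    refine Finset.card_biUnion_le.trans (Finset.sum_le_sum fun p hp => ?_)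
    have hp1 := Nat.prime_of_mem_primeFactors hp
    exact card_dvd hp1 (hcopQ p hp1 (htW p hp1 (Nat.dvd_of_mem_primeFactors hp))) a N
  have c2 : ∀ c : ℤ, (c = 1 ∨ c = -1) →
      (B2 c).card ≤ ∑ p ∈ (Finset.Ioc W P).filter Nat.Prime, 2 * (N / p ^ 2 + 1) := by
    intro c hc
    refine Finset.card_biUnion_le.trans (Finset.sum_le_sum fun p hp => ?_)
    obtain ⟨hp1, hp2⟩ := Finset.mem_filter.1 hp
    have hpW := (Finset.mem_Ioc.1 hp1).1
    refine card_sq hc hp2 (by omega) (hcopQ p hp2 hpW) ?_ a N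
    intro h
    have := hzW p hp2 h
    omega
  have c3 : ∀ c : ℤ, (c = 1 ∨ c = -1) → (B3 c).card ≤ M * (t ^ 2).divisors.card := by
    intro c hc
    rcases Nat.eq_zero_or_pos Q with hQ0 | hQ0
    · exfalso
      obtain ⟨p, hp1, hp2⟩ := Nat.exists_infinite_primes (W + 1)
      exact hQ p hp2 (by omega) (by rw [hQ0]; exact dvd_zero p)
    have hinj : ((B3 c).image fun σ => a + Q * σ).card = (B3 c).card := by
      apply Finset.card_image_of_injective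
      intro x y hxy
      simp only at hxy
      exact Nat.eq_of_mul_eq_mul_left hQ0 (Nat.add_left_cancel hxy)
    rw [← hinj]
    refine card_large ht hz hc P M A B hAB _ ?_
    intro s hs
    obtain ⟨σ, hσ, rfl⟩ := Finset.mem_image.1 hs
    obtain ⟨h1, h2, h3⟩ := Finset.mem_filter.1 hσ
    obtain ⟨h4, h5, h6⟩ := hV σ (Finset.mem_range.1 h1) c hc
    exact ⟨hA σ (Finset.mem_range.1 h1), h2, h4, h5, h6, h3⟩
  have htot := Finset.card_le_card hsub
  rw [Finset.card_range] at htot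
  have u1 := Finset.card_union_le (B1 ∪ (B2 1 ∪ B2 (-1))) (B3 1 ∪ B3 (-1))
  have u2 := Finset.card_union_le B1 (B2 1 ∪ B2 (-1))
  have u3 := Finset.card_union_le (B2 1) (B2 (-1))
  have u4 := Finset.card_union_le (B3 1) (B3 (-1))
  have v1 := c2 1 (Or.inl rfl)
  have v2 := c2 (-1) (Or.inr rfl)
  have v3 := c3 1 (Or.inl rfl)
  have v4 := c3 (-1) (Or.inr rfl)
  omega

end Pool.Agent.TH562.CN
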