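import Mathlib
import Pool.Agent.TH562.CN.Basic
import Pool.Agent.H510R2.Div

/-! Counting the pairs which do not give squarefree values. -/

set_option autoImplicit false

namespace Pool.Agent.TH562.CN

open Finset

open Classical in
theorem bad_fixed {z W t Q a N P M A B : ℕ} (hz : 0 < z)
    (hzW : ∀ p : ℕ, p.Prime → p ∣ z → p ≤ W)
    (h2W : 2 ≤ W) (hQ0 : 0 < Q) (hQ : ∀ p : ℕ, p.Prime → W < p → ¬ p ∣ Q) (ht : Odd t)
    (hAB : A * B < t ^ 2) (hA : ∀ σ < N, a + Q * σ ≤ A)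
    (hV : ∀ σ < N, ∀ c : ℤ, (c = 1 ∨ c = -1) → 0 < V z t c (a + Q * σ) ∧
      V z t c (a + Q * σ) ≤ M * P ^ 2 ∧ V z t c (a + Q * σ) ≤ B ^ 2) :
    ((range N).filter fun σ => Nat.Coprime (a + Q * σ) t ∧ ∃ c : ℤ, (c = 1 ∨ c = -1) ∧
      ∃ p : ℕ, p.Prime ∧ W < p ∧ ((p ^ 2 : ℕ) : ℤ) ∣ V z t c (a + Q * σ)).card ≤
      2 * ∑ p ∈ (Finset.Ioc W P).filter Nat.Prime, 2 * (N / p ^ 2 + 1) +
      2 * (M * (t ^ 2).divisors.card) := by
  set F := (range N).filter fun σ => Nat.Coprime (a + Q * σ) t ∧ ∃ c : ℤ, (c = 1 ∨ c = -1) ∧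
      ∃ p : ℕ, p.Prime ∧ W < p ∧ ((p ^ 2 : ℕ) : ℤ) ∣ V z t c (a + Q * σ) with hF
  set B2 : ℤ → Finset ℕ := fun c => ((Finset.Ioc W P).filter Nat.Prime).biUnion fun p =>
    (Finset.range N).filter fun σ => Nat.Coprime (a + Q * σ) t ∧
      ((p ^ 2 : ℕ) : ℤ) ∣ V z t c (a + Q * σ) with hB2
  set B3 : ℤ → Finset ℕ := fun c => (Finset.range N).filter fun σ =>
    Nat.Coprime (a + Q * σ) t ∧ ∃ p : ℕ, p.Prime ∧ P < p ∧
      ((p ^ 2 : ℕ) : ℤ) ∣ V z t c (a + Q * σ) with hB3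
  have hcopQ : ∀ p : ℕ, p.Prime → W < p → Nat.Coprime Q p := fun p hp hpW =>
    ((Nat.Prime.coprime_iff_not_dvd hp).2 (hQ p hp hpW)).symm
  have hsub : F ⊆ (B2 1 ∪ B2 (-1)) ∪ (B3 1 ∪ B3 (-1)) := by
    intro σ hσ'
    obtain ⟨hσ, hc, c, hc1, p, hp, hpW, hdvd⟩ := Finset.mem_filter.1 hσ'
    rcases le_or_gt p P with hpP | hpP
    · have hmem : σ ∈ B2 c := by
        rw [hB2, Finset.mem_biUnion]
        exact ⟨p, Finset.mem_filter.2 ⟨Finset.mem_Ioc.2 ⟨hpW, hpP⟩, hp⟩,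
          Finset.mem_filter.2 ⟨hσ, hc, hdvd⟩⟩
      rcases hc1 with rfl | rfl
      · exact Finset.mem_union_left _ (Finset.mem_union_left _ hmem)
      · exact Finset.mem_union_left _ (Finset.mem_union_right _ hmem)
    · have hmem : σ ∈ B3 c := by
        rw [hB3]
        exact Finset.mem_filter.2 ⟨hσ, hc, p, hp, hpP, hdvd⟩
      rcases hc1 with rfl | rfl
      · exact Finset.mem_union_right _ (Finset.mem_union_left _ hmem)
      · exact Finset.mem_union_right _ (Finset.mem_union_right _ hmem)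
  have c2 : ∀ c : ℤ, (c = 1 ∨ c = -1) →
      (B2 c).card ≤ ∑ p ∈ (Finset.Ioc W P).filter Nat.Prime, 2 * (N / p ^ 2 + 1) := by
    intro c hc
    refine Finset.card_biUnion_le.trans (Finset.sum_le_sum fun p hp => ?_)
    obtain ⟨hp1, hp2⟩ := Finset.mem_filter.1 hp
    have hpW := (Finset.mem_Ioc.1 hp1).1
    refine card_sq hc hp2 (by omega) (hcopQ p hp2 hpW) ?_ a N
    intro h
    have := hzW p hp2 h
    omega
  have c3 : ∀ c : ℤ, (c = 1 ∨ c = -1) → (B3 c).card ≤ M * (t ^ 2).divisors.card := by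
    intro c hc
    have hinj : ((B3 c).image fun σ => a + Q * σ).card = (B3 c).card := by
      apply Finset.card_image_of_injective
      intro x y hxy
      simp only at hxy
      exact Nat.eq_of_mul_eq_mul_left hQ0 (Nat.add_left_cancel hxy)
    rw [← hinj]
    refine card_large ht hz hc P M A B hAB _ ?_
    intro s hs
    obtain ⟨σ, hσ, rfl⟩ := Finset.mem_image.1 hs
    obtain ⟨h1, h2, h3⟩ := Finset.mem_filter.1 hσ
    obtain ⟨h4, h5, h6⟩ := hV σ (Finset.mem_range.1 h1) c hc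
    exact ⟨hA σ (Finset.mem_range.1 h1), h2, h4, h5, h6, h3⟩
  have htot := Finset.card_le_card hsub
  have u1 := Finset.card_union_le (B2 1 ∪ B2 (-1)) (B3 1 ∪ B3 (-1))
  have u3 := Finset.card_union_le (B2 1) (B2 (-1))
  have u4 := Finset.card_union_le (B3 1) (B3 (-1))
  have v1 := c2 1 (Or.inl rfl)
  have v2 := c2 (-1) (Or.inr rfl)
  have v3 := c3 1 (Or.inl rfl)
  have v4 := c3 (-1) (Or.inr rfl)
  omega

/-- sum over the primes in `(W, P]` -/
theorem sum_primes_sq (W P N : ℕ) (hW : 1 ≤ W) :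
    ((∑ p ∈ (Finset.Ioc W P).filter Nat.Prime, 2 * (N / p ^ 2 + 1) : ℕ) : ℝ) ≤
      2 * N / W + 2 * P := by
  have hW' : (0 : ℝ) < W := by exact_mod_cast hW
  rcases le_or_gt W P with h | h
  · push_cast
    have h1 : ∀ p ∈ (Finset.Ioc W P).filter Nat.Prime,
        2 * (((N / p ^ 2 : ℕ) : ℝ) + 1) ≤ 2 * (N : ℝ) * ((p : ℝ) ^ 2)⁻¹ + 2 := by
      intro p hp
      have h2 : ((N / p ^ 2 : ℕ) : ℝ) ≤ (N : ℝ) / ((p ^ 2 : ℕ) : ℝ) := Nat.cast_div_le
      push_cast at h2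
      rw [div_eq_mul_inv] at h2
      linarith
    calc _ ≤ ∑ p ∈ (Finset.Ioc W P).filter Nat.Prime, (2 * (N : ℝ) * ((p : ℝ) ^ 2)⁻¹ + 2) :=
          Finset.sum_le_sum h1
      _ ≤ ∑ p ∈ Finset.Ioc W P, (2 * (N : ℝ) * ((p : ℝ) ^ 2)⁻¹ + 2) := by
          apply Finset.sum_le_sum_of_subset_of_nonneg (Finset.filter_subset _ _)
          intro _ _ _; positivity
      _ = 2 * N * ∑ p ∈ Finset.Ioc W P, ((p : ℝ) ^ 2)⁻¹ + 2 * (P - W : ℕ) := by
          rw [Finset.sum_add_distrib, ← Finset.mul_sum, Finset.sum_const, Nat.card_Ioc,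
            nsmul_eq_mul]
          ring
      _ ≤ 2 * N * (W : ℝ)⁻¹ + 2 * P := by
          have h3 := sum_Ioc_inv_sq_le_sub (α := ℝ) (k := W) (n := P) (by omega) h
          have h4 : (0 : ℝ) ≤ (P : ℝ)⁻¹ := by positivity
          have h5 : ∑ p ∈ Finset.Ioc W P, ((p : ℝ) ^ 2)⁻¹ ≤ (W : ℝ)⁻¹ := by linarith
          have h6 : ((P - W : ℕ) : ℝ) ≤ P := by
            have : P - W ≤ P := Nat.sub_le _ _
            exact_mod_cast this
          have h7 := mul_le_mul_of_nonneg_left h5 (by positivity : (0 : ℝ) ≤ 2 * N)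
          linarith
      _ = _ := by rw [div_eq_mul_inv]
  · rw [Finset.Ioc_eq_empty (by omega)]
    simp
    positivity

/-- pairs with a common factor -/
theorem card_gcd {Q a W τ₀ σ₀ Y S X : ℕ} (hW : 1 ≤ W) (hQW : ∀ p : ℕ, p.Prime → p ≤ W → p ∣ Q)
    (hQ : ∀ p : ℕ, p.Prime → W < p → ¬ p ∣ Q)
    (hX : ∀ σ ∈ Ico σ₀ (σ₀ + S), a + Q * σ ≤ X) (ha : ∀ σ ∈ Ico σ₀ (σ₀ + S), 0 < a + Q * σ) (k : ℕ)
    (hk : 1 ≤ k) :
    (((Ico τ₀ (τ₀ + Y) ×ˢ Ico σ₀ (σ₀ + S)).filter fun p : ℕ × ℕ =>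
      ¬ Nat.Coprime (a + Q * p.2) (1 + Q * p.1)).card : ℝ) ≤
      (Y : ℝ) * S / W + ((Y : ℝ) + S) * (k + X / k) + X := by
  classical
  have hW' : (0 : ℝ) < W := by exact_mod_cast hW
  have hk' : (0 : ℝ) < k := by exact_mod_cast hk
  have hcopQ : ∀ p : ℕ, p.Prime → W < p → Nat.Coprime Q p := fun p hp hpW =>
    ((Nat.Prime.coprime_iff_not_dvd hp).2 (hQ p hp hpW)).symm
  have shift : ∀ (b c p N : ℕ), p.Prime → W < p →
      ((Ico c (c + N)).filter fun σ => p ∣ b + Q * σ).card ≤ N / p + 1 := by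
    intro b c p N hp hpW
    have h1 := card_dvd hp (hcopQ p hp hpW) (b + Q * c) N
    refine le_trans ?_ h1
    apply Finset.card_le_card_of_injOn (fun σ => σ - c)
    · intro σ hσ
      obtain ⟨h2, h3⟩ := Finset.mem_filter.1 hσ
      rw [Finset.mem_Ico] at h2
      refine Finset.mem_coe.2 (Finset.mem_filter.2
        ⟨Finset.mem_range.2 (show σ - c < N by omega), ?_⟩)
      have : b + Q * c + Q * (σ - c) = b + Q * σ := by
        obtain ⟨e, rfl⟩ := Nat.exists_eq_add_of_le h2.1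
        rw [Nat.add_sub_cancel_left]
        ring
      rw [this]
      exact h3
    · intro x hx y hy hxy
      have h2 := (Finset.mem_filter.1 hx).1
      have h3 := (Finset.mem_filter.1 hy).1
      rw [Finset.mem_Ico] at h2 h3
      simp only at hxy
      omega
  set F := (Ico τ₀ (τ₀ + Y) ×ˢ Ico σ₀ (σ₀ + S)).filter fun p : ℕ × ℕ =>
      ¬ Nat.Coprime (a + Q * p.2) (1 + Q * p.1) with hF
  have hsub : F ⊆ ((Ioc W X).filter Nat.Prime).biUnion fun q =>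
      ((Ico τ₀ (τ₀ + Y)).filter fun τ => q ∣ 1 + Q * τ) ×ˢ
      ((Ico σ₀ (σ₀ + S)).filter fun σ => q ∣ a + Q * σ) := by
    intro p hp
    obtain ⟨h1, h2⟩ := Finset.mem_filter.1 hp
    obtain ⟨h3, h4⟩ := Finset.mem_product.1 h1
    obtain ⟨q, hq, h5, h6⟩ := Nat.Prime.not_coprime_iff_dvd.1 h2
    have hqW : W < q := by
      by_contra hcon
      push Not at hcon
      have h7 := hQW q hq hcon
      have h8 : q ∣ 1 := (Nat.dvd_add_left (Dvd.dvd.mul_right h7 p.1)).1 h6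
      exact hq.one_lt.ne' (Nat.dvd_one.1 h8)
    refine Finset.mem_biUnion.2 ⟨q, Finset.mem_filter.2 ⟨Finset.mem_Ioc.2 ⟨hqW, ?_⟩, hq⟩, ?_⟩
    · exact (Nat.le_of_dvd (ha _ h4) h5).trans (hX _ h4)
    · exact Finset.mem_product.2 ⟨Finset.mem_filter.2 ⟨h3, h6⟩, Finset.mem_filter.2 ⟨h4, h5⟩⟩
  have h1 : (F.card : ℝ) ≤ ∑ q ∈ Ioc W X, ((Y : ℝ) / q + 1) * (S / q + 1) := by
    have h2 := (Finset.card_le_card hsub).trans Finset.card_biUnion_le
    have h3 : (F.card : ℝ) ≤ ((∑ q ∈ (Ioc W X).filter Nat.Prime,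
      (((Ico τ₀ (τ₀ + Y)).filter fun τ => q ∣ 1 + Q * τ) ×ˢ
      ((Ico σ₀ (σ₀ + S)).filter fun σ => q ∣ a + Q * σ)).card : ℕ) : ℝ) := by exact_mod_cast h2
    refine h3.trans ?_
    push_cast
    calc _ ≤ ∑ q ∈ (Ioc W X).filter Nat.Prime, ((Y : ℝ) / q + 1) * (S / q + 1) := by
          refine Finset.sum_le_sum fun q hq => ?_
          obtain ⟨hq1, hq2⟩ := Finset.mem_filter.1 hq
          have hqW := (Finset.mem_Ioc.1 hq1).1
          rw [Finset.card_product]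
          have b1 := shift 1 τ₀ q Y hq2 hqW
          have b2 := shift a σ₀ q S hq2 hqW
          have b1' : (((Ico τ₀ (τ₀ + Y)).filter fun τ => q ∣ 1 + Q * τ).card : ℝ) ≤
            (Y : ℝ) / q + 1 := by
            have : (((Ico τ₀ (τ₀ + Y)).filter fun τ => q ∣ 1 + Q * τ).card : ℝ) ≤
              ((Y / q : ℕ) : ℝ) + 1 := by exact_mod_cast b1
            have h5 : ((Y / q : ℕ) : ℝ) ≤ (Y : ℝ) / q := Nat.cast_div_le
            linarith
          have b2' : (((Ico σ₀ (σ₀ + S)).filter fun σ => q ∣ a + Q * σ).card : ℝ) ≤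
            (S : ℝ) / q + 1 := by
            have : (((Ico σ₀ (σ₀ + S)).filter fun σ => q ∣ a + Q * σ).card : ℝ) ≤
              ((S / q : ℕ) : ℝ) + 1 := by exact_mod_cast b2
            have h5 : ((S / q : ℕ) : ℝ) ≤ (S : ℝ) / q := Nat.cast_div_le
            linarith
          push_cast
          gcongr
      _ ≤ _ := by
          apply Finset.sum_le_sum_of_subset_of_nonneg (Finset.filter_subset _ _)
          intro _ _ _; positivity
  have h2 : ∑ q ∈ Ioc W X, ((Y : ℝ) / q + 1) * (S / q + 1) =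
      (Y : ℝ) * S * ∑ q ∈ Ioc W X, ((q : ℝ) ^ 2)⁻¹ + ((Y : ℝ) + S) * ∑ q ∈ Ioc W X, (q : ℝ)⁻¹ +
        (X - W : ℕ) := by
    rw [Finset.mul_sum, Finset.mul_sum, ← Finset.sum_add_distrib]
    have : ((X - W : ℕ) : ℝ) = ∑ q ∈ Ioc W X, (1 : ℝ) := by
      rw [Finset.sum_const, Nat.card_Ioc, nsmul_eq_mul, mul_one]
    rw [this, ← Finset.sum_add_distrib]
    refine Finset.sum_congr rfl fun q hq => ?_
    have hq0 : (q : ℝ) ≠ 0 := by
      have := (Finset.mem_Ioc.1 hq).1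
      have : q ≠ 0 := by omega
      exact_mod_cast this
    field_simp
    ring
  have h3 : ∑ q ∈ Ioc W X, ((q : ℝ) ^ 2)⁻¹ ≤ (W : ℝ)⁻¹ := by
    rcases le_or_gt W X with h | h
    · have h3 := sum_Ioc_inv_sq_le_sub (α := ℝ) (k := W) (n := X) (by omega) h
      have h4 : (0 : ℝ) ≤ (X : ℝ)⁻¹ := by positivity
      linarith
    · rw [Finset.Ioc_eq_empty (by omega)]
      simp
  have h4 : ∑ q ∈ Ioc W X, (q : ℝ)⁻¹ ≤ k + X / k := by
    have h5 : ∀ q ∈ Ioc W X, (q : ℝ)⁻¹ ≤ (if q ≤ k then (1 : ℝ) else 0) + (k : ℝ)⁻¹ := by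
      intro q hq
      have hq1 : (1 : ℝ) ≤ q := by
        have := (Finset.mem_Ioc.1 hq).1
        have : 1 ≤ q := by omega
        exact_mod_cast this
      by_cases hqk : q ≤ k
      · rw [if_pos hqk]
        have : (q : ℝ)⁻¹ ≤ 1 := inv_le_one_of_one_le₀ hq1
        have h6 : (0 : ℝ) ≤ (k : ℝ)⁻¹ := by positivity
        linarith
      · rw [if_neg hqk, zero_add]
        apply inv_anti₀ hk'
        push Not at hqk
        exact_mod_cast hqk.le
    refine (Finset.sum_le_sum h5).trans ?_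
    rw [Finset.sum_add_distrib, ← Finset.sum_filter, Finset.sum_const, Finset.sum_const,
      nsmul_eq_mul, nsmul_eq_mul, mul_one, Nat.card_Ioc]
    have h6 : (((Ioc W X).filter fun q => q ≤ k).card : ℝ) ≤ k := by
      have : ((Ioc W X).filter fun q => q ≤ k) ⊆ Ioc 0 k := by
        intro q hq
        obtain ⟨h7, h8⟩ := Finset.mem_filter.1 hq
        rw [Finset.mem_Ioc] at h7 ⊢
        omega
      have := Finset.card_le_card this
      rw [Nat.card_Ioc] at this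
      have h9 : ((Ioc W X).filter fun q => q ≤ k).card ≤ k := by omega
      exact_mod_cast h9
    have h7 : ((X - W : ℕ) : ℝ) ≤ X := by
      have : X - W ≤ X := Nat.sub_le _ _
      exact_mod_cast this
    rw [div_eq_mul_inv]
    have h8 := mul_le_mul_of_nonneg_right h7 (by positivity : (0 : ℝ) ≤ (k : ℝ)⁻¹)
    linarith
  have h5 : ((X - W : ℕ) : ℝ) ≤ X := by
    have : X - W ≤ X := Nat.sub_le _ _
    exact_mod_cast this
  rw [h2] at h1
  have h6 := mul_le_mul_of_nonneg_left h3 (by positivity : (0 : ℝ) ≤ (Y : ℝ) * S)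
  have h7 := mul_le_mul_of_nonneg_left h4 (by positivity : (0 : ℝ) ≤ (Y : ℝ) + S)
  rw [div_eq_mul_inv ((Y : ℝ) * S)]
  linarith

end Pool.Agent.TH562.CN
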