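import Mathlib
import Pool.Agent.TH562.CN.Bad

/-! The proportion of bad pairs in a block. -/

set_option autoImplicit false

namespace Pool.Agent.TH562.CN

open Finset

/-- the pair `(τ, σ)` is good -/
def Good (z Q a W : ℕ) (p : ℕ × ℕ) : Prop :=
  Nat.Coprime (a + Q * p.2) (1 + Q * p.1) ∧ ∀ c : ℤ, (c = 1 ∨ c = -1) → ∀ q : ℕ, q.Prime → W < q →
    ¬ ((q ^ 2 : ℕ) : ℤ) ∣ V z (1 + Q * p.1) c (a + Q * p.2)

open Classical in
theorem bad_row {z W Q a i u : ℕ} {Cd : ℝ} (hz : 1 ≤ z) (hzW : ∀ p : ℕ, p.Prime → p ∣ z → p ≤ W)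
    (h2W : 2 ≤ W) (hQ0 : 0 < Q) (hQW : ∀ p : ℕ, p.Prime → p ≤ W → p ∣ Q)
    (hQ : ∀ p : ℕ, p.Prime → W < p → ¬ p ∣ Q) (ha : a ≤ Q) (ha0 : 0 < a) (hi : 1 ≤ i)
    (hCd : ∀ n : ℕ, 1 ≤ n → (n.divisors.card : ℝ) ≤ Cd * (n : ℝ) ^ ((1 : ℝ) / 10)) (hCd0 : 0 < Cd)
    (hu1 : 6 * z < u) (hu2 : 2 * W ≤ u)
    (hu3 : 16 * (z : ℝ) * Q ^ 3 * (i + 1) ^ 3 * W ^ 3 * Cd ≤ u) {τ : ℕ}
    (hτ : τ ∈ Ico (i * u ^ 5) ((i + 1) * u ^ 5)) :
    (((Ico (u ^ 4) (2 * u ^ 4)).filter fun σ => Nat.Coprime (a + Q * σ) (1 + Q * τ) ∧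
      ∃ c : ℤ, (c = 1 ∨ c = -1) ∧
      ∃ p : ℕ, p.Prime ∧ W < p ∧ ((p ^ 2 : ℕ) : ℤ) ∣ V z (1 + Q * τ) c (a + Q * σ)).card : ℝ) ≤
      9 * (u : ℝ) ^ 4 / W := by
  rw [Finset.mem_Ico] at hτ
  have hu0 : 0 < u := by omega
  have hu4 : u ≤ u ^ 4 := Nat.le_self_pow (by norm_num) u
  set t := 1 + Q * τ with ht
  set P := u ^ 4 / W with hP
  set M := 8 * z * Q ^ 2 * (i + 1) ^ 2 * W ^ 2 * u ^ 2 with hM
  have hW0 : 0 < W := by omega
  -- bounds for t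
  have ht1 : Q * (i * u ^ 5) < t := by
    have := Nat.mul_le_mul_left Q hτ.1
    omega
  have ht2 : t ≤ Q * ((i + 1) * u ^ 5) := by
    have h1 : Q * (τ + 1) ≤ Q * ((i + 1) * u ^ 5) := Nat.mul_le_mul_left Q hτ.2
    have h2 : Q * (τ + 1) = Q * τ + Q := by ring
    omega
  have ht3 : 6 * z * (Q * u ^ 4) < t := by
    have h1 : 6 * z * (Q * u ^ 4) ≤ u * (Q * u ^ 4) := Nat.mul_le_mul_right _ hu1.le
    have h2 : u * (Q * u ^ 4) ≤ Q * (i * u ^ 5) := by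
      have : Q * (i * u ^ 5) = i * (u * (Q * u ^ 4)) := by ring
      rw [this]
      exact Nat.le_mul_of_pos_left _ hi
    omega
  have ht0 : 0 < t := by omega
  have htodd : Odd t := by
    obtain ⟨e, he⟩ := hQW 2 Nat.prime_two h2W
    rw [ht, he]
    exact ⟨e * τ, by ring⟩
  have hshift : (((Ico (u ^ 4) (2 * u ^ 4)).filter fun σ => Nat.Coprime (a + Q * σ) t ∧
      ∃ c : ℤ, (c = 1 ∨ c = -1) ∧
      ∃ p : ℕ, p.Prime ∧ W < p ∧ ((p ^ 2 : ℕ) : ℤ) ∣ V z t c (a + Q * σ)).card) ≤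
      ((range (u ^ 4)).filter fun σ => Nat.Coprime ((a + Q * u ^ 4) + Q * σ) t ∧
      ∃ c : ℤ, (c = 1 ∨ c = -1) ∧
      ∃ p : ℕ, p.Prime ∧ W < p ∧
        ((p ^ 2 : ℕ) : ℤ) ∣ V z t c ((a + Q * u ^ 4) + Q * σ)).card := by
    apply Finset.card_le_card_of_injOn (fun σ => σ - u ^ 4)
    · intro σ hσ
      obtain ⟨h2, h3⟩ := Finset.mem_filter.1 hσ
      rw [Finset.mem_Ico] at h2
      refine Finset.mem_coe.2 (Finset.mem_filter.2
        ⟨Finset.mem_range.2 (show σ - u ^ 4 < u ^ 4 by omega), ?_⟩)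
      have : a + Q * u ^ 4 + Q * (σ - u ^ 4) = a + Q * σ := by
        obtain ⟨e, rfl⟩ := Nat.exists_eq_add_of_le h2.1
        rw [Nat.add_sub_cancel_left]
        ring
      rw [this]
      exact h3
    · intro x hx y hy hxy
      have h2 := (Finset.mem_filter.1 hx).1
      have h3 := (Finset.mem_filter.1 hy).1
      rw [Finset.mem_Ico] at h2 h3
      simp only at hxy
      omega
  have hsle : ∀ σ < u ^ 4, (a + Q * u ^ 4) + Q * σ ≤ 2 * (Q * u ^ 4) := by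
    intro σ hσ
    have h1 : Q * (σ + 1) ≤ Q * u ^ 4 := Nat.mul_le_mul_left Q hσ
    have h2 : Q * (σ + 1) = Q * σ + Q := by ring
    omega
  have hmain := bad_fixed (z := z) (W := W) (t := t) (Q := Q) (a := a + Q * u ^ 4) (N := u ^ 4)
    (P := P) (M := M) (A := 2 * (Q * u ^ 4)) (B := 2 * z * t) hz hzW h2W hQ0 hQ htodd (by
      have h1 : 2 * (Q * u ^ 4) * (2 * z * t) = (4 * z * (Q * u ^ 4)) * t := by ring
      have h2 : 4 * z * (Q * u ^ 4) ≤ 6 * z * (Q * u ^ 4) := by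
        apply Nat.mul_le_mul_right
        omega
      rw [h1, pow_two]
      exact Nat.mul_lt_mul_of_pos_right (by omega) ht0) hsle (by
      intro σ hσ c hc
      have hs := hsle σ hσ
      set s := (a + Q * u ^ 4) + Q * σ with hs'
      have hst : s < t := by
        have : 2 * (Q * u ^ 4) ≤ 6 * z * (Q * u ^ 4) := by
          apply Nat.mul_le_mul_right
          omega
        omega
      have hst2 : (s : ℤ) ^ 2 < t ^ 2 := by
        have : s ^ 2 < t ^ 2 := Nat.pow_lt_pow_left hst two_ne_zero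
        exact_mod_cast this
      have hzt : (t : ℤ) ^ 2 ≤ z * t ^ 2 := by
        have : t ^ 2 ≤ z * t ^ 2 := Nat.le_mul_of_pos_left _ hz
        exact_mod_cast this
      have hVle : V z t c s ≤ 2 * z * t ^ 2 := by
        unfold V
        have h0 : (0 : ℤ) ≤ (s : ℤ) ^ 2 := by positivity
        rcases hc with rfl | rfl <;> linarith
      refine ⟨?_, hVle.trans ?_, hVle.trans ?_⟩
      · unfold V
        have h0 : (0 : ℤ) ≤ (s : ℤ) ^ 2 := by positivity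
        rcases hc with rfl | rfl <;> linarith
      · have h1 : 2 * z * t ^ 2 ≤ M * P ^ 2 := by
          have h2 : t ^ 2 ≤ (Q * ((i + 1) * u ^ 5)) ^ 2 := Nat.pow_le_pow_left ht2 2
          have h3 : u ^ 4 ≤ 2 * (W * P) := by
            have h4 := Nat.div_add_mod (u ^ 4) W
            have h5 := Nat.mod_lt (u ^ 4) hW0
            rw [← hP] at h4
            omega
          have h6 : (u ^ 4) ^ 2 ≤ (2 * (W * P)) ^ 2 := Nat.pow_le_pow_left h3 2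
          calc 2 * z * t ^ 2 ≤ 2 * z * (Q * ((i + 1) * u ^ 5)) ^ 2 := Nat.mul_le_mul_left _ h2
            _ = (2 * z * Q ^ 2 * (i + 1) ^ 2 * u ^ 2) * (u ^ 4) ^ 2 := by ring
            _ ≤ (2 * z * Q ^ 2 * (i + 1) ^ 2 * u ^ 2) * (2 * (W * P)) ^ 2 :=
              Nat.mul_le_mul_left _ h6
            _ = M * P ^ 2 := by rw [hM]; ring
        exact_mod_cast h1
      · have h1 : 2 * z * t ^ 2 ≤ (2 * z * t) ^ 2 := by
          have : (2 * z * t) ^ 2 = (2 * z) * (2 * z * t ^ 2) := by ring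
          rw [this]
          exact Nat.le_mul_of_pos_left _ (by omega)
        exact_mod_cast h1)
  have hfin : (((Ico (u ^ 4) (2 * u ^ 4)).filter fun σ => Nat.Coprime (a + Q * σ) t ∧
      ∃ c : ℤ, (c = 1 ∨ c = -1) ∧
      ∃ p : ℕ, p.Prime ∧ W < p ∧ ((p ^ 2 : ℕ) : ℤ) ∣ V z t c (a + Q * σ)).card : ℝ) ≤
      2 * ((∑ p ∈ (Finset.Ioc W P).filter Nat.Prime, 2 * (u ^ 4 / p ^ 2 + 1) : ℕ) : ℝ) +
      2 * ((M : ℝ) * ((t ^ 2).divisors.card : ℝ)) := by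
    have := hshift.trans hmain
    exact_mod_cast this
  refine hfin.trans ?_
  have hW' : (0 : ℝ) < W := by exact_mod_cast hW0
  have hu' : (0 : ℝ) < u := by exact_mod_cast hu0
  have hQ' : (1 : ℝ) ≤ Q := by exact_mod_cast hQ0
  have hz' : (1 : ℝ) ≤ z := by exact_mod_cast hz
  have s1 := sum_primes_sq W P (u ^ 4) (by omega)
  have s2 : (P : ℝ) ≤ (u : ℝ) ^ 4 / W := by
    have : ((u ^ 4 / W : ℕ) : ℝ) ≤ ((u ^ 4 : ℕ) : ℝ) / W := Nat.cast_div_le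
    rw [← hP] at this
    push_cast at this
    exact this
  have s3 : ((t ^ 2).divisors.card : ℝ) ≤ Cd * (Q * (i + 1) * u) := by
    refine (hCd (t ^ 2) (Nat.one_le_pow _ _ ht0)).trans ?_
    apply mul_le_mul_of_nonneg_left _ hCd0.le
    have h1 : ((t ^ 2 : ℕ) : ℝ) ≤ ((Q : ℝ) * (i + 1) * u) ^ 10 := by
      have h2 : ((t : ℕ) : ℝ) ≤ Q * ((i + 1) * u ^ 5) := by exact_mod_cast ht2
      have hQi : (1 : ℝ) ≤ (Q : ℝ) * (i + 1) := by
        have : (0 : ℝ) ≤ i := Nat.cast_nonneg i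
        nlinarith
      calc ((t ^ 2 : ℕ) : ℝ) = (t : ℝ) ^ 2 := by push_cast; ring
        _ ≤ (Q * ((i + 1) * u ^ 5)) ^ 2 := pow_le_pow_left₀ (by positivity) h2 2
        _ = ((Q : ℝ) * (i + 1)) ^ 2 * (u : ℝ) ^ 10 := by ring
        _ ≤ ((Q : ℝ) * (i + 1)) ^ 10 * (u : ℝ) ^ 10 := by
          apply mul_le_mul_of_nonneg_right _ (by positivity)
          exact pow_le_pow_right₀ hQi (by norm_num)
        _ = _ := by ring
    calc ((t ^ 2 : ℕ) : ℝ) ^ ((1 : ℝ) / 10) ≤ (((Q : ℝ) * (i + 1) * u) ^ 10) ^ ((1 : ℝ) / 10) :=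
          Real.rpow_le_rpow (by positivity) h1 (by norm_num)
      _ = (Q : ℝ) * (i + 1) * u := by
          rw [← Real.rpow_natCast, ← Real.rpow_mul (by positivity)]
          norm_num
  have s4 : 2 * ((M : ℝ) * ((t ^ 2).divisors.card : ℝ)) ≤ (u : ℝ) ^ 4 / W := by
    have h1 : (M : ℝ) = 8 * z * Q ^ 2 * (i + 1) ^ 2 * W ^ 2 * u ^ 2 := by
      rw [hM]; push_cast; ring
    rw [le_div_iff₀ hW']
    calc 2 * ((M : ℝ) * ((t ^ 2).divisors.card : ℝ)) * W ≤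
        2 * ((M : ℝ) * (Cd * (Q * (i + 1) * u))) * W := by gcongr
      _ = (16 * (z : ℝ) * Q ^ 3 * (i + 1) ^ 3 * W ^ 3 * Cd) * u ^ 3 := by rw [h1]; ring
      _ ≤ u * u ^ 3 := mul_le_mul_of_nonneg_right hu3 (by positivity)
      _ = u ^ 4 := by ring
  have e1 : 9 * (u : ℝ) ^ 4 / W = 9 * ((u : ℝ) ^ 4 / W) := by ring
  have e2 : 2 * ((u ^ 4 : ℕ) : ℝ) / W = 2 * ((u : ℝ) ^ 4 / W) := by push_cast; ring
  rw [e2] at s1
  rw [e1]
  linarith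

open Classical in
theorem bad_block {z W Q a i u : ℕ} {Cd : ℝ} (hz : 1 ≤ z)
    (hzW : ∀ p : ℕ, p.Prime → p ∣ z → p ≤ W)
    (h2W : 2 ≤ W) (hQ0 : 0 < Q) (hQW : ∀ p : ℕ, p.Prime → p ≤ W → p ∣ Q)
    (hQ : ∀ p : ℕ, p.Prime → W < p → ¬ p ∣ Q) (ha : a ≤ Q) (ha0 : 0 < a) (hi : 1 ≤ i)
    (hCd : ∀ n : ℕ, 1 ≤ n → (n.divisors.card : ℝ) ≤ Cd * (n : ℝ) ^ ((1 : ℝ) / 10)) (hCd0 : 0 < Cd)
    (hu1 : 6 * z < u) (hu2 : 8 * Q * W ≤ u)
    (hu3 : 16 * (z : ℝ) * Q ^ 3 * (i + 1) ^ 3 * W ^ 3 * Cd ≤ u) :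
    (((Ico (i * u ^ 5) ((i + 1) * u ^ 5) ×ˢ Ico (u ^ 4) (2 * u ^ 4)).filter
      fun p : ℕ × ℕ => ¬ Good z Q a W p).card : ℝ) ≤ 11 / W * (u : ℝ) ^ 9 := by
  have hW0 : 0 < W := by omega
  have hu0 : 0 < u := by omega
  have hu2' : 2 * W ≤ u := by
    have : 2 * W ≤ 8 * Q * W := Nat.mul_le_mul_right _ (by omega)
    omega
  set I := Ico (i * u ^ 5) ((i + 1) * u ^ 5) with hI
  set K := Ico (u ^ 4) (2 * u ^ 4) with hK
  have hI' : I = Ico (i * u ^ 5) (i * u ^ 5 + u ^ 5) := by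
    rw [hI]; congr 1; ring
  have hK' : K = Ico (u ^ 4) (u ^ 4 + u ^ 4) := by
    rw [hK]; congr 1; ring
  set row : ℕ → Finset ℕ := fun τ => K.filter fun σ => Nat.Coprime (a + Q * σ) (1 + Q * τ) ∧
      ∃ c : ℤ, (c = 1 ∨ c = -1) ∧
      ∃ p : ℕ, p.Prime ∧ W < p ∧ ((p ^ 2 : ℕ) : ℤ) ∣ V z (1 + Q * τ) c (a + Q * σ) with hrow
  have hsub : ((I ×ˢ K).filter fun p : ℕ × ℕ => ¬ Good z Q a W p) ⊆
      ((I ×ˢ K).filter fun p : ℕ × ℕ => ¬ Nat.Coprime (a + Q * p.2) (1 + Q * p.1)) ∪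
      I.biUnion fun τ => (row τ).image fun σ => (τ, σ) := by
    intro p hp
    obtain ⟨h1, h2⟩ := Finset.mem_filter.1 hp
    obtain ⟨h3, h4⟩ := Finset.mem_product.1 h1
    by_cases hc : Nat.Coprime (a + Q * p.2) (1 + Q * p.1)
    · refine Finset.mem_union_right _ (Finset.mem_biUnion.2 ⟨p.1, h3, Finset.mem_image.2
        ⟨p.2, Finset.mem_filter.2 ⟨h4, hc, ?_⟩, rfl⟩⟩)
      unfold Good at h2
      push Not at h2
      obtain ⟨c, hc1, q, hq1, hq2, hq3⟩ := h2 hc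
      exact ⟨c, hc1, q, hq1, hq2, hq3⟩
    · exact Finset.mem_union_left _ (Finset.mem_filter.2 ⟨h1, hc⟩)
  have hcard := (Finset.card_le_card hsub).trans (Finset.card_union_le _ _)
  have hc2 : (((I.biUnion fun τ => (row τ).image fun σ => (τ, σ)).card : ℕ) : ℝ) ≤
      (u : ℝ) ^ 5 * (9 * (u : ℝ) ^ 4 / W) := by
    have h1 : (I.biUnion fun τ => (row τ).image fun σ => (τ, σ)).card ≤
        ∑ τ ∈ I, (row τ).card :=
      Finset.card_biUnion_le.trans (Finset.sum_le_sum fun τ _ => Finset.card_image_le)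
    have h2 : (((I.biUnion fun τ => (row τ).image fun σ => (τ, σ)).card : ℕ) : ℝ) ≤
        ∑ τ ∈ I, ((row τ).card : ℝ) := by exact_mod_cast h1
    refine h2.trans ?_
    calc ∑ τ ∈ I, ((row τ).card : ℝ) ≤ ∑ τ ∈ I, (9 * (u : ℝ) ^ 4 / W) :=
          Finset.sum_le_sum fun τ hτ =>
            bad_row hz hzW h2W hQ0 hQW hQ ha ha0 hi hCd hCd0 hu1 hu2' hu3 hτ
      _ = _ := by
          rw [Finset.sum_const, nsmul_eq_mul, hI', Nat.card_Ico]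
          congr 1
          rw [Nat.add_sub_cancel_left]
          push_cast; ring
  have hc1 : (((I ×ˢ K).filter fun p : ℕ × ℕ =>
      ¬ Nat.Coprime (a + Q * p.2) (1 + Q * p.1)).card : ℝ) ≤ 2 * (u : ℝ) ^ 9 / W := by
    have hW' : (0 : ℝ) < W := by exact_mod_cast hW0
    have hu' : (1 : ℝ) ≤ u := by exact_mod_cast hu0
    have hQ' : (1 : ℝ) ≤ Q := by exact_mod_cast hQ0
    rw [hI', hK']
    have hg := card_gcd (Q := Q) (a := a) (W := W) (τ₀ := i * u ^ 5) (σ₀ := u ^ 4) (Y := u ^ 5)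
      (S := u ^ 4) (X := 2 * (Q * u ^ 4)) (by omega) hQW hQ (by
        intro σ hσ
        rw [Finset.mem_Ico] at hσ
        have h1 : Q * (σ + 1) ≤ Q * (u ^ 4 + u ^ 4) := Nat.mul_le_mul_left Q hσ.2
        have h2 : Q * (σ + 1) = Q * σ + Q := by ring
        have h3 : Q * (u ^ 4 + u ^ 4) = 2 * (Q * u ^ 4) := by ring
        omega) (by intro σ _; omega) (u ^ 2) (Nat.one_le_pow _ _ hu0)
    refine hg.trans ?_
    push_cast
    have e1 : 2 * ((Q : ℝ) * u ^ 4) / (u : ℝ) ^ 2 = 2 * Q * u ^ 2 := by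
      field_simp
    rw [e1]
    have e2 : 2 * (u : ℝ) ^ 9 / W = (u : ℝ) ^ 5 * u ^ 4 / W + u ^ 9 / W := by ring
    rw [e2]
    have h3 : ((u : ℝ) ^ 5 + u ^ 4) * (u ^ 2 + 2 * Q * u ^ 2) + 2 * (Q * u ^ 4) ≤ u ^ 9 / W := by
      rw [le_div_iff₀ hW']
      have h4 : (u : ℝ) ^ 4 ≤ u ^ 5 := pow_le_pow_right₀ hu' (by norm_num)
      have h5 : (u : ℝ) ^ 4 ≤ u ^ 7 := pow_le_pow_right₀ hu' (by norm_num)
      have h6 : (u : ℝ) ^ 2 + 2 * Q * u ^ 2 ≤ 3 * (Q * u ^ 2) := by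
        have : (u : ℝ) ^ 2 ≤ Q * u ^ 2 := by
          have : (0 : ℝ) ≤ (u : ℝ) ^ 2 := by positivity
          nlinarith
        linarith
      have h7 : ((u : ℝ) ^ 5 + u ^ 4) * (u ^ 2 + 2 * Q * u ^ 2) + 2 * (Q * u ^ 4) ≤
          8 * (Q * u ^ 7) := by
        calc ((u : ℝ) ^ 5 + u ^ 4) * (u ^ 2 + 2 * Q * u ^ 2) + 2 * (Q * u ^ 4) ≤
            (u ^ 5 + u ^ 5) * (3 * (Q * u ^ 2)) + 2 * (Q * u ^ 7) := by gcongr
          _ = _ := by ring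
      have h8 : 8 * (Q : ℝ) * W ≤ u := by exact_mod_cast hu2
      calc (((u : ℝ) ^ 5 + u ^ 4) * (u ^ 2 + 2 * Q * u ^ 2) + 2 * (Q * u ^ 4)) * W ≤
          (8 * (Q * u ^ 7)) * W := mul_le_mul_of_nonneg_right h7 hW'.le
        _ = (8 * (Q : ℝ) * W) * u ^ 7 := by ring
        _ ≤ u * u ^ 7 := mul_le_mul_of_nonneg_right h8 (by positivity)
        _ = u ^ 8 := by ring
        _ ≤ u ^ 9 := pow_le_pow_right₀ hu' (by norm_num)
    linarith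
  have hcard' : (((I ×ˢ K).filter fun p : ℕ × ℕ => ¬ Good z Q a W p).card : ℝ) ≤
      (((I ×ˢ K).filter fun p : ℕ × ℕ => ¬ Nat.Coprime (a + Q * p.2) (1 + Q * p.1)).card : ℝ) +
      (((I.biUnion fun τ => (row τ).image fun σ => (τ, σ)).card : ℕ) : ℝ) := by
    exact_mod_cast hcard
  have e3 : 11 / (W : ℝ) * (u : ℝ) ^ 9 = 2 * (u : ℝ) ^ 9 / W + (u : ℝ) ^ 5 * (9 * (u : ℝ) ^ 4 / W) := by
    ring
  rw [e3]
  linarith

end Pool.Agent.TH562.CN
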