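import Mathlib

/-! First and second moments of the number of points in windows. -/

set_option autoImplicit false

namespace Pool.Agent.TH562.CN

open Finset

section
variable {ι : Type*}

/-- number of points `n α` with `x ≤ n α < x + H` -/
noncomputable def cnt (A : Finset ι) (n : ι → ℤ) (H : ℕ) (x : ℤ) : ℕ :=
  (A.filter fun α => x ∈ Ioc (n α - H) (n α)).card

theorem cnt_eq (A : Finset ι) (n : ι → ℤ) (H : ℕ) (x : ℤ) :
    (cnt A n H x : ℝ) = ∑ α ∈ A, if x ∈ Ioc (n α - H) (n α) then (1 : ℝ) else 0 := by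
  unfold cnt
  rw [Finset.card_filter]
  push_cast
  rfl

theorem sum_cnt {A : Finset ι} {n : ι → ℤ} {H : ℕ} {J : Finset ℤ}
    (hJ : ∀ α ∈ A, Ioc (n α - H) (n α) ⊆ J) :
    ∑ x ∈ J, (cnt A n H x : ℝ) = A.card * H := by
  simp_rw [cnt_eq]
  rw [Finset.sum_comm]
  have : ∀ α ∈ A, ∑ x ∈ J, (if x ∈ Ioc (n α - H) (n α) then (1 : ℝ) else 0) = H := by
    intro α hα
    rw [← Finset.sum_filter, Finset.sum_const, nsmul_eq_mul, mul_one]
    have : J.filter (fun x => x ∈ Ioc (n α - H) (n α)) = Ioc (n α - H) (n α) := by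
      ext x
      rw [Finset.mem_filter]
      exact ⟨fun h => h.2, fun h => ⟨hJ α hα h, h⟩⟩
    rw [this, Int.card_Ioc]
    simp
  rw [Finset.sum_congr rfl this, Finset.sum_const, nsmul_eq_mul]

theorem card_inter (H : ℕ) (n n' : ℤ) :
    ((Ioc (n - H) n) ∩ (Ioc (n' - H) n')).card = (H - |n - n'|).toNat := by
  rw [Finset.Ioc_inter_Ioc, Int.card_Ioc]
  congr 1
  rcases le_total n n' with h | h
  · rw [abs_of_nonpos (by omega)]
    have e1 : n ⊓ n' = n := min_eq_left h
    have e2 : (n - H) ⊔ (n' - H) = n' - H := max_eq_right (by omega)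
    rw [e1, e2]; ring
  · rw [abs_of_nonneg (by omega)]
    have e1 : n ⊓ n' = n' := min_eq_right h
    have e2 : (n - H) ⊔ (n' - H) = n - H := max_eq_left (by omega)
    rw [e1, e2]; ring

theorem sum_cnt_sq {A : Finset ι} {n : ι → ℤ} {H : ℕ} {J : Finset ℤ}
    (hJ : ∀ α ∈ A, Ioc (n α - H) (n α) ⊆ J) :
    ∑ x ∈ J, (cnt A n H x : ℝ) ^ 2 = ∑ α ∈ A, ∑ β ∈ A, (((H - |n α - n β|).toNat : ℕ) : ℝ) := by
  have h1 : ∀ x ∈ J, (cnt A n H x : ℝ) ^ 2 =
      ∑ α ∈ A, ∑ β ∈ A, if x ∈ Ioc (n α - H) (n α) ∩ Ioc (n β - H) (n β) then (1 : ℝ) else 0 := by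
    intro x _
    rw [cnt_eq, pow_two, Finset.sum_mul_sum]
    refine Finset.sum_congr rfl fun α _ => Finset.sum_congr rfl fun β _ => ?_
    by_cases h1 : x ∈ Ioc (n α - H) (n α) <;> by_cases h2 : x ∈ Ioc (n β - H) (n β)
    · rw [if_pos h1, if_pos h2, if_pos (Finset.mem_inter.2 ⟨h1, h2⟩), mul_one]
    · rw [if_pos h1, if_neg h2, if_neg (fun h => h2 (Finset.mem_inter.1 h).2), mul_zero]
    · rw [if_neg h1, if_neg (fun h => h1 (Finset.mem_inter.1 h).1), zero_mul]
    · rw [if_neg h1, if_neg (fun h => h1 (Finset.mem_inter.1 h).1), zero_mul]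
  rw [Finset.sum_congr rfl h1, Finset.sum_comm]
  refine Finset.sum_congr rfl fun α hα => ?_
  rw [Finset.sum_comm]
  refine Finset.sum_congr rfl fun β _ => ?_
  rw [← card_inter, ← Finset.sum_filter, Finset.sum_const, nsmul_eq_mul, mul_one]
  congr 2
  ext x
  rw [Finset.mem_filter]
  exact ⟨fun h => h.2, fun h => ⟨hJ α hα (Finset.mem_inter.1 h).1, h⟩⟩

/-- Chebyshev's inequality for the exceptional windows -/
theorem cheb [DecidableEq ι] {A B : Finset ι} (hBA : B ⊆ A) {n : ι → ℤ} {H : ℕ} (hH : 0 < H) (hA : 0 < A.card)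
    {J : Finset ℤ} (hJ : ∀ α ∈ A, Ioc (n α - H) (n α) ⊆ J) {ε δ : ℝ}
    (hV : ∑ α ∈ A, ∑ β ∈ A, (((H - |n α - n β|).toNat : ℕ) : ℝ) ≤
      (1 + ε) * ((A.card : ℝ) * H) ^ 2 / J.card)
    (hB : (B.card : ℝ) ≤ δ * A.card) :
    ((J.filter fun x => ¬ ∃ α ∈ A \ B, x ∈ Ioc (n α - H) (n α)).card : ℝ) ≤
      (4 * ε + 2 * δ) * J.card := by
  have hJpos : 0 < J.card := by
    obtain ⟨α, hα⟩ := Finset.card_pos.1 hA
    refine Finset.card_pos.2 ⟨n α, hJ α hα ?_⟩
    rw [Finset.mem_Ioc]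
    constructor
    · have : (0 : ℤ) < H := by exact_mod_cast hH
      omega
    · exact le_rfl
  have hJr : (0 : ℝ) < J.card := by exact_mod_cast hJpos
  have hHr : (0 : ℝ) < H := by exact_mod_cast hH
  have hAr : (0 : ℝ) < A.card := by exact_mod_cast hA
  set m : ℝ := A.card * H / J.card with hm
  have hmpos : 0 < m := by positivity
  have hmJ : m * J.card = A.card * H := by rw [hm]; field_simp
  set E := J.filter fun x => ¬ ∃ α ∈ A \ B, x ∈ Ioc (n α - H) (n α) with hE
  -- second moment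
  have hvar : ∑ x ∈ J, ((cnt A n H x : ℝ) - m) ^ 2 ≤ ε * m ^ 2 * J.card := by
    have h1 : ∑ x ∈ J, ((cnt A n H x : ℝ) - m) ^ 2 =
        ∑ x ∈ J, (cnt A n H x : ℝ) ^ 2 - 2 * m * ∑ x ∈ J, (cnt A n H x : ℝ) + m ^ 2 * J.card := by
      rw [Finset.mul_sum, ← Finset.sum_sub_distrib]
      have : m ^ 2 * (J.card : ℝ) = ∑ x ∈ J, m ^ 2 := by
        rw [Finset.sum_const, nsmul_eq_mul]; ring
      rw [this, ← Finset.sum_add_distrib]
      exact Finset.sum_congr rfl fun x _ => by ring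
    rw [h1, sum_cnt_sq hJ, sum_cnt hJ, ← hmJ]
    have h2 : (1 + ε) * ((A.card : ℝ) * H) ^ 2 / J.card = (1 + ε) * m ^ 2 * J.card := by
      rw [← hmJ]; field_simp
    rw [h2] at hV
    nlinarith [hV]
  have hsplit : E ⊆ (E.filter fun x => (cnt A n H x : ℝ) ≤ m / 2) ∪
      (E.filter fun x => m / 2 < (cnt B n H x : ℝ)) := by
    intro x hx
    rcases le_or_gt (cnt A n H x : ℝ) (m / 2) with h | h
    · exact Finset.mem_union_left _ (Finset.mem_filter.2 ⟨hx, h⟩)
    · refine Finset.mem_union_right _ (Finset.mem_filter.2 ⟨hx, ?_⟩)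
      have hx2 := (Finset.mem_filter.1 hx).2
      have : cnt A n H x ≤ cnt B n H x := by
        unfold cnt
        apply Finset.card_le_card
        intro α hα
        obtain ⟨h1, h2⟩ := Finset.mem_filter.1 hα
        refine Finset.mem_filter.2 ⟨?_, h2⟩
        by_contra h3
        exact hx2 ⟨α, Finset.mem_sdiff.2 ⟨h1, h3⟩, h2⟩
      have : (cnt A n H x : ℝ) ≤ cnt B n H x := by exact_mod_cast this
      linarith
  have hE1 : ((E.filter fun x => (cnt A n H x : ℝ) ≤ m / 2).card : ℝ) ≤ 4 * ε * J.card := by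
    have h1 : ((E.filter fun x => (cnt A n H x : ℝ) ≤ m / 2).card : ℝ) * (m ^ 2 / 4) ≤
        ∑ x ∈ J, ((cnt A n H x : ℝ) - m) ^ 2 := by
      rw [← nsmul_eq_mul, ← Finset.sum_const]
      calc _ ≤ ∑ x ∈ E.filter fun x => (cnt A n H x : ℝ) ≤ m / 2, ((cnt A n H x : ℝ) - m) ^ 2 := by
            refine Finset.sum_le_sum fun x hx => ?_
            have := (Finset.mem_filter.1 hx).2
            nlinarith
        _ ≤ _ := by
            apply Finset.sum_le_sum_of_subset_of_nonneg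
            · exact (Finset.filter_subset _ _).trans (Finset.filter_subset _ _)
            · intro _ _ _; positivity
    have h2 := h1.trans hvar
    have h3 : 0 < m ^ 2 := by positivity
    have h4 : ((E.filter fun x => (cnt A n H x : ℝ) ≤ m / 2).card : ℝ) * m ^ 2 ≤
        (4 * ε * J.card) * m ^ 2 := by nlinarith
    exact le_of_mul_le_mul_right h4 h3
  have hE2 : ((E.filter fun x => m / 2 < (cnt B n H x : ℝ)).card : ℝ) ≤ 2 * δ * J.card := by
    have h1 : ((E.filter fun x => m / 2 < (cnt B n H x : ℝ)).card : ℝ) * (m / 2) ≤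
        ∑ x ∈ J, (cnt B n H x : ℝ) := by
      rw [← nsmul_eq_mul, ← Finset.sum_const]
      calc _ ≤ ∑ x ∈ E.filter fun x => m / 2 < (cnt B n H x : ℝ), (cnt B n H x : ℝ) := by
            refine Finset.sum_le_sum fun x hx => ?_
            exact (Finset.mem_filter.1 hx).2.le
        _ ≤ _ := by
            apply Finset.sum_le_sum_of_subset_of_nonneg
            · exact (Finset.filter_subset _ _).trans (Finset.filter_subset _ _)
            · intro _ _ _; positivity
    rw [sum_cnt fun α hα => hJ α (hBA hα)] at h1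
    have h2 : (B.card : ℝ) * H ≤ δ * (m * J.card) := by
      rw [hmJ]
      calc (B.card : ℝ) * H ≤ (δ * A.card) * H := mul_le_mul_of_nonneg_right hB hHr.le
        _ = δ * (A.card * H) := by ring
    have h4 : ((E.filter fun x => m / 2 < (cnt B n H x : ℝ)).card : ℝ) * m ≤
        (2 * δ * J.card) * m := by nlinarith
    exact le_of_mul_le_mul_right h4 hmpos
  have hcard : (E.card : ℝ) ≤ ((E.filter fun x => (cnt A n H x : ℝ) ≤ m / 2).card : ℝ) +
      ((E.filter fun x => m / 2 < (cnt B n H x : ℝ)).card : ℝ) := by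
    have h1 := (Finset.card_le_card hsplit).trans (Finset.card_union_le _ _)
    exact_mod_cast h1
  linarith

end

/-- `∑ max (0, H - Δ k)` -/
theorem sum_tail {H Δ : ℝ} (hH : 0 ≤ H) (hΔ : 0 < Δ) (K : ℕ) :
    ∑ k ∈ range K, max 0 (H - Δ * k) ≤ H + H ^ 2 / (2 * Δ) := by
  have key : ∀ y : ℝ, max 0 y ≤ (max 0 (y + Δ)) ^ 2 / (2 * Δ) - (max 0 y) ^ 2 / (2 * Δ) := by
    intro y
    rw [← sub_div, le_div_iff₀ (by positivity)]
    rcases le_or_gt 0 y with h | h
    · rw [max_eq_right h, max_eq_right (by linarith)]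
      nlinarith
    · rw [max_eq_left h.le]
      simp only [zero_mul, ne_eq, OfNat.ofNat_ne_zero, not_false_eq_true, zero_pow, sub_zero]
      positivity
  have ind : ∀ K : ℕ, ∑ k ∈ range K, max 0 (H - Δ * (k + 1 : ℕ)) ≤
      H ^ 2 / (2 * Δ) - (max 0 (H - Δ * K)) ^ 2 / (2 * Δ) := by
    intro K
    induction K with
    | zero => simp [max_eq_right hH]
    | succ K ih =>
      rw [Finset.sum_range_succ]
      have := key (H - Δ * (K + 1 : ℕ))
      have e : H - Δ * (K + 1 : ℕ) + Δ = H - Δ * K := by push_cast; ring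
      rw [e] at this
      linarith
  rcases K with _ | K
  · simp; positivity
  · rw [Finset.sum_range_succ']
    have h1 := ind K
    have h2 : (0 : ℝ) ≤ (max 0 (H - Δ * K)) ^ 2 / (2 * Δ) := by positivity
    have h3 : max 0 (H - Δ * ((0 : ℕ) : ℝ)) = H := by simp [hH]
    rw [h3]
    linarith

/-- the sum of the tent function over a well spaced sequence -/
theorem sum_tent {H Δ D : ℝ} (hH : 0 ≤ H) (hΔ : 0 < Δ) (I : Finset ℕ) (g : ℕ → ℝ)
    (hg : ∀ a ∈ I, ∀ b ∈ I, a ≤ b → Δ * ((b : ℝ) - a) ≤ g b - g a) :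
    ∑ τ ∈ I, max 0 (H - |g τ - D|) ≤ 2 * H + H ^ 2 / Δ := by
  classical
  have half : ∀ (I' : Finset ℕ) (φ : ℕ → ℕ), Set.InjOn φ I' →
      (∀ τ ∈ I', Δ * φ τ ≤ |g τ - D|) → ∑ τ ∈ I', max 0 (H - |g τ - D|) ≤ H + H ^ 2 / (2 * Δ) := by
    intro I' φ hφ hb
    obtain ⟨K, hK⟩ : ∃ K : ℕ, ∀ τ ∈ I', φ τ < K := by
      refine ⟨I'.sup φ + 1, fun τ hτ => ?_⟩
      have := Finset.le_sup (f := φ) hτ
      omega
    calc ∑ τ ∈ I', max 0 (H - |g τ - D|) ≤ ∑ τ ∈ I', max 0 (H - Δ * φ τ) := by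
          refine Finset.sum_le_sum fun τ hτ => max_le_max le_rfl ?_
          have := hb τ hτ
          linarith
      _ = ∑ k ∈ I'.image φ, max 0 (H - Δ * k) := by
          rw [Finset.sum_image hφ]
      _ ≤ ∑ k ∈ range K, max 0 (H - Δ * k) := by
          apply Finset.sum_le_sum_of_subset_of_nonneg
          · intro k hk
            obtain ⟨τ, hτ, rfl⟩ := Finset.mem_image.1 hk
            exact Finset.mem_range.2 (hK τ hτ)
          · intro _ _ _; exact le_max_left _ _
      _ ≤ _ := sum_tail hH hΔ K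
  set I1 := I.filter fun τ => D ≤ g τ with hI1
  set I2 := I.filter fun τ => ¬ D ≤ g τ with hI2
  have hs : ∑ τ ∈ I, max 0 (H - |g τ - D|) =
      ∑ τ ∈ I1, max 0 (H - |g τ - D|) + ∑ τ ∈ I2, max 0 (H - |g τ - D|) :=
    (Finset.sum_filter_add_sum_filter_not _ _ _).symm
  have b1 : ∑ τ ∈ I1, max 0 (H - |g τ - D|) ≤ H + H ^ 2 / (2 * Δ) := by
    rcases I1.eq_empty_or_nonempty with he | hne
    · rw [he, Finset.sum_empty]; positivity
    · refine half I1 (fun τ => τ - I1.min' hne) ?_ ?_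
      · intro x hx y hy hxy
        have h1 := Finset.min'_le I1 x hx
        have h2 := Finset.min'_le I1 y hy
        simp only at hxy
        omega
      · intro τ hτ
        have h1 := Finset.min'_le I1 τ hτ
        have h2 := Finset.min'_mem I1 hne
        have h3 := (Finset.mem_filter.1 h2).2
        have h4 := hg _ (Finset.mem_filter.1 h2).1 τ (Finset.mem_filter.1 hτ).1 h1
        have h5 := (Finset.mem_filter.1 hτ).2
        rw [abs_of_nonneg (by linarith), Nat.cast_sub h1]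
        linarith
  have b2 : ∑ τ ∈ I2, max 0 (H - |g τ - D|) ≤ H + H ^ 2 / (2 * Δ) := by
    rcases I2.eq_empty_or_nonempty with he | hne
    · rw [he, Finset.sum_empty]; positivity
    · refine half I2 (fun τ => I2.max' hne - τ) ?_ ?_
      · intro x hx y hy hxy
        have h1 := Finset.le_max' I2 x hx
        have h2 := Finset.le_max' I2 y hy
        simp only at hxy
        omega
      · intro τ hτ
        have h1 := Finset.le_max' I2 τ hτ
        have h2 := Finset.max'_mem I2 hne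
        have h3 := (Finset.mem_filter.1 h2).2
        have h4 := hg τ (Finset.mem_filter.1 hτ).1 _ (Finset.mem_filter.1 h2).1 h1
        have h5 := (Finset.mem_filter.1 hτ).2
        push Not at h3 h5
        rw [abs_of_nonpos (by linarith), Nat.cast_sub h1]
        linarith
  rw [hs]
  have : H ^ 2 / Δ = H ^ 2 / (2 * Δ) + H ^ 2 / (2 * Δ) := by field_simp; norm_num
  linarith

end Pool.Agent.TH562.CN
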