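import Mathlib
import Pool.Agent.TH562.CN.Moment

/-! Pairs of points with close values. -/

set_option autoImplicit false

namespace Pool.Agent.TH562.CN

open Finset

noncomputable def gg (z Q τ : ℕ) : ℝ := (z : ℝ) ^ 3 * (1 + Q * τ) ^ 4

noncomputable def ff (z Q a σ : ℕ) : ℝ := (z : ℝ) * (a + Q * σ) ^ 4

theorem gg_lower {z Q i Y τ h : ℕ} (hτ : i * Y ≤ τ) :
    4 * ((z : ℝ) ^ 3 * Q ^ 4) * Y ^ 3 * i ^ 3 * h ≤ gg z Q (τ + h) - gg z Q τ := by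
  unfold gg
  have h1 : (i : ℝ) * Y ≤ τ := by exact_mod_cast hτ
  have h2 : (Q : ℝ) * (i * Y) ≤ 1 + Q * τ := by
    have := mul_le_mul_of_nonneg_left h1 (Nat.cast_nonneg (α := ℝ) Q)
    linarith
  set t : ℝ := 1 + Q * τ with ht
  have h3 : ((Q : ℝ) * (i * Y)) ^ 3 ≤ t ^ 3 := pow_le_pow_left₀ (by positivity) h2 3
  have ht0 : 0 ≤ t := by rw [ht]; positivity
  set q : ℝ := Q * h with hq
  have hq0 : 0 ≤ q := by rw [hq]; positivity
  have h4 : (1 + (Q : ℝ) * ((τ + h : ℕ) : ℝ)) = t + q := by rw [ht, hq]; push_cast; ring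
  rw [h4]
  have h5 : 4 * t ^ 3 * q ≤ (t + q) ^ 4 - t ^ 4 := by
    have : (t + q) ^ 4 - t ^ 4 - 4 * t ^ 3 * q = 6 * t ^ 2 * q ^ 2 + 4 * t * q ^ 3 + q ^ 4 := by ring
    have h6 : 0 ≤ 6 * t ^ 2 * q ^ 2 + 4 * t * q ^ 3 + q ^ 4 := by positivity
    linarith
  have h6 : 4 * ((Q : ℝ) * (i * Y)) ^ 3 * q ≤ 4 * t ^ 3 * q := by
    have := mul_le_mul_of_nonneg_right h3 hq0
    linarith
  calc 4 * ((z : ℝ) ^ 3 * Q ^ 4) * Y ^ 3 * i ^ 3 * h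
      = (z : ℝ) ^ 3 * (4 * ((Q : ℝ) * (i * Y)) ^ 3 * q) := by rw [hq]; ring
    _ ≤ (z : ℝ) ^ 3 * ((t + q) ^ 4 - t ^ 4) :=
        mul_le_mul_of_nonneg_left (h6.trans h5) (by positivity)
    _ = _ := by ring

theorem gg_upper {z Q i Y τ h : ℕ} (hQ : 1 ≤ Q) (hτ : τ + h < (i + 1) * Y) :
    gg z Q (τ + h) - gg z Q τ ≤ 4 * ((z : ℝ) ^ 3 * Q ^ 4) * Y ^ 3 * (i + 1) ^ 3 * h := by
  unfold gg
  have h1 : ((τ : ℝ) + h) + 1 ≤ (i + 1) * Y := by exact_mod_cast hτ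
  have hQ' : (1 : ℝ) ≤ Q := by exact_mod_cast hQ
  have h2 : 1 + (Q : ℝ) * (τ + h) ≤ Q * ((i + 1) * Y) := by
    have := mul_le_mul_of_nonneg_left h1 (Nat.cast_nonneg (α := ℝ) Q)
    linarith
  set t : ℝ := 1 + Q * τ with ht
  have ht0 : 0 ≤ t := by rw [ht]; positivity
  set q : ℝ := Q * h with hq
  have hq0 : 0 ≤ q := by rw [hq]; positivity
  have h4 : (1 + (Q : ℝ) * ((τ + h : ℕ) : ℝ)) = t + q := by rw [ht, hq]; push_cast; ring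
  have h4' : (1 + (Q : ℝ) * (τ + h)) = t + q := by rw [ht, hq]; ring
  rw [h4]
  rw [h4'] at h2
  have h3 : (t + q) ^ 3 ≤ (Q * ((i + 1) * Y)) ^ 3 := pow_le_pow_left₀ (by positivity) h2 3
  have h5 : (t + q) ^ 4 - t ^ 4 ≤ 4 * (t + q) ^ 3 * q := by
    have : 4 * (t + q) ^ 3 * q - ((t + q) ^ 4 - t ^ 4) =
      6 * t ^ 2 * q ^ 2 + 8 * t * q ^ 3 + 3 * q ^ 4 := by ring
    have h6 : 0 ≤ 6 * t ^ 2 * q ^ 2 + 8 * t * q ^ 3 + 3 * q ^ 4 := by positivity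
    linarith
  have h6 : 4 * (t + q) ^ 3 * q ≤ 4 * (Q * ((i + 1) * Y)) ^ 3 * q := by
    have := mul_le_mul_of_nonneg_right h3 hq0
    linarith
  calc (z : ℝ) ^ 3 * (t + q) ^ 4 - (z : ℝ) ^ 3 * t ^ 4
      = (z : ℝ) ^ 3 * ((t + q) ^ 4 - t ^ 4) := by ring
    _ ≤ (z : ℝ) ^ 3 * (4 * (Q * ((i + 1) * Y)) ^ 3 * q) :=
        mul_le_mul_of_nonneg_left (h5.trans h6) (by positivity)
    _ = _ := by rw [hq]; ring

theorem gg_step {z Q i Y τ τ' h : ℕ} (hτ : i * Y ≤ τ) (hττ : τ ≤ τ') :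
    12 * ((z : ℝ) ^ 3 * Q ^ 4) * Y ^ 2 * i ^ 2 * h * (τ' - τ) ≤
      (gg z Q (τ' + h) - gg z Q τ') - (gg z Q (τ + h) - gg z Q τ) := by
  obtain ⟨k, rfl⟩ := Nat.exists_eq_add_of_le hττ
  unfold gg
  have h1 : (i : ℝ) * Y ≤ τ := by exact_mod_cast hτ
  have h2 : (Q : ℝ) * (i * Y) ≤ 1 + Q * τ := by
    have := mul_le_mul_of_nonneg_left h1 (Nat.cast_nonneg (α := ℝ) Q)
    linarith
  set t : ℝ := 1 + Q * τ with ht
  have h3 : ((Q : ℝ) * (i * Y)) ^ 2 ≤ t ^ 2 := pow_le_pow_left₀ (by positivity) h2 2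
  have ht0 : 0 ≤ t := by rw [ht]; positivity
  set q : ℝ := Q * h with hq
  have hq0 : 0 ≤ q := by rw [hq]; positivity
  set p : ℝ := Q * k with hp
  have hp0 : 0 ≤ p := by rw [hp]; positivity
  have e1 : (1 + (Q : ℝ) * ((τ + k + h : ℕ) : ℝ)) = t + p + q := by
    rw [ht, hq, hp]; push_cast; ring
  have e2 : (1 + (Q : ℝ) * ((τ + k : ℕ) : ℝ)) = t + p := by rw [ht, hp]; push_cast; ring
  have e3 : (1 + (Q : ℝ) * ((τ + h : ℕ) : ℝ)) = t + q := by rw [ht, hq]; push_cast; ring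
  rw [e1, e2, e3]
  have h5 : 12 * t ^ 2 * (p * q) ≤ (t + p + q) ^ 4 - (t + p) ^ 4 - ((t + q) ^ 4 - t ^ 4) := by
    have : (t + p + q) ^ 4 - (t + p) ^ 4 - ((t + q) ^ 4 - t ^ 4) - 12 * t ^ 2 * (p * q) =
      12 * t * p ^ 2 * q + 12 * t * p * q ^ 2 + 4 * p ^ 3 * q + 6 * p ^ 2 * q ^ 2 +
        4 * p * q ^ 3 := by ring
    have h6 : 0 ≤ 12 * t * p ^ 2 * q + 12 * t * p * q ^ 2 + 4 * p ^ 3 * q + 6 * p ^ 2 * q ^ 2 +
        4 * p * q ^ 3 := by positivity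
    linarith
  have h6 : 12 * ((Q : ℝ) * (i * Y)) ^ 2 * (p * q) ≤ 12 * t ^ 2 * (p * q) := by
    have := mul_le_mul_of_nonneg_right h3 (mul_nonneg hp0 hq0)
    linarith
  calc 12 * ((z : ℝ) ^ 3 * Q ^ 4) * Y ^ 2 * i ^ 2 * h * (((τ + k : ℕ) : ℝ) - τ)
      = (z : ℝ) ^ 3 * (12 * ((Q : ℝ) * (i * Y)) ^ 2 * (p * q)) := by
        rw [hq, hp]; push_cast; ring
    _ ≤ (z : ℝ) ^ 3 * ((t + p + q) ^ 4 - (t + p) ^ 4 - ((t + q) ^ 4 - t ^ 4)) :=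
        mul_le_mul_of_nonneg_left (h6.trans h5) (by positivity)
    _ = _ := by ring

/-- lower bound for the differences of `ff` -/
theorem ff_lower {z Q a S σ σ' : ℕ} (hS : S ≤ σ) (h : σ ≤ σ') :
    4 * ((z : ℝ) * Q ^ 4) * S ^ 3 * (σ' - σ) ≤ ff z Q a σ' - ff z Q a σ := by
  obtain ⟨k, rfl⟩ := Nat.exists_eq_add_of_le h
  unfold ff
  have h1 : (S : ℝ) ≤ σ := by exact_mod_cast hS
  have h2 : (Q : ℝ) * S ≤ a + Q * σ := by
    have := mul_le_mul_of_nonneg_left h1 (Nat.cast_nonneg (α := ℝ) Q)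
    have h0 : (0 : ℝ) ≤ a := Nat.cast_nonneg a
    linarith
  set t : ℝ := a + Q * σ with ht
  have h3 : ((Q : ℝ) * S) ^ 3 ≤ t ^ 3 := pow_le_pow_left₀ (by positivity) h2 3
  have ht0 : 0 ≤ t := by rw [ht]; positivity
  set q : ℝ := Q * k with hq
  have hq0 : 0 ≤ q := by rw [hq]; positivity
  have h4 : ((a : ℝ) + (Q : ℝ) * ((σ + k : ℕ) : ℝ)) = t + q := by rw [ht, hq]; push_cast; ring
  rw [h4]
  have h5 : 4 * t ^ 3 * q ≤ (t + q) ^ 4 - t ^ 4 := by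
    have : (t + q) ^ 4 - t ^ 4 - 4 * t ^ 3 * q = 6 * t ^ 2 * q ^ 2 + 4 * t * q ^ 3 + q ^ 4 := by ring
    have h6 : 0 ≤ 6 * t ^ 2 * q ^ 2 + 4 * t * q ^ 3 + q ^ 4 := by positivity
    linarith
  have h6 : 4 * ((Q : ℝ) * S) ^ 3 * q ≤ 4 * t ^ 3 * q := by
    have := mul_le_mul_of_nonneg_right h3 hq0
    linarith
  calc 4 * ((z : ℝ) * Q ^ 4) * S ^ 3 * (((σ + k : ℕ) : ℝ) - σ)
      = (z : ℝ) * (4 * ((Q : ℝ) * S) ^ 3 * q) := by rw [hq]; push_cast; ring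
    _ ≤ (z : ℝ) * ((t + q) ^ 4 - t ^ 4) :=
        mul_le_mul_of_nonneg_left (h6.trans h5) (by positivity)
    _ = _ := by ring

theorem ff_upper {z Q a S σ : ℕ} (ha : a ≤ Q) (h : σ < 2 * S) :
    ff z Q a σ ≤ 16 * ((z : ℝ) * Q ^ 4) * S ^ 4 := by
  unfold ff
  have h1 : (σ : ℝ) + 1 ≤ 2 * S := by exact_mod_cast h
  have h0 : (a : ℝ) ≤ Q := by exact_mod_cast ha
  have h2 : (a : ℝ) + Q * σ ≤ Q * (2 * S) := by
    have := mul_le_mul_of_nonneg_left h1 (Nat.cast_nonneg (α := ℝ) Q)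
    linarith
  calc (z : ℝ) * (a + Q * σ) ^ 4 ≤ z * (Q * (2 * S)) ^ 4 :=
        mul_le_mul_of_nonneg_left (pow_le_pow_left₀ (by positivity) h2 4) (by positivity)
    _ = _ := by ring

theorem ff_nonneg (z Q a σ : ℕ) : 0 ≤ ff z Q a σ := by unfold ff; positivity

/-- the weighted number of pairs `τ < τ'` of the block with `gg τ' - gg τ` close to `D` -/
noncomputable def FF (z Q i Y : ℕ) (H D : ℝ) : ℝ :=
  ∑ τ ∈ Ico (i * Y) ((i + 1) * Y), ∑ τ' ∈ Ico (i * Y) ((i + 1) * Y),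
    if τ < τ' then max 0 (H - |gg z Q τ' - gg z Q τ - D|) else 0

theorem FF_eq (z Q i Y : ℕ) (H D : ℝ) : FF z Q i Y H D =
    ∑ h ∈ Ico 1 Y, ∑ τ ∈ (Ico (i * Y) ((i + 1) * Y)).filter fun τ => τ + h < (i + 1) * Y,
      max 0 (H - |gg z Q (τ + h) - gg z Q τ - D|) := by
  classical
  unfold FF
  rw [← Finset.sum_product', ← Finset.sum_filter]
  set P := (Ico (i * Y) ((i + 1) * Y) ×ˢ Ico (i * Y) ((i + 1) * Y)).filter
    (fun p : ℕ × ℕ => p.1 < p.2) with hP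
  have hmap : ∀ p ∈ P, p.2 - p.1 ∈ Ico 1 Y := by
    intro p hp
    obtain ⟨h1, h2⟩ := Finset.mem_filter.1 hp
    obtain ⟨h3, h4⟩ := Finset.mem_product.1 h1
    rw [Finset.mem_Ico] at h3 h4 ⊢
    have e : (i + 1) * Y = i * Y + Y := by ring
    omega
  rw [← Finset.sum_fiberwise_of_maps_to hmap]
  refine Finset.sum_congr rfl fun h hh => ?_
  rw [Finset.mem_Ico] at hh
  refine Finset.sum_nbij' (fun p => p.1) (fun τ => (τ, τ + h)) ?_ ?_ ?_ ?_ ?_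
  · intro p hp
    obtain ⟨hp1, hp2⟩ := Finset.mem_filter.1 hp
    obtain ⟨h1, h2⟩ := Finset.mem_filter.1 hp1
    obtain ⟨h3, h4⟩ := Finset.mem_product.1 h1
    refine Finset.mem_filter.2 ⟨h3, ?_⟩
    rw [Finset.mem_Ico] at h3 h4
    omega
  · intro τ hτ
    obtain ⟨h1, h2⟩ := Finset.mem_filter.1 hτ
    rw [Finset.mem_Ico] at h1
    refine Finset.mem_filter.2 ⟨Finset.mem_filter.2 ⟨Finset.mem_product.2 ⟨?_, ?_⟩, ?_⟩, ?_⟩
    · rw [Finset.mem_Ico]; omega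
    · rw [Finset.mem_Ico]; simp only; omega
    · simp only; omega
    · simp only; omega
  · intro p hp
    obtain ⟨hp1, hp2⟩ := Finset.mem_filter.1 hp
    obtain ⟨h1, h2⟩ := Finset.mem_filter.1 hp1
    ext
    · rfl
    · simp only; omega
  · intro τ hτ
    rfl
  · intro p hp
    obtain ⟨hp1, hp2⟩ := Finset.mem_filter.1 hp
    obtain ⟨h1, h2⟩ := Finset.mem_filter.1 hp1
    have : p.1 + h = p.2 := by omega
    rw [this]

theorem FF_nonneg (z Q i Y : ℕ) (H D : ℝ) : 0 ≤ FF z Q i Y H D := by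
  unfold FF
  refine Finset.sum_nonneg fun _ _ => Finset.sum_nonneg fun _ _ => ?_
  split_ifs
  · exact le_max_left _ _
  · exact le_rfl

theorem FF_zero {z Q i Y : ℕ} {H D : ℝ} 
    (h : D + H < 4 * ((z : ℝ) ^ 3 * Q ^ 4) * Y ^ 3 * i ^ 3) : FF z Q i Y H D = 0 := by
  rw [FF_eq]
  refine Finset.sum_eq_zero fun k hk => Finset.sum_eq_zero fun τ hτ => ?_
  rw [Finset.mem_Ico] at hk
  have h1 := (Finset.mem_Ico.1 (Finset.mem_filter.1 hτ).1).1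
  have h2 := gg_lower (z := z) (Q := Q) (h := k) h1
  have h3 : (1 : ℝ) ≤ k := by exact_mod_cast hk.1
  have h4 : 4 * ((z : ℝ) ^ 3 * Q ^ 4) * Y ^ 3 * i ^ 3 ≤
      4 * ((z : ℝ) ^ 3 * Q ^ 4) * Y ^ 3 * i ^ 3 * k := by
    have : (0 : ℝ) ≤ 4 * ((z : ℝ) ^ 3 * Q ^ 4) * Y ^ 3 * i ^ 3 := by positivity
    nlinarith
  apply max_eq_left
  have h5 := le_abs_self (gg z Q (τ + k) - gg z Q τ - D)
  linarith

/-- the number of integers in a real interval -/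
theorem card_int_le {x y : ℝ} (hx : 0 ≤ x) (hxy : x ≤ y + 1) (K : Finset ℕ)
    (hK : ∀ k ∈ K, x ≤ k ∧ (k : ℝ) ≤ y) : (K.card : ℝ) ≤ y - x + 1 := by
  rcases K.eq_empty_or_nonempty with h | h
  · rw [h]; simp; linarith
  · have h1 : K ⊆ Icc (K.min' h) (K.max' h) := by
      intro k hk
      rw [Finset.mem_Icc]
      exact ⟨Finset.min'_le _ _ hk, Finset.le_max' _ _ hk⟩
    have h2 := Finset.card_le_card h1
    rw [Nat.card_Icc] at h2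
    have h3 := (hK _ (Finset.min'_mem K h)).1
    have h4 := (hK _ (Finset.max'_mem K h)).2
    have h5 := Finset.min'_le K _ (Finset.max'_mem K h)
    have h6 : K.card + K.min' h ≤ K.max' h + 1 := by omega
    have h7 : (K.card : ℝ) + K.min' h ≤ K.max' h + 1 := by exact_mod_cast h6
    linarith

theorem FF_bound {z Q i Y : ℕ} {H D : ℝ} (hz : 1 ≤ z) (hQ : 1 ≤ Q) (hi : 1 ≤ i) (hY : 1 ≤ Y)
    (hH : 0 ≤ H) (hD : H < D) :
    FF z Q i Y H D ≤ ((D + H) / (4 * ((z : ℝ) ^ 3 * Q ^ 4) * Y ^ 3 * i ^ 3) -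
      (D - H) / (4 * ((z : ℝ) ^ 3 * Q ^ 4) * Y ^ 3 * (i + 1) ^ 3) + 1) *
      (2 * H + H ^ 2 * Y * (i + 1) ^ 3 / (3 * i ^ 2 * (D - H))) := by
  classical
  have hz' : (1 : ℝ) ≤ z := by exact_mod_cast hz
  have hQ' : (1 : ℝ) ≤ Q := by exact_mod_cast hQ
  have hi' : (1 : ℝ) ≤ i := by exact_mod_cast hi
  have hY' : (1 : ℝ) ≤ Y := by exact_mod_cast hY
  set κ : ℝ := 4 * ((z : ℝ) ^ 3 * Q ^ 4) * Y ^ 3 with hκ
  have hκ0 : 0 < κ := by rw [hκ]; positivity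
  set x := (D - H) / (κ * (i + 1) ^ 3) with hx
  set y := (D + H) / (κ * i ^ 3) with hy
  have hDH : 0 < D - H := by linarith
  have hx0 : 0 < x := by rw [hx]; positivity
  have hxy : x ≤ y := by
    rw [hx, hy]
    apply div_le_div₀ (by linarith) (by linarith) (by positivity)
    apply mul_le_mul_of_nonneg_left _ hκ0.le
    exact pow_le_pow_left₀ (by positivity) (by linarith) 3
  rw [FF_eq]
  set K := (Ico 1 Y).filter fun h : ℕ => x ≤ h ∧ (h : ℝ) ≤ y with hK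
  set S : ℕ → ℝ := fun h => ∑ τ ∈ (Ico (i * Y) ((i + 1) * Y)).filter
    fun τ => τ + h < (i + 1) * Y, max 0 (H - |gg z Q (τ + h) - gg z Q τ - D|) with hS
  have hbound : 0 ≤ 2 * H + H ^ 2 * Y * (i + 1) ^ 3 / (3 * i ^ 2 * (D - H)) := by positivity
  have h1 : ∑ h ∈ Ico 1 Y, S h = ∑ h ∈ K, S h := by
    symm
    apply Finset.sum_subset (Finset.filter_subset _ _)
    intro h hh hnot
    refine Finset.sum_eq_zero fun τ hτ => ?_
    obtain ⟨hτ1, hτ2⟩ := Finset.mem_filter.1 hτ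
    have hτ3 := (Finset.mem_Ico.1 hτ1).1
    by_contra hne
    have hpos : |gg z Q (τ + h) - gg z Q τ - D| < H := by
      by_contra hcon
      push Not at hcon
      exact hne (max_eq_left (by linarith))
    rw [abs_lt] at hpos
    have l1 := gg_lower (z := z) (Q := Q) (h := h) hτ3
    have l2 := gg_upper (z := z) hQ hτ2
    apply hnot
    refine Finset.mem_filter.2 ⟨hh, ?_, ?_⟩
    · rw [hx, div_le_iff₀ (by positivity)]
      have : (h : ℝ) * (κ * (i + 1) ^ 3) = κ * (i + 1) ^ 3 * h := by ring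
      rw [this]
      linarith [hpos.1]
    · rw [hy, le_div_iff₀ (by positivity)]
      have : (h : ℝ) * (κ * i ^ 3) = κ * i ^ 3 * h := by ring
      rw [this]
      linarith [hpos.2]
  have h2 : ∀ h ∈ K, S h ≤ 2 * H + H ^ 2 * Y * (i + 1) ^ 3 / (3 * i ^ 2 * (D - H)) := by
    intro h hh
    obtain ⟨hh1, hh2, hh3⟩ := Finset.mem_filter.1 hh
    have hhpos : (1 : ℝ) ≤ h := by exact_mod_cast (Finset.mem_Ico.1 hh1).1
    set Δ : ℝ := 12 * ((z : ℝ) ^ 3 * Q ^ 4) * Y ^ 2 * i ^ 2 * h with hΔ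
    have hΔ0 : 0 < Δ := by rw [hΔ]; positivity
    have h3 : S h ≤ 2 * H + H ^ 2 / Δ := by
      refine sum_tent hH hΔ0 _ (fun τ => gg z Q (τ + h) - gg z Q τ) ?_
      intro b hb c hc hbc
      exact gg_step (Finset.mem_Ico.1 (Finset.mem_filter.1 hb).1).1 hbc
    refine h3.trans (add_le_add le_rfl ?_)
    rw [div_le_div_iff₀ hΔ0 (by positivity)]
    have h4 : D - H ≤ κ * (i + 1) ^ 3 * h := by
      rw [hx, div_le_iff₀ (by positivity)] at hh2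
      linarith
    calc H ^ 2 * (3 * i ^ 2 * (D - H)) ≤ H ^ 2 * (3 * i ^ 2 * (κ * (i + 1) ^ 3 * h)) := by
          gcongr
      _ = H ^ 2 * Y * (i + 1) ^ 3 * Δ := by rw [hΔ, hκ]; ring
  calc ∑ h ∈ Ico 1 Y, S h = ∑ h ∈ K, S h := h1
    _ ≤ ∑ h ∈ K, (2 * H + H ^ 2 * Y * (i + 1) ^ 3 / (3 * i ^ 2 * (D - H))) :=
        Finset.sum_le_sum h2
    _ = K.card * (2 * H + H ^ 2 * Y * (i + 1) ^ 3 / (3 * i ^ 2 * (D - H))) := by
        rw [Finset.sum_const, nsmul_eq_mul]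
    _ ≤ _ := by
        apply mul_le_mul_of_nonneg_right _ hbound
        exact card_int_le hx0.le (by linarith) K fun k hk => (Finset.mem_filter.1 hk).2

end Pool.Agent.TH562.CN
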