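import Mathlib
import Pool.Agent.TH562.CN.Pairs

/-! The second moment. -/

set_option autoImplicit false

namespace Pool.Agent.TH562.CN

open Finset

/-- the points -/
def pt (z Q a : ℕ) (p : ℕ × ℕ) : ℤ := (z : ℤ) ^ 3 * (1 + Q * p.1) ^ 4 - z * (a + Q * p.2) ^ 4

theorem pt_cast (z Q a : ℕ) (p : ℕ × ℕ) : (pt z Q a p : ℝ) = gg z Q p.1 - ff z Q a p.2 := by
  unfold pt gg ff
  push_cast
  ring

theorem toNat_cast (H : ℕ) (x : ℤ) : (((H - |x|).toNat : ℕ) : ℝ) = max 0 ((H : ℝ) - |(x : ℝ)|) := by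
  rw [← Int.cast_natCast, Int.toNat_eq_max]
  push_cast
  rw [max_comm]

theorem gg_mono {z Q : ℕ} {τ τ' : ℕ} (h : τ ≤ τ') : gg z Q τ ≤ gg z Q τ' := by
  unfold gg
  have : (τ : ℝ) ≤ τ' := by exact_mod_cast h
  gcongr

theorem ff_mono {z Q a : ℕ} {σ σ' : ℕ} (h : σ ≤ σ') : ff z Q a σ ≤ ff z Q a σ' := by
  unfold ff
  have : (σ : ℝ) ≤ σ' := by exact_mod_cast h
  gcongr

theorem count_lt (S : ℕ) (K : Finset ℕ) (hK : K.card = S) :
    ∑ σ ∈ K, ∑ σ' ∈ K, (if σ < σ' then (1 : ℝ) else 0) ≤ (S : ℝ) ^ 2 / 2 := by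
  have h1 : ∑ σ ∈ K, ∑ σ' ∈ K, (if σ < σ' then (1 : ℝ) else 0) =
      ∑ σ ∈ K, ∑ σ' ∈ K, (if σ' < σ then (1 : ℝ) else 0) := Finset.sum_comm
  have h2 : ∑ σ ∈ K, ∑ σ' ∈ K, (if σ < σ' then (1 : ℝ) else 0) +
      ∑ σ ∈ K, ∑ σ' ∈ K, (if σ' < σ then (1 : ℝ) else 0) ≤ (S : ℝ) ^ 2 := by
    rw [← Finset.sum_add_distrib]
    calc _ ≤ ∑ σ ∈ K, ∑ σ' ∈ K, (1 : ℝ) := by
          refine Finset.sum_le_sum fun σ _ => ?_
          rw [← Finset.sum_add_distrib]
          refine Finset.sum_le_sum fun σ' _ => ?_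
          split_ifs <;> first | omega | norm_num
      _ = (S : ℝ) ^ 2 := by
          simp only [Finset.sum_const, nsmul_eq_mul, mul_one, hK]
          ring
  linarith

theorem second_moment {z Q a i Y S H : ℕ} {θ F1 F2 : ℝ} (hθ : 0 ≤ θ) (hF1 : 0 ≤ F1) (hF2 : 0 ≤ F2)
    (hf : (H : ℝ) ≤ 4 * ((z : ℝ) * Q ^ 4) * S ^ 3)
    (hg : (H : ℝ) ≤ 4 * ((z : ℝ) ^ 3 * Q ^ 4) * Y ^ 3 * i ^ 3)
    (h1 : ∀ σ ∈ Ico S (2 * S), ∀ σ' ∈ Ico S (2 * S), σ < σ' → θ ≤ (σ' : ℝ) - σ →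
      FF z Q i Y H (ff z Q a σ' - ff z Q a σ) ≤ F1)
    (h2 : ∀ σ ∈ Ico S (2 * S), ∀ σ' ∈ Ico S (2 * S), σ < σ' →
      FF z Q i Y H (ff z Q a σ' - ff z Q a σ) ≤ F2) :
    ∑ α ∈ Ico (i * Y) ((i + 1) * Y) ×ˢ Ico S (2 * S),
      ∑ β ∈ Ico (i * Y) ((i + 1) * Y) ×ˢ Ico S (2 * S),
        (((H - |pt z Q a α - pt z Q a β|).toNat : ℕ) : ℝ) ≤
      (H : ℝ) * Y * S + S ^ 2 * F1 + 2 * S * θ * F2 := by
  classical
  set I := Ico (i * Y) ((i + 1) * Y) with hI
  set K := Ico S (2 * S) with hK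
  have hIc : I.card = Y := by
    rw [hI, Nat.card_Ico]
    have : (i + 1) * Y = i * Y + Y := by ring
    omega
  have hKc : K.card = S := by rw [hK, Nat.card_Ico]; omega
  set X : ℕ × ℕ → ℕ × ℕ → ℝ := fun α β => if α.1 < β.1 ∧ α.2 < β.2 then
    max 0 ((H : ℝ) - |gg z Q β.1 - gg z Q α.1 - (ff z Q a β.2 - ff z Q a α.2)|) else 0 with hX
  have hX0 : ∀ α β, 0 ≤ X α β := by
    intro α β
    rw [hX]
    simp only
    split_ifs
    · exact le_max_left _ _
    · exact le_rfl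
  have hgd : ∀ τ ∈ I, ∀ τ' ∈ I, τ < τ' → (H : ℝ) ≤ gg z Q τ' - gg z Q τ := by
    intro τ hτ τ' hτ' hlt
    obtain ⟨k, rfl⟩ := Nat.exists_eq_add_of_le hlt.le
    have l1 := gg_lower (z := z) (Q := Q) (h := k) (Finset.mem_Ico.1 hτ).1
    have hk : (1 : ℝ) ≤ k := by
      have : 1 ≤ k := by omega
      exact_mod_cast this
    have l2 : 4 * ((z : ℝ) ^ 3 * Q ^ 4) * Y ^ 3 * i ^ 3 * 1 ≤
      4 * ((z : ℝ) ^ 3 * Q ^ 4) * Y ^ 3 * i ^ 3 * k :=
      mul_le_mul_of_nonneg_left hk (by positivity)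
    linarith
  have hfd : ∀ σ ∈ K, ∀ σ' ∈ K, σ < σ' → (H : ℝ) ≤ ff z Q a σ' - ff z Q a σ := by
    intro σ hσ σ' hσ' hlt
    have l1 := ff_lower (z := z) (Q := Q) (a := a) (Finset.mem_Ico.1 hσ).1 hlt.le
    have hk : (1 : ℝ) ≤ (σ' : ℝ) - σ := by
      have : (σ : ℝ) + 1 ≤ σ' := by exact_mod_cast hlt
      linarith
    have l2 : 4 * ((z : ℝ) * Q ^ 4) * S ^ 3 * 1 ≤
      4 * ((z : ℝ) * Q ^ 4) * S ^ 3 * ((σ' : ℝ) - σ) :=
      mul_le_mul_of_nonneg_left hk (by positivity)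
    linarith
  have hterm : ∀ α ∈ I ×ˢ K, ∀ β ∈ I ×ˢ K,
      (((H - |pt z Q a α - pt z Q a β|).toNat : ℕ) : ℝ) ≤
        (if α = β then (H : ℝ) else 0) + X α β + X β α := by
    intro α hα β hβ
    obtain ⟨hα1, hα2⟩ := Finset.mem_product.1 hα
    obtain ⟨hβ1, hβ2⟩ := Finset.mem_product.1 hβ
    rw [toNat_cast]
    have hcast : ((pt z Q a α - pt z Q a β : ℤ) : ℝ) =
        gg z Q α.1 - ff z Q a α.2 - (gg z Q β.1 - ff z Q a β.2) := by
      push_cast
      rw [pt_cast, pt_cast]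
    rw [hcast]
    have i0 : 0 ≤ (if α = β then (H : ℝ) else 0) := by
      split_ifs
      · positivity
      · exact le_rfl
    have x1 := hX0 α β
    have x2 := hX0 β α
    rcases lt_trichotomy α.1 β.1 with h | h | h
    · have g1 := hgd _ hα1 _ hβ1 h
      rcases lt_trichotomy α.2 β.2 with h' | h' | h'
      · have e1 : X α β = max 0 ((H : ℝ) -
            |gg z Q β.1 - gg z Q α.1 - (ff z Q a β.2 - ff z Q a α.2)|) := by
          rw [hX]; exact if_pos ⟨h, h'⟩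
        have e2 : gg z Q α.1 - ff z Q a α.2 - (gg z Q β.1 - ff z Q a β.2) =
          -(gg z Q β.1 - gg z Q α.1 - (ff z Q a β.2 - ff z Q a α.2)) := by ring
        rw [e2, abs_neg, ← e1]
        linarith
      · rw [h']
        have e3 : max 0 ((H : ℝ) -
            |gg z Q α.1 - ff z Q a β.2 - (gg z Q β.1 - ff z Q a β.2)|) = 0 := by
          apply max_eq_left
          have := neg_le_abs (gg z Q α.1 - ff z Q a β.2 - (gg z Q β.1 - ff z Q a β.2))
          linarith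
        rw [e3]
        linarith
      · have g2 := hfd _ hβ2 _ hα2 h'
        have e3 : max 0 ((H : ℝ) -
            |gg z Q α.1 - ff z Q a α.2 - (gg z Q β.1 - ff z Q a β.2)|) = 0 := by
          apply max_eq_left
          have := neg_le_abs (gg z Q α.1 - ff z Q a α.2 - (gg z Q β.1 - ff z Q a β.2))
          have hH0 : (0 : ℝ) ≤ H := Nat.cast_nonneg H
          linarith
        rw [e3]
        linarith
    · rcases lt_trichotomy α.2 β.2 with h' | h' | h'
      · have g2 := hfd _ hα2 _ hβ2 h'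
        have e3 : max 0 ((H : ℝ) -
            |gg z Q α.1 - ff z Q a α.2 - (gg z Q β.1 - ff z Q a β.2)|) = 0 := by
          apply max_eq_left
          rw [h]
          have := le_abs_self (gg z Q β.1 - ff z Q a α.2 - (gg z Q β.1 - ff z Q a β.2))
          linarith
        rw [e3]
        linarith
      · have e4 : α = β := Prod.ext h h'
        have e5 : gg z Q α.1 - ff z Q a α.2 - (gg z Q β.1 - ff z Q a β.2) = 0 := by
          rw [e4]; ring
        rw [e5, if_pos e4]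
        have hH0 : (0 : ℝ) ≤ H := Nat.cast_nonneg H
        rw [abs_zero, sub_zero, max_eq_right hH0]
        linarith
      · have g2 := hfd _ hβ2 _ hα2 h'
        have e3 : max 0 ((H : ℝ) -
            |gg z Q α.1 - ff z Q a α.2 - (gg z Q β.1 - ff z Q a β.2)|) = 0 := by
          apply max_eq_left
          rw [h]
          have := neg_le_abs (gg z Q β.1 - ff z Q a α.2 - (gg z Q β.1 - ff z Q a β.2))
          linarith
        rw [e3]
        linarith
    · have g1 := hgd _ hβ1 _ hα1 h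
      rcases lt_trichotomy α.2 β.2 with h' | h' | h'
      · have g2 := hfd _ hα2 _ hβ2 h'
        have e3 : max 0 ((H : ℝ) -
            |gg z Q α.1 - ff z Q a α.2 - (gg z Q β.1 - ff z Q a β.2)|) = 0 := by
          apply max_eq_left
          have := le_abs_self (gg z Q α.1 - ff z Q a α.2 - (gg z Q β.1 - ff z Q a β.2))
          have hH0 : (0 : ℝ) ≤ H := Nat.cast_nonneg H
          linarith
        rw [e3]
        linarith
      · rw [h']
        have e3 : max 0 ((H : ℝ) -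
            |gg z Q α.1 - ff z Q a β.2 - (gg z Q β.1 - ff z Q a β.2)|) = 0 := by
          apply max_eq_left
          have := le_abs_self (gg z Q α.1 - ff z Q a β.2 - (gg z Q β.1 - ff z Q a β.2))
          linarith
        rw [e3]
        linarith
      · have e1 : X β α = max 0 ((H : ℝ) -
            |gg z Q α.1 - gg z Q β.1 - (ff z Q a α.2 - ff z Q a β.2)|) := by
          rw [hX]; exact if_pos ⟨h, h'⟩
        have e2 : gg z Q α.1 - ff z Q a α.2 - (gg z Q β.1 - ff z Q a β.2) =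
          gg z Q α.1 - gg z Q β.1 - (ff z Q a α.2 - ff z Q a β.2) := by ring
        rw [e2, ← e1]
        linarith
  have hE : ∑ α ∈ I ×ˢ K, ∑ β ∈ I ×ˢ K, X α β =
      ∑ σ ∈ K, ∑ σ' ∈ K, if σ < σ' then FF z Q i Y H (ff z Q a σ' - ff z Q a σ) else 0 := by
    rw [Finset.sum_product_right]
    refine Finset.sum_congr rfl fun σ hσ => ?_
    have : ∀ τ ∈ I, ∑ β ∈ I ×ˢ K, X (τ, σ) β = ∑ σ' ∈ K, ∑ τ' ∈ I, X (τ, σ) (τ', σ') := by
      intro τ _
      rw [Finset.sum_product_right]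
    rw [Finset.sum_congr rfl this, Finset.sum_comm]
    refine Finset.sum_congr rfl fun σ' hσ' => ?_
    by_cases hlt : σ < σ'
    · rw [if_pos hlt]
      unfold FF
      refine Finset.sum_congr rfl fun τ _ => Finset.sum_congr rfl fun τ' _ => ?_
      rw [hX]
      simp only
      by_cases hlt' : τ < τ'
      · rw [if_pos ⟨hlt', hlt⟩, if_pos hlt']
      · rw [if_neg (fun h => hlt' h.1), if_neg hlt']
    · rw [if_neg hlt]
      refine Finset.sum_eq_zero fun τ _ => Finset.sum_eq_zero fun τ' _ => ?_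
      rw [hX]
      exact if_neg (fun h => hlt h.2)
  have hE2 : ∑ α ∈ I ×ˢ K, ∑ β ∈ I ×ˢ K, X α β ≤ S ^ 2 / 2 * F1 + S * θ * F2 := by
    rw [hE]
    have hpt : ∀ σ ∈ K, ∀ σ' ∈ K,
        (if σ < σ' then FF z Q i Y H (ff z Q a σ' - ff z Q a σ) else 0) ≤
        (if σ < σ' then (1 : ℝ) else 0) * F1 +
        (if σ < σ' ∧ (σ' : ℝ) - σ < θ then (1 : ℝ) else 0) * F2 := by
      intro σ hσ σ' hσ'
      by_cases hlt : σ < σ'
      · rw [if_pos hlt, if_pos hlt]
        by_cases hθ' : (σ' : ℝ) - σ < θ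
        · rw [if_pos ⟨hlt, hθ'⟩]
          have := h2 σ hσ σ' hσ' hlt
          linarith
        · rw [if_neg (fun h => hθ' h.2)]
          push Not at hθ'
          have := h1 σ hσ σ' hσ' hlt hθ'
          linarith
      · rw [if_neg hlt, if_neg hlt, if_neg (fun h => hlt h.1)]
        linarith
    calc _ ≤ ∑ σ ∈ K, ∑ σ' ∈ K, ((if σ < σ' then (1 : ℝ) else 0) * F1 +
        (if σ < σ' ∧ (σ' : ℝ) - σ < θ then (1 : ℝ) else 0) * F2) :=
          Finset.sum_le_sum fun σ hσ => Finset.sum_le_sum fun σ' hσ' => hpt σ hσ σ' hσ'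
      _ = (∑ σ ∈ K, ∑ σ' ∈ K, (if σ < σ' then (1 : ℝ) else 0)) * F1 +
          (∑ σ ∈ K, ∑ σ' ∈ K, (if σ < σ' ∧ (σ' : ℝ) - σ < θ then (1 : ℝ) else 0)) * F2 := by
          rw [Finset.sum_mul, Finset.sum_mul, ← Finset.sum_add_distrib]
          refine Finset.sum_congr rfl fun σ _ => ?_
          rw [Finset.sum_mul, Finset.sum_mul, ← Finset.sum_add_distrib]
      _ ≤ _ := by
          apply add_le_add
          · exact mul_le_mul_of_nonneg_right (count_lt S K hKc) hF1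
          · apply mul_le_mul_of_nonneg_right _ hF2
            calc _ ≤ ∑ σ ∈ K, θ := by
                  refine Finset.sum_le_sum fun σ _ => ?_
                  rw [← Finset.sum_filter, Finset.sum_const, nsmul_eq_mul, mul_one]
                  have := card_int_le (x := (σ : ℝ) + 1) (y := σ + θ) (by positivity)
                    (by linarith) (K.filter fun σ' => σ < σ' ∧ (σ' : ℝ) - σ < θ) (by
                      intro k hk
                      obtain ⟨_, hk1, hk2⟩ := Finset.mem_filter.1 hk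
                      refine ⟨by exact_mod_cast hk1, by linarith⟩)
                  linarith
              _ = S * θ := by rw [Finset.sum_const, nsmul_eq_mul, hKc]
  have hdiag : ∑ α ∈ I ×ˢ K, ∑ β ∈ I ×ˢ K, (if α = β then (H : ℝ) else 0) = H * Y * S := by
    have : ∀ α ∈ I ×ˢ K, ∑ β ∈ I ×ˢ K, (if α = β then (H : ℝ) else 0) = H := by
      intro α hα
      rw [Finset.sum_ite_eq, if_pos hα]
    rw [Finset.sum_congr rfl this, Finset.sum_const, nsmul_eq_mul, Finset.card_product, hIc, hKc]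
    push_cast
    ring
  calc _ ≤ ∑ α ∈ I ×ˢ K, ∑ β ∈ I ×ˢ K, ((if α = β then (H : ℝ) else 0) + X α β + X β α) :=
        Finset.sum_le_sum fun α hα => Finset.sum_le_sum fun β hβ => hterm α hα β hβ
    _ = ∑ α ∈ I ×ˢ K, ∑ β ∈ I ×ˢ K, (if α = β then (H : ℝ) else 0) +
        ∑ α ∈ I ×ˢ K, ∑ β ∈ I ×ˢ K, X α β + ∑ α ∈ I ×ˢ K, ∑ β ∈ I ×ˢ K, X β α := by
        simp_rw [Finset.sum_add_distrib]
    _ ≤ _ := by
        have hsymm : ∑ α ∈ I ×ˢ K, ∑ β ∈ I ×ˢ K, X β α = ∑ α ∈ I ×ˢ K, ∑ β ∈ I ×ˢ K, X α β :=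
          Finset.sum_comm
        rw [hsymm, hdiag]
        linarith

end Pool.Agent.TH562.CN
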