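import Mathlib
import Pool.Agent.TH562.CN.Second

/-! The second moment with the parameters `Y = u ^ 5`, `S = u ^ 4`, `H = C u ^ 11`. -/

set_option autoImplicit false

namespace Pool.Agent.TH562.CN

open Finset

/-- the main numerical estimate -/
theorem num_main {G i u C D' H κ : ℝ} (hG : 1 ≤ G) (hi : 4 ≤ i) (hu : 26 ≤ u)
    (hC : G * i ^ 4 ≤ C) (hH : H = C * u ^ 11) (hκ : κ = 4 * G * u ^ 15)
    (h2H : 2 * H ≤ κ * i ^ 3) (hD' : 0 < D') (hD'u : D' ≤ κ * (4 * u)) :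
    ((D' + 2 * H) / (κ * i ^ 3) - D' / (κ * (i + 1) ^ 3) + 1) *
      (2 * H + H ^ 2 * u ^ 5 * (i + 1) ^ 3 / (3 * i ^ 2 * D')) ≤
    H ^ 2 / (4 * G * u ^ 10 * i ^ 3) * (1 + 1 / i + 1 / (3 * i ^ 2) + 1 / i +
      (i + 1) ^ 3 * (2 * H + κ * i ^ 3) / (3 * i ^ 2 * D')) := by
  have hi0 : 0 < i := by linarith
  have hu0 : 0 < u := by linarith
  have hG0 : 0 < G := by linarith
  have hC0 : 0 < C := lt_of_lt_of_le (by positivity) hC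
  have hH0 : 0 < H := by rw [hH]; positivity
  have hκ0 : 0 < κ := by rw [hκ]; positivity
  set A1 := (D' + 2 * H) / (κ * i ^ 3) - D' / (κ * (i + 1) ^ 3) + 1 with hA1
  -- the second part
  have e2 : A1 * (H ^ 2 * u ^ 5 * (i + 1) ^ 3 / (3 * i ^ 2 * D')) =
      H ^ 2 / (4 * G * u ^ 10 * i ^ 3) * (1 + 1 / i + 1 / (3 * i ^ 2) +
      (i + 1) ^ 3 * (2 * H + κ * i ^ 3) / (3 * i ^ 2 * D')) := by
    rw [hA1, hκ]
    have h1 : i + 1 ≠ 0 := by linarith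
    field_simp
    ring
  -- the first part
  have hA1le : A1 ≤ 12 * u / i ^ 4 + 2 := by
    have h1 : A1 = D' / κ * (1 / i ^ 3 - 1 / (i + 1) ^ 3) + 2 * H / (κ * i ^ 3) + 1 := by
      rw [hA1]
      have h1 : i + 1 ≠ 0 := by linarith
      field_simp
      ring
    have h2 : D' / κ ≤ 4 * u := by
      rw [div_le_iff₀ hκ0]; linarith
    have h3 : 1 / i ^ 3 - 1 / (i + 1) ^ 3 ≤ 3 / i ^ 4 := by
      rw [div_sub_div _ _ (by positivity) (by positivity), div_le_div_iff₀ (by positivity)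
        (by positivity)]
      nlinarith [pow_pos hi0 2, pow_pos hi0 3, pow_pos hi0 4, pow_pos hi0 5, pow_pos hi0 6]
    have h4 : 2 * H / (κ * i ^ 3) ≤ 1 := by
      rw [div_le_one (by positivity)]
      exact h2H
    have h5 : 0 ≤ 1 / i ^ 3 - 1 / (i + 1) ^ 3 := by
      have : 1 / (i + 1) ^ 3 ≤ 1 / i ^ 3 := by
        apply one_div_le_one_div_of_le (by positivity)
        exact pow_le_pow_left₀ hi0.le (by linarith) 3
      linarith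
    have h6 : D' / κ * (1 / i ^ 3 - 1 / (i + 1) ^ 3) ≤ 4 * u * (3 / i ^ 4) :=
      mul_le_mul h2 h3 h5 (by positivity)
    have h7 : 4 * u * (3 / i ^ 4) = 12 * u / i ^ 4 := by ring
    rw [h1]
    linarith
  have e1 : A1 * (2 * H) ≤ H ^ 2 / (4 * G * u ^ 10 * i ^ 3) * (1 / i) := by
    have h1 : A1 * (2 * H) ≤ (12 * u / i ^ 4 + 2) * (2 * H) :=
      mul_le_mul_of_nonneg_right hA1le (by positivity)
    refine h1.trans ?_
    have h2 : H ^ 2 / (4 * G * u ^ 10 * i ^ 3) * (1 / i) = H * (C * u / (4 * G * i ^ 4)) := by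
      rw [hH]
      field_simp
    rw [h2]
    have h3 : i ^ 4 * u / (4 * i ^ 4) ≤ C * u / (4 * G * i ^ 4) := by
      rw [div_le_div_iff₀ (by positivity) (by positivity)]
      have : G * i ^ 4 * (4 * i ^ 4 * u) ≤ C * (4 * i ^ 4 * u) :=
        mul_le_mul_of_nonneg_right hC (by positivity)
      linarith
    have h4 : (12 * u / i ^ 4 + 2) * 2 ≤ i ^ 4 * u / (4 * i ^ 4) := by
      have h5 : i ^ 4 * u / (4 * i ^ 4) = u / 4 := by field_simp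
      rw [h5]
      have h6 : (256 : ℝ) ≤ i ^ 4 := by
        have := pow_le_pow_left₀ (by norm_num : (0 : ℝ) ≤ 4) hi 4
        norm_num at this
        exact this
      have h7 : 12 * u / i ^ 4 ≤ 12 * u / 256 := by
        apply div_le_div_of_nonneg_left (by positivity) (by norm_num) h6
      linarith
    calc (12 * u / i ^ 4 + 2) * (2 * H) = H * ((12 * u / i ^ 4 + 2) * 2) := by ring
      _ ≤ H * (C * u / (4 * G * i ^ 4)) :=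
        mul_le_mul_of_nonneg_left (h4.trans h3) hH0.le
  rw [mul_add, e2]
  have : H ^ 2 / (4 * G * u ^ 10 * i ^ 3) * (1 + 1 / i + 1 / (3 * i ^ 2) + 1 / i +
      (i + 1) ^ 3 * (2 * H + κ * i ^ 3) / (3 * i ^ 2 * D')) =
      H ^ 2 / (4 * G * u ^ 10 * i ^ 3) * (1 / i) +
      H ^ 2 / (4 * G * u ^ 10 * i ^ 3) * (1 + 1 / i + 1 / (3 * i ^ 2) +
      (i + 1) ^ 3 * (2 * H + κ * i ^ 3) / (3 * i ^ 2 * D')) := by ring
  rw [this]
  linarith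

/-- the numerical facts used below -/
theorem num_facts {z Q i u C : ℝ} (hz : 1 ≤ z) (hQ : 1 ≤ Q) (hi : 4 ≤ i) 
    (hC : z ^ 3 * Q ^ 4 * i ^ 4 ≤ C) (hu1 : 264 * z ^ 2 * i ^ 7 ≤ u) (hu2 : C ≤ u) :
    256 ≤ u ∧ 1 ≤ C ∧ C * u ^ 11 ≤ z * Q ^ 4 * u ^ 16 / (12 * i ^ 2) ∧
    4 * (C * u ^ 11) ≤ 4 * (z ^ 3 * Q ^ 4) * u ^ 15 * i ^ 3 ∧
    2 * (C * u ^ 11) ≤ 4 * (z * Q ^ 4) * u ^ 12 := by
  have hi0 : 0 < i := by linarith
  have hG : 1 ≤ z ^ 3 * Q ^ 4 := one_le_mul_of_one_le_of_one_le (one_le_pow₀ hz) (one_le_pow₀ hQ)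
  have hzQ : 1 ≤ z * Q ^ 4 := one_le_mul_of_one_le_of_one_le hz (one_le_pow₀ hQ)
  have h1 : 256 ≤ u := by
    have h2 : 1 ≤ z ^ 2 * i ^ 7 :=
      one_le_mul_of_one_le_of_one_le (one_le_pow₀ hz) (one_le_pow₀ (by linarith))
    nlinarith
  have hu0 : 0 < u := by linarith
  have hC1 : 1 ≤ C := by
    refine le_trans ?_ hC
    exact one_le_mul_of_one_le_of_one_le hG (one_le_pow₀ (by linarith))
  have h12 : 12 * i ^ 2 ≤ u := by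
    have h2 : 12 * i ^ 2 ≤ 264 * z ^ 2 * i ^ 7 := by
      have h3 : (1 : ℝ) ≤ z ^ 2 := one_le_pow₀ hz
      have h4 : (1 : ℝ) ≤ i ^ 5 := one_le_pow₀ (by linarith)
      have h5 : 1 ≤ z ^ 2 * i ^ 5 := one_le_mul_of_one_le_of_one_le h3 h4
      have h6 : 264 * z ^ 2 * i ^ 7 = 264 * (z ^ 2 * i ^ 5) * i ^ 2 := by ring
      rw [h6]
      have h7 : 0 < i ^ 2 := by positivity
      nlinarith
    linarith
  refine ⟨h1, hC1, ?_, ?_, ?_⟩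
  · rw [le_div_iff₀ (by positivity)]
    have h3 : C * (12 * i ^ 2) ≤ u * u := mul_le_mul hu2 h12 (by positivity) hu0.le
    have h4 : u * u ≤ z * Q ^ 4 * u ^ 5 := by
      have h5 : u * u ≤ u ^ 5 := by
        have : u ^ 5 = u ^ 3 * (u * u) := by ring
        rw [this]
        have h6 : (1 : ℝ) ≤ u ^ 3 := one_le_pow₀ (by linarith)
        nlinarith [mul_pos hu0 hu0]
      nlinarith [pow_pos hu0 5]
    calc C * u ^ 11 * (12 * i ^ 2) = C * (12 * i ^ 2) * u ^ 11 := by ring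
      _ ≤ (z * Q ^ 4 * u ^ 5) * u ^ 11 :=
        mul_le_mul_of_nonneg_right (h3.trans h4) (by positivity)
      _ = z * Q ^ 4 * u ^ 16 := by ring
  · have h3 : C ≤ (z ^ 3 * Q ^ 4) * u ^ 4 * i ^ 3 := by
      have h4 : (1 : ℝ) ≤ u ^ 3 := one_le_pow₀ (by linarith)
      have h5 : (1 : ℝ) ≤ i ^ 3 := one_le_pow₀ (by linarith)
      have h6 : 1 ≤ (z ^ 3 * Q ^ 4) * u ^ 3 * i ^ 3 :=
        one_le_mul_of_one_le_of_one_le (one_le_mul_of_one_le_of_one_le hG h4) h5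
      calc C ≤ u := hu2
        _ = 1 * u := (one_mul u).symm
        _ ≤ ((z ^ 3 * Q ^ 4) * u ^ 3 * i ^ 3) * u := mul_le_mul_of_nonneg_right h6 hu0.le
        _ = _ := by ring
    calc 4 * (C * u ^ 11) ≤ 4 * (((z ^ 3 * Q ^ 4) * u ^ 4 * i ^ 3) * u ^ 11) := by gcongr
      _ = _ := by ring
  · have h3 : C ≤ (z * Q ^ 4) * u := by
      calc C ≤ u := hu2
        _ = 1 * u := (one_mul u).symm
        _ ≤ (z * Q ^ 4) * u := mul_le_mul_of_nonneg_right hzQ hu0.le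
    calc 2 * (C * u ^ 11) ≤ 2 * (((z * Q ^ 4) * u) * u ^ 11) := by gcongr
      _ ≤ _ := by
        have : 0 < z * Q ^ 4 * u ^ 12 := by positivity
        nlinarith

section
variable {z Q a i u C : ℕ} 

theorem FF_pre (hz : 1 ≤ z) (hQ : 1 ≤ Q) (hi : 4 ≤ i)
    (hC : z ^ 3 * Q ^ 4 * i ^ 4 ≤ C) (hu1 : 264 * z ^ 2 * i ^ 7 ≤ u) (hu2 : C ≤ u)
    {D : ℝ} (hD1 : (C : ℝ) * u ^ 11 < D) (hD2 : D ≤ 16 * ((z : ℝ) * Q ^ 4) * (u : ℝ) ^ 16) :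
    FF z Q i (u ^ 5) ((C : ℝ) * u ^ 11) D ≤
      ((C : ℝ) * u ^ 11) ^ 2 / (4 * ((z : ℝ) ^ 3 * Q ^ 4) * u ^ 10 * i ^ 3) *
      (1 + 1 / i + 1 / (3 * i ^ 2) + 1 / i +
      (i + 1) ^ 3 * (2 * ((C : ℝ) * u ^ 11) + (4 * ((z : ℝ) ^ 3 * Q ^ 4) * u ^ 15) * i ^ 3) /
        (3 * i ^ 2 * (D - (C : ℝ) * u ^ 11))) := by
  have hz' : (1 : ℝ) ≤ z := by exact_mod_cast hz
  have hQ' : (1 : ℝ) ≤ Q := by exact_mod_cast hQ
  have hi' : (4 : ℝ) ≤ i := by exact_mod_cast hi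
  have hC' : (z : ℝ) ^ 3 * Q ^ 4 * i ^ 4 ≤ C := by exact_mod_cast hC
  have hu1' : 264 * (z : ℝ) ^ 2 * i ^ 7 ≤ u := by exact_mod_cast hu1
  have hu2' : (C : ℝ) ≤ u := by exact_mod_cast hu2
  obtain ⟨f1, f2, f3, f4, f5⟩ := num_facts hz' hQ' hi' hC' hu1' hu2'
  have hG : (1 : ℝ) ≤ (z : ℝ) ^ 3 * Q ^ 4 :=
    one_le_mul_of_one_le_of_one_le (one_le_pow₀ hz') (one_le_pow₀ hQ')
  have hupos : 1 ≤ u ^ 5 := by
    have : (0 : ℝ) < u := by linarith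
    have : 0 < u := by exact_mod_cast this
    exact Nat.one_le_pow _ _ this
  have hb := FF_bound (z := z) (Q := Q) (i := i) (Y := u ^ 5) (H := (C : ℝ) * u ^ 11) (D := D)
    hz hQ (by omega) hupos (by positivity) hD1
  have hY : ((u ^ 5 : ℕ) : ℝ) = (u : ℝ) ^ 5 := by push_cast; ring
  rw [hY] at hb
  have hk : 4 * ((z : ℝ) ^ 3 * Q ^ 4) * ((u : ℝ) ^ 5) ^ 3 = 4 * ((z : ℝ) ^ 3 * Q ^ 4) * u ^ 15 := by
    ring
  rw [hk] at hb
  refine hb.trans ?_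
  have hHpos : 0 < (C : ℝ) * u ^ 11 := by
    have : (0 : ℝ) < u := by linarith
    have : (0 : ℝ) < C := by linarith
    positivity
  have hm := num_main (G := (z : ℝ) ^ 3 * Q ^ 4) (i := i) (u := u) (C := C)
    (D' := D - (C : ℝ) * u ^ 11) (H := (C : ℝ) * u ^ 11)
    (κ := 4 * ((z : ℝ) ^ 3 * Q ^ 4) * u ^ 15) hG hi' (by linarith) hC' rfl rfl (by linarith)
    (by linarith) (by
      have h1 : 16 * ((z : ℝ) * Q ^ 4) * (u : ℝ) ^ 16 ≤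
          4 * ((z : ℝ) ^ 3 * Q ^ 4) * u ^ 15 * (4 * u) := by
        have h2 : (z : ℝ) ≤ z ^ 3 := le_self_pow₀ hz' (by norm_num)
        have h3 : 0 < (Q : ℝ) ^ 4 * u ^ 16 := by
          have : (0 : ℝ) < u := by linarith
          positivity
        nlinarith
      have h2 : 0 < (C : ℝ) * u ^ 11 := by
        have : (0 : ℝ) < u := by linarith
        have : (0 : ℝ) < C := by linarith
        positivity
      linarith)
  have e : D - (C : ℝ) * u ^ 11 + 2 * ((C : ℝ) * u ^ 11) = D + (C : ℝ) * u ^ 11 := by ring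
  rw [e] at hm
  exact hm

theorem FF_large (hz : 1 ≤ z) (hQ : 1 ≤ Q) (hi : 4 ≤ i)
    (hC : z ^ 3 * Q ^ 4 * i ^ 4 ≤ C) (hu1 : 264 * z ^ 2 * i ^ 7 ≤ u) (hu2 : C ≤ u)
    {D : ℝ} (hD1 : (z : ℝ) * Q ^ 4 * u ^ 16 / (6 * i ^ 2) ≤ D)
    (hD2 : D ≤ 16 * ((z : ℝ) * Q ^ 4) * (u : ℝ) ^ 16) :
    FF z Q i (u ^ 5) ((C : ℝ) * u ^ 11) D ≤
      ((C : ℝ) * u ^ 11) ^ 2 / (4 * ((z : ℝ) ^ 3 * Q ^ 4) * u ^ 10 * i ^ 3) * (1 + 4 / i) := by
  have hz' : (1 : ℝ) ≤ z := by exact_mod_cast hz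
  have hQ' : (1 : ℝ) ≤ Q := by exact_mod_cast hQ
  have hi' : (4 : ℝ) ≤ i := by exact_mod_cast hi
  have hC' : (z : ℝ) ^ 3 * Q ^ 4 * i ^ 4 ≤ C := by exact_mod_cast hC
  have hu1' : 264 * (z : ℝ) ^ 2 * i ^ 7 ≤ u := by exact_mod_cast hu1
  have hu2' : (C : ℝ) ≤ u := by exact_mod_cast hu2
  obtain ⟨f1, f2, f3, f4, f5⟩ := num_facts hz' hQ' hi' hC' hu1' hu2'
  have hi0 : (0 : ℝ) < i := by linarith
  have hu0 : (0 : ℝ) < u := by linarith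
  have hz0 : (0 : ℝ) < z := by linarith
  have hQ0 : (0 : ℝ) < Q := by linarith
  have hC0 : (0 : ℝ) < C := by linarith
  have hDl : (z : ℝ) * Q ^ 4 * u ^ 16 / (12 * i ^ 2) ≤ D - (C : ℝ) * u ^ 11 := by
    have : (z : ℝ) * Q ^ 4 * u ^ 16 / (6 * i ^ 2) =
      (z : ℝ) * Q ^ 4 * u ^ 16 / (12 * i ^ 2) + (z : ℝ) * Q ^ 4 * u ^ 16 / (12 * i ^ 2) := by
      field_simp; norm_num
    linarith
  have hpos : 0 < (z : ℝ) * Q ^ 4 * u ^ 16 / (12 * i ^ 2) := by positivity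
  have hHpos : 0 < (C : ℝ) * u ^ 11 := by positivity
  have hDpos : 0 < D - (C : ℝ) * u ^ 11 := lt_of_lt_of_le hpos hDl
  have hb := FF_pre hz hQ hi hC hu1 hu2 (D := D) (by linarith) hD2
  refine hb.trans ?_
  apply mul_le_mul_of_nonneg_left _ (by positivity)
  have hlast : ((i : ℝ) + 1) ^ 3 * (2 * ((C : ℝ) * u ^ 11) +
      (4 * ((z : ℝ) ^ 3 * Q ^ 4) * u ^ 15) * i ^ 3) /
        (3 * i ^ 2 * (D - (C : ℝ) * u ^ 11)) ≤ 1 / i := by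
    rw [div_le_div_iff₀ (by positivity) hi0, one_mul]
    have h1 : 2 * ((C : ℝ) * u ^ 11) + (4 * ((z : ℝ) ^ 3 * Q ^ 4) * u ^ 15) * i ^ 3 ≤
      8 * ((z : ℝ) ^ 3 * Q ^ 4) * u ^ 15 * i ^ 3 := by linarith
    have h2 : ((i : ℝ) + 1) ^ 3 ≤ 8 * i ^ 3 := by
      have : ((i : ℝ) + 1) ^ 3 ≤ (2 * i) ^ 3 := pow_le_pow_left₀ (by positivity) (by linarith) 3
      calc ((i : ℝ) + 1) ^ 3 ≤ (2 * i) ^ 3 := this
        _ = 8 * i ^ 3 := by ring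
    calc ((i : ℝ) + 1) ^ 3 * (2 * ((C : ℝ) * u ^ 11) +
      (4 * ((z : ℝ) ^ 3 * Q ^ 4) * u ^ 15) * i ^ 3) * i ≤
        (8 * i ^ 3) * (8 * ((z : ℝ) ^ 3 * Q ^ 4) * u ^ 15 * i ^ 3) * i := by gcongr
      _ = (256 * (z : ℝ) ^ 2 * i ^ 7) * (3 * i ^ 2 * ((z : ℝ) * Q ^ 4 * u ^ 15 / (12 * i ^ 2))) := by
        field_simp; norm_num
      _ ≤ u * (3 * i ^ 2 * ((z : ℝ) * Q ^ 4 * u ^ 15 / (12 * i ^ 2))) := by
        apply mul_le_mul_of_nonneg_right _ (by positivity)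
        have : 0 ≤ (z : ℝ) ^ 2 * i ^ 7 := by positivity
        linarith
      _ = 3 * i ^ 2 * ((z : ℝ) * Q ^ 4 * u ^ 16 / (12 * i ^ 2)) := by ring
      _ ≤ _ := by gcongr
  have h3 : 1 / (3 * (i : ℝ) ^ 2) ≤ 1 / i := by
    apply one_div_le_one_div_of_le hi0
    nlinarith
  have h4 : (4 : ℝ) / i = 1 / i + 1 / i + 1 / i + 1 / i := by ring
  rw [h4]
  linarith

theorem FF_small (hz : 1 ≤ z) (hQ : 1 ≤ Q) (hi : 4 ≤ i)
    (hC : z ^ 3 * Q ^ 4 * i ^ 4 ≤ C) (hu1 : 264 * z ^ 2 * i ^ 7 ≤ u) (hu2 : C ≤ u)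
    {D : ℝ} (hD1 : 4 * ((z : ℝ) * Q ^ 4) * u ^ 12 ≤ D)
    (hD2 : D ≤ 16 * ((z : ℝ) * Q ^ 4) * (u : ℝ) ^ 16) :
    FF z Q i (u ^ 5) ((C : ℝ) * u ^ 11) D ≤
      ((C : ℝ) * u ^ 11) ^ 2 / (4 * ((z : ℝ) ^ 3 * Q ^ 4) * u ^ 10 * i ^ 3) * (12 * i) := by
  have hz' : (1 : ℝ) ≤ z := by exact_mod_cast hz
  have hQ' : (1 : ℝ) ≤ Q := by exact_mod_cast hQ
  have hi' : (4 : ℝ) ≤ i := by exact_mod_cast hi
  have hC' : (z : ℝ) ^ 3 * Q ^ 4 * i ^ 4 ≤ C := by exact_mod_cast hC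
  have hu1' : 264 * (z : ℝ) ^ 2 * i ^ 7 ≤ u := by exact_mod_cast hu1
  have hu2' : (C : ℝ) ≤ u := by exact_mod_cast hu2
  obtain ⟨f1, f2, f3, f4, f5⟩ := num_facts hz' hQ' hi' hC' hu1' hu2'
  have hi0 : (0 : ℝ) < i := by linarith
  have hu0 : (0 : ℝ) < u := by linarith
  have hz0 : (0 : ℝ) < z := by linarith
  have hQ0 : (0 : ℝ) < Q := by linarith
  have hC0 : (0 : ℝ) < C := by linarith
  have hHpos : 0 < (C : ℝ) * u ^ 11 := by positivity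
  set κ : ℝ := 4 * ((z : ℝ) ^ 3 * Q ^ 4) * u ^ 15 with hκ
  rcases lt_or_ge (D + (C : ℝ) * u ^ 11) (κ * i ^ 3) with hlt | hge
  · have hzero := FF_zero (z := z) (Q := Q) (i := i) (Y := u ^ 5) (H := (C : ℝ) * u ^ 11) (D := D)
      (by
        push_cast
        have : 4 * ((z : ℝ) ^ 3 * Q ^ 4) * ((u : ℝ) ^ 5) ^ 3 * i ^ 3 = κ * i ^ 3 := by
          rw [hκ]; ring
        rw [this]
        exact hlt)
    rw [hzero]
    positivity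
  · have hD3 : κ * i ^ 3 / 2 ≤ D - (C : ℝ) * u ^ 11 := by linarith
    have hκ0 : 0 < κ := by rw [hκ]; positivity
    have hb := FF_pre hz hQ hi hC hu1 hu2 (D := D) (by linarith) hD2
    refine hb.trans ?_
    apply mul_le_mul_of_nonneg_left _ (by positivity)
    rw [← hκ]
    have hDpos : 0 < D - (C : ℝ) * u ^ 11 := lt_of_lt_of_le (by positivity) hD3
    have hlast : ((i : ℝ) + 1) ^ 3 * (2 * ((C : ℝ) * u ^ 11) + κ * i ^ 3) /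
        (3 * i ^ 2 * (D - (C : ℝ) * u ^ 11)) ≤ 8 * i := by
      rw [div_le_iff₀ (by positivity)]
      have h1 : 2 * ((C : ℝ) * u ^ 11) + κ * i ^ 3 ≤ 3 / 2 * (κ * i ^ 3) := by linarith
      have h2 : ((i : ℝ) + 1) ^ 3 ≤ 8 * i ^ 3 := by
        have : ((i : ℝ) + 1) ^ 3 ≤ (2 * i) ^ 3 := pow_le_pow_left₀ (by positivity) (by linarith) 3
        calc ((i : ℝ) + 1) ^ 3 ≤ (2 * i) ^ 3 := this
          _ = 8 * i ^ 3 := by ring
      calc ((i : ℝ) + 1) ^ 3 * (2 * ((C : ℝ) * u ^ 11) + κ * i ^ 3) ≤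
          (8 * i ^ 3) * (3 / 2 * (κ * i ^ 3)) := by gcongr
        _ = 8 * i * (3 * i ^ 2 * (κ * i ^ 3 / 2)) := by ring
        _ ≤ _ := by gcongr
    have h3 : 1 / (i : ℝ) ≤ 1 := by
      rw [div_le_one hi0]; linarith
    have h4 : 1 / (3 * (i : ℝ) ^ 2) ≤ 1 := by
      rw [div_le_one (by positivity)]; nlinarith
    linarith

end

end Pool.Agent.TH562.CN
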