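import Mathlib
import Pool.Agent.TH562.CN.Num
import Pool.Agent.TH562.CN.BadBlock

/-! The block theorem. -/

set_option autoImplicit false

namespace Pool.Agent.TH562.CN

open Finset

section
variable {z Q a i u C : ℕ} 

theorem moment_block (hz : 1 ≤ z) (hQ : 1 ≤ Q) (ha : a ≤ Q) (hi : 4 ≤ i)
    (hC : z ^ 3 * Q ^ 4 * i ^ 4 ≤ C) (hu1 : 264 * z ^ 2 * i ^ 7 ≤ u) (hu2 : C ≤ u)
    {J : Finset ℤ} (hJ0 : 0 < J.card)
    (hJ : (J.card : ℝ) ≤ ((z : ℝ) ^ 3 * Q ^ 4) * (u : ℝ) ^ 20 * (((i : ℝ) + 1) ^ 4 - i ^ 4) *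
      (1 + 1 / i)) :
    ∑ α ∈ Ico (i * u ^ 5) ((i + 1) * u ^ 5) ×ˢ Ico (u ^ 4) (2 * u ^ 4),
      ∑ β ∈ Ico (i * u ^ 5) ((i + 1) * u ^ 5) ×ˢ Ico (u ^ 4) (2 * u ^ 4),
        ((((C * u ^ 11 : ℕ) - |pt z Q a α - pt z Q a β|).toNat : ℕ) : ℝ) ≤
      (1 + 80 / (i : ℝ)) *
      (((Ico (i * u ^ 5) ((i + 1) * u ^ 5) ×ˢ Ico (u ^ 4) (2 * u ^ 4)).card : ℝ) *
        (C * u ^ 11 : ℕ)) ^ 2 / J.card := by
  have hz' : (1 : ℝ) ≤ z := by exact_mod_cast hz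
  have hQ' : (1 : ℝ) ≤ Q := by exact_mod_cast hQ
  have hi' : (4 : ℝ) ≤ i := by exact_mod_cast hi
  have hC' : (z : ℝ) ^ 3 * Q ^ 4 * i ^ 4 ≤ C := by exact_mod_cast hC
  have hu1' : 264 * (z : ℝ) ^ 2 * i ^ 7 ≤ u := by exact_mod_cast hu1
  have hu2' : (C : ℝ) ≤ u := by exact_mod_cast hu2
  obtain ⟨f1, f2, f3, f4, f5⟩ := num_facts hz' hQ' hi' hC' hu1' hu2'
  have hi0 : (0 : ℝ) < i := by linarith
  have hu0 : (0 : ℝ) < u := by linarith
  have hz0 : (0 : ℝ) < z := by linarith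
  have hQ0 : (0 : ℝ) < Q := by linarith
  have hC0 : (0 : ℝ) < C := by linarith
  have hHpos : 0 < (C : ℝ) * u ^ 11 := by positivity
  set G : ℝ := (z : ℝ) ^ 3 * Q ^ 4 with hG
  have hG0 : 0 < G := by rw [hG]; positivity
  set N0 : ℝ := ((C : ℝ) * u ^ 11) ^ 2 / (4 * G * u ^ 10 * i ^ 3) with hN0
  have hN0pos : 0 < N0 := by rw [hN0]; positivity
  have hHcast : ((C * u ^ 11 : ℕ) : ℝ) = (C : ℝ) * u ^ 11 := by push_cast; ring
  have hsm := second_moment (z := z) (Q := Q) (a := a) (i := i) (Y := u ^ 5) (S := u ^ 4)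
    (H := C * u ^ 11) (θ := (u : ℝ) ^ 4 / (24 * i ^ 2)) (F1 := N0 * (1 + 4 / i))
    (F2 := N0 * (12 * i)) (by positivity) (by positivity) (by positivity)
    (by
      rw [hHcast]
      push_cast
      have : 4 * ((z : ℝ) * Q ^ 4) * ((u : ℝ) ^ 4) ^ 3 = 4 * ((z : ℝ) * Q ^ 4) * u ^ 12 := by ring
      rw [this]; linarith)
    (by
      rw [hHcast]
      push_cast
      have : 4 * ((z : ℝ) ^ 3 * Q ^ 4) * ((u : ℝ) ^ 5) ^ 3 * i ^ 3 =
        4 * G * u ^ 15 * i ^ 3 := by rw [hG]; ring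
      rw [this]; linarith)
    (by
      intro σ hσ σ' hσ' hlt hθ
      rw [hHcast]
      apply FF_large hz hQ hi hC hu1 hu2
      · have l1 := ff_lower (z := z) (Q := Q) (a := a) (Finset.mem_Ico.1 hσ).1 hlt.le
        push_cast at l1
        refine le_trans ?_ l1
        calc (z : ℝ) * Q ^ 4 * u ^ 16 / (6 * i ^ 2) =
            4 * ((z : ℝ) * Q ^ 4) * ((u : ℝ) ^ 4) ^ 3 * ((u : ℝ) ^ 4 / (24 * i ^ 2)) := by
              field_simp; norm_num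
          _ ≤ _ := mul_le_mul_of_nonneg_left hθ (by positivity)
      · have l2 := ff_upper (z := z) (Q := Q) (a := a) ha (Finset.mem_Ico.1 hσ').2
        have l3 := ff_nonneg z Q a σ
        push_cast at l2
        have : 16 * ((z : ℝ) * Q ^ 4) * ((u : ℝ) ^ 4) ^ 4 =
          16 * ((z : ℝ) * Q ^ 4) * (u : ℝ) ^ 16 := by ring
        linarith)
    (by
      intro σ hσ σ' hσ' hlt
      rw [hHcast]
      apply FF_small hz hQ hi hC hu1 hu2
      · have l1 := ff_lower (z := z) (Q := Q) (a := a) (Finset.mem_Ico.1 hσ).1 hlt.le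
        push_cast at l1
        refine le_trans ?_ l1
        have h1 : (1 : ℝ) ≤ (σ' : ℝ) - σ := by
          have : (σ : ℝ) + 1 ≤ σ' := by exact_mod_cast hlt
          linarith
        calc 4 * ((z : ℝ) * Q ^ 4) * u ^ 12 =
            4 * ((z : ℝ) * Q ^ 4) * ((u : ℝ) ^ 4) ^ 3 * 1 := by ring
          _ ≤ _ := mul_le_mul_of_nonneg_left h1 (by positivity)
      · have l2 := ff_upper (z := z) (Q := Q) (a := a) ha (Finset.mem_Ico.1 hσ').2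
        have l3 := ff_nonneg z Q a σ
        push_cast at l2
        have : 16 * ((z : ℝ) * Q ^ 4) * ((u : ℝ) ^ 4) ^ 4 =
          16 * ((z : ℝ) * Q ^ 4) * (u : ℝ) ^ 16 := by ring
        linarith)
  refine hsm.trans ?_
  rw [hHcast]
  have hAc : ((Ico (i * u ^ 5) ((i + 1) * u ^ 5) ×ˢ Ico (u ^ 4) (2 * u ^ 4)).card : ℝ) =
      (u : ℝ) ^ 9 := by
    rw [Finset.card_product, Nat.card_Ico, Nat.card_Ico]
    have e1 : (i + 1) * u ^ 5 - i * u ^ 5 = u ^ 5 := by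
      have : (i + 1) * u ^ 5 = i * u ^ 5 + u ^ 5 := by ring
      omega
    have e2 : 2 * u ^ 4 - u ^ 4 = u ^ 4 := by omega
    rw [e1, e2]
    push_cast
    ring
  rw [hAc]
  push_cast
  set Ψ : ℝ := (C : ℝ) ^ 2 * u ^ 20 / (4 * G * i ^ 3) with hΨ
  have hΨ0 : 0 < Ψ := by rw [hΨ]; positivity
  have e1 : (C : ℝ) * u ^ 11 * u ^ 5 * u ^ 4 + ((u : ℝ) ^ 4) ^ 2 * (N0 * (1 + 4 / i)) +
      2 * (u : ℝ) ^ 4 * (u ^ 4 / (24 * i ^ 2)) * (N0 * (12 * i)) =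
      C * u ^ 20 + Ψ * (1 + 5 / i) := by
    rw [hN0, hΨ]
    field_simp
    ring
  have e2 : (C : ℝ) * u ^ 20 ≤ Ψ * (4 / i) := by
    have h1 : Ψ * (4 / i) = (C : ℝ) * u ^ 20 * (C / (G * i ^ 4)) := by
      rw [hΨ]; field_simp
    have h2 : 1 ≤ C / (G * i ^ 4) := by
      rw [le_div_iff₀ (by positivity)]
      linarith
    rw [h1]
    have h3 : 0 < (C : ℝ) * u ^ 20 := by positivity
    nlinarith
  have e3 : Ψ * (1 + 9 / i) ≤ (1 + 80 / (i : ℝ)) * ((u : ℝ) ^ 9 * (C * u ^ 11)) ^ 2 / J.card := by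
    have hJr : (0 : ℝ) < J.card := by exact_mod_cast hJ0
    rw [le_div_iff₀ hJr]
    have hpos4 : 0 < ((i : ℝ) + 1) ^ 4 - i ^ 4 := by
      have : ((i : ℝ) + 1) ^ 4 - i ^ 4 = 4 * i ^ 3 + 6 * i ^ 2 + 4 * i + 1 := by ring
      rw [this]; positivity
    calc Ψ * (1 + 9 / i) * J.card ≤ Ψ * (1 + 9 / i) *
        (G * (u : ℝ) ^ 20 * (((i : ℝ) + 1) ^ 4 - i ^ 4) * (1 + 1 / i)) :=
          mul_le_mul_of_nonneg_left hJ (by positivity)
      _ = ((u : ℝ) ^ 9 * (C * u ^ 11)) ^ 2 * ((1 + 9 / i) * (((i : ℝ) + 1) ^ 4 - i ^ 4) *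
          (1 + 1 / i) / (4 * i ^ 3)) := by
          rw [hΨ]; field_simp
      _ ≤ ((u : ℝ) ^ 9 * (C * u ^ 11)) ^ 2 * (1 + 80 / i) := by
          apply mul_le_mul_of_nonneg_left _ (by positivity)
          rw [div_le_iff₀ (by positivity)]
          have e : ((i : ℝ) + 1) ^ 4 - i ^ 4 = 4 * i ^ 3 + 6 * i ^ 2 + 4 * i + 1 := by ring
          rw [e]
          have h1 : (1 + 9 / (i : ℝ)) * (4 * i ^ 3 + 6 * i ^ 2 + 4 * i + 1) * (1 + 1 / i) =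
              (i + 9) * (4 * i ^ 3 + 6 * i ^ 2 + 4 * i + 1) * (i + 1) / i ^ 2 := by
            field_simp
          have h2 : (1 + 80 / (i : ℝ)) * (4 * i ^ 3) = (i + 80) * (4 * i ^ 4) / i ^ 2 := by
            field_simp
          rw [h1, h2]
          apply div_le_div_of_nonneg_right _ (by positivity)
          nlinarith [pow_pos hi0 2, pow_pos hi0 3, pow_pos hi0 4, pow_pos hi0 5,
            mul_le_mul_of_nonneg_right hi' (pow_pos hi0 3).le,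
            mul_le_mul_of_nonneg_right hi' (pow_pos hi0 2).le,
            mul_le_mul_of_nonneg_right hi' (pow_pos hi0 1).le]
      _ = _ := by ring
  rw [e1]
  have e4 : Ψ * (1 + 9 / i) = Ψ * (4 / i) + Ψ * (1 + 5 / i) := by ring
  linarith

end

end Pool.Agent.TH562.CN
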