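import Mathlib
import Pool.Agent.TH562.CN.Block

/-! The exceptional windows of a block. -/

set_option autoImplicit false

namespace Pool.Agent.TH562.CN

open Finset

theorem pt_eq_val {z Q a : ℕ} {p : ℕ × ℕ} (h : (a + Q * p.2) ^ 2 < z * (1 + Q * p.1) ^ 2) :
    ((val z (1 + Q * p.1) (a + Q * p.2) : ℕ) : ℤ) = pt z Q a p := by
  unfold val pt
  rw [Nat.cast_mul, Nat.cast_mul, Nat.cast_sub h.le]
  push_cast
  ring

theorem residue {z j Q τ σ : ℕ} (hzj : (z = 1 ∧ j = 1) ∨ (z = 3 ∧ j = 3) ∨ (z = 5 ∧ j = 5) ∨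
    (z = 7 ∧ j = 7) ∨ (z = 6 ∧ j = 2) ∨ (z = 2 ∧ j = 6)) (hQ : Squarefree Q) (hzQ : z ∣ Q)
    (h2Q : 2 ∣ Q) (h : (Q / z + Q * σ) ^ 2 < z * (1 + Q * τ) ^ 2) :
    val z (1 + Q * τ) (Q / z + Q * σ) % 8 = j := by
  have hzz : z * (Q / z) = Q := Nat.mul_div_cancel' hzQ
  have ht : Odd (1 + Q * τ) := by
    obtain ⟨e, he⟩ := h2Q
    rw [he]
    exact ⟨e * τ, by ring⟩
  have hev : Odd z → Even (Q / z + Q * σ) := by
    intro hodd
    have h1 : 2 ∣ z * (Q / z) := by rw [hzz]; exact h2Q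
    have h2 : 2 ∣ Q / z := by
      rcases (Nat.Prime.dvd_mul Nat.prime_two).1 h1 with h3 | h3
      · exfalso
        rcases hodd with ⟨k, hk⟩
        omega
      · exact h3
    exact (even_iff_two_dvd.2 h2).add ((even_iff_two_dvd.2 h2Q).mul_right σ)
  have hod : 2 ∣ z → Odd (Q / z + Q * σ) := by
    intro h2z
    have h1 : Odd (Q / z) := by
      rw [← Nat.not_even_iff_odd, even_iff_two_dvd]
      intro h3
      have h4 : 2 * 2 ∣ Q := by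
        rw [← hzz]
        exact mul_dvd_mul h2z h3
      have := Nat.isUnit_iff.1 (hQ 2 h4)
      omega
    exact h1.add_even ((even_iff_two_dvd.2 h2Q).mul_right σ)
  rcases hzj with ⟨rfl, rfl⟩ | ⟨rfl, rfl⟩ | ⟨rfl, rfl⟩ | ⟨rfl, rfl⟩ | ⟨rfl, rfl⟩ | ⟨rfl, rfl⟩
  · exact val_mod_odd (Or.inl rfl) ht (hev (by decide)) h
  · exact val_mod_odd (Or.inr (Or.inl rfl)) ht (hev (by decide)) h
  · exact val_mod_odd (Or.inr (Or.inr (Or.inl rfl))) ht (hev (by decide)) h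
  · exact val_mod_odd (Or.inr (Or.inr (Or.inr rfl))) ht (hev (by decide)) h
  · exact val_mod_six ht (hod (by decide)) h
  · exact val_mod_two ht (hod (by decide)) h

/-- the left end of the block -/
def XX (z Q i u : ℕ) : ℕ := z ^ 3 * (1 + Q * (i * u ^ 5)) ^ 4

open Classical in
theorem exc_block {z Q a W i u C : ℕ} {Cd : ℝ} (hz : 1 ≤ z)
    (hzW : ∀ p : ℕ, p.Prime → p ∣ z → p ≤ W)
    (h2W : 2 ≤ W) (hQ0 : 0 < Q) (hQW : ∀ p : ℕ, p.Prime → p ≤ W → p ∣ Q)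
    (hQ : ∀ p : ℕ, p.Prime → W < p → ¬ p ∣ Q) (ha : a ≤ Q) (ha0 : 0 < a) (hi : 4 ≤ i)
    (hCd : ∀ n : ℕ, 1 ≤ n → (n.divisors.card : ℝ) ≤ Cd * (n : ℝ) ^ ((1 : ℝ) / 10)) (hCd0 : 0 < Cd)
    (hu1 : 264 * z ^ 2 * i ^ 7 ≤ u) (hu2 : 8 * Q * W ≤ u)
    (hu3 : 16 * (z : ℝ) * Q ^ 3 * (i + 1) ^ 3 * W ^ 3 * Cd ≤ u)
    (hC : z ^ 3 * Q ^ 4 * i ^ 4 ≤ C) (hu4 : C ≤ u) :
    (((Ico (XX z Q i u) (XX z Q (i + 1) u)).filter fun x : ℕ =>
      ¬ ∃ p ∈ Ico (i * u ^ 5) ((i + 1) * u ^ 5) ×ˢ Ico (u ^ 4) (2 * u ^ 4), Good z Q a W p ∧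
        (x : ℤ) ∈ Ioc (pt z Q a p - (C * u ^ 11 : ℕ)) (pt z Q a p)).card : ℝ) ≤
      (320 / i + 22 / W) * (2 * (((z : ℝ) ^ 3 * Q ^ 4) * (u : ℝ) ^ 20 *
        (((i : ℝ) + 1) ^ 4 - i ^ 4))) := by
  have hz' : (1 : ℝ) ≤ z := by exact_mod_cast hz
  have hQ' : (1 : ℝ) ≤ Q := by exact_mod_cast hQ0
  have hi' : (4 : ℝ) ≤ i := by exact_mod_cast hi
  have hC' : (z : ℝ) ^ 3 * Q ^ 4 * i ^ 4 ≤ C := by exact_mod_cast hC
  have hu1' : 264 * (z : ℝ) ^ 2 * i ^ 7 ≤ u := by exact_mod_cast hu1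
  have hu2' : (C : ℝ) ≤ u := by exact_mod_cast hu4
  obtain ⟨f1, f2, f3, f4, f5⟩ := num_facts hz' hQ' hi' hC' hu1' hu2'
  have hi0 : (0 : ℝ) < i := by linarith
  have hu0 : (0 : ℝ) < u := by linarith
  have hz0 : (0 : ℝ) < z := by linarith
  have hQ0' : (0 : ℝ) < Q := by linarith
  have hC0 : (0 : ℝ) < C := by linarith
  have hW0 : (0 : ℝ) < W := by
    have : 0 < W := by omega
    exact_mod_cast this
  have hun : 0 < u := by exact_mod_cast hu0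
  have hCn : 0 < C := by exact_mod_cast hC0
  have hHn : 0 < C * u ^ 11 := by positivity
  set A := Ico (i * u ^ 5) ((i + 1) * u ^ 5) ×ˢ Ico (u ^ 4) (2 * u ^ 4) with hA
  set B := A.filter fun p => ¬ Good z Q a W p with hB
  have hAc : (A.card : ℝ) = (u : ℝ) ^ 9 := by
    rw [hA, Finset.card_product, Nat.card_Ico, Nat.card_Ico]
    have e1 : (i + 1) * u ^ 5 - i * u ^ 5 = u ^ 5 := by
      have : (i + 1) * u ^ 5 = i * u ^ 5 + u ^ 5 := by ring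
      omega
    have e2 : 2 * u ^ 4 - u ^ 4 = u ^ 4 := by omega
    rw [e1, e2]
    push_cast
    ring
  have hAc0 : 0 < A.card := by
    have : (0 : ℝ) < A.card := by rw [hAc]; positivity
    exact_mod_cast this
  -- the interval
  set lo : ℤ := (XX z Q i u : ℤ) - 16 * (z * Q ^ 4) * u ^ 16 - (C * u ^ 11 : ℕ) with hlo
  set hi2 : ℤ := (XX z Q (i + 1) u : ℤ) with hhi2
  set J : Finset ℤ := Ioc lo hi2 with hJ
  have hptlo : ∀ p ∈ A, (XX z Q i u : ℤ) - 16 * (z * Q ^ 4) * u ^ 16 ≤ pt z Q a p := by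
    intro p hp
    obtain ⟨h1, h2⟩ := Finset.mem_product.1 hp
    have h3 : ((XX z Q i u : ℕ) : ℝ) ≤ gg z Q p.1 := by
      unfold XX gg
      push_cast
      have : ((i : ℝ) * u ^ 5) ≤ p.1 := by exact_mod_cast (Finset.mem_Ico.1 h1).1
      gcongr
    have h4 := ff_upper (z := z) (Q := Q) (a := a) ha (Finset.mem_Ico.1 h2).2
    have h5 : (((XX z Q i u : ℤ) - 16 * (z * Q ^ 4) * u ^ 16 : ℤ) : ℝ) ≤ (pt z Q a p : ℝ) := by
      rw [pt_cast]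
      push_cast at h4 h3 ⊢
      have e : 16 * ((z : ℝ) * Q ^ 4) * ((u : ℝ) ^ 4) ^ 4 =
        16 * ((z : ℝ) * Q ^ 4) * (u : ℝ) ^ 16 := by ring
      linarith
    exact_mod_cast h5
  have hpthi : ∀ p ∈ A, pt z Q a p ≤ hi2 := by
    intro p hp
    obtain ⟨h1, h2⟩ := Finset.mem_product.1 hp
    have h3 : gg z Q p.1 ≤ ((XX z Q (i + 1) u : ℕ) : ℝ) := by
      unfold XX gg
      push_cast
      have : (p.1 : ℝ) ≤ ((i : ℝ) + 1) * u ^ 5 := by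
        exact_mod_cast (Finset.mem_Ico.1 h1).2.le
      gcongr
    have h4 := ff_nonneg z Q a p.2
    have h5 : (pt z Q a p : ℝ) ≤ (hi2 : ℝ) := by
      rw [pt_cast, hhi2]
      push_cast at h3 ⊢
      linarith
    exact_mod_cast h5
  have hJsub : ∀ p ∈ A, Ioc (pt z Q a p - (C * u ^ 11 : ℕ)) (pt z Q a p) ⊆ J := by
    intro p hp x hx
    rw [Finset.mem_Ioc] at hx
    rw [hJ, Finset.mem_Ioc]
    have h1 := hptlo p hp
    have h2 := hpthi p hp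
    constructor
    · rw [hlo]; omega
    · omega
  have hJ0 : 0 < J.card := by
    obtain ⟨p, hp⟩ := Finset.card_pos.1 hAc0
    refine Finset.card_pos.2 ⟨pt z Q a p, hJsub p hp ?_⟩
    rw [Finset.mem_Ioc]
    constructor
    · have : (0 : ℤ) < (C * u ^ 11 : ℕ) := by exact_mod_cast hHn
      omega
    · exact le_rfl
  have hJle : (J.card : ℝ) ≤ ((z : ℝ) ^ 3 * Q ^ 4) * (u : ℝ) ^ 20 * (((i : ℝ) + 1) ^ 4 - i ^ 4) *
      (1 + 1 / i) := by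
    have h1 : (J.card : ℝ) = (hi2 : ℝ) - lo := by
      rw [hJ, Int.card_Ioc]
      have h2 : lo ≤ hi2 := by
        obtain ⟨p, hp⟩ := Finset.card_pos.1 hAc0
        have h3 := hptlo p hp
        have h4 := hpthi p hp
        rw [hlo]
        omega
      have h3 : (((hi2 - lo).toNat : ℕ) : ℤ) = hi2 - lo := Int.toNat_of_nonneg (by omega)
      have h4 : (((hi2 - lo).toNat : ℕ) : ℝ) = ((hi2 - lo : ℤ) : ℝ) := by exact_mod_cast h3
      rw [h4]; push_cast; ring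
    set v : ℝ := Q * u ^ 5 with hv
    have hv256 : 256 ≤ v := by
      have h5 : (u : ℝ) ≤ u ^ 5 := le_self_pow₀ (by linarith) (by norm_num)
      have h6 : (u : ℝ) ^ 5 ≤ v := by
        rw [hv]; nlinarith [pow_pos hu0 5]
      linarith
    have h2 : (J.card : ℝ) = (z : ℝ) ^ 3 * ((1 + (i + 1) * v) ^ 4 - (1 + i * v) ^ 4) +
        16 * (z * Q ^ 4) * u ^ 16 + C * u ^ 11 := by
      rw [h1, hhi2, hlo, hv]
      unfold XX
      push_cast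
      ring
    rw [h2]
    have e1 : ((1 + ((i : ℝ) + 1) * v) ^ 4 - (1 + i * v) ^ 4) =
        v ^ 4 * (((i : ℝ) + 1) ^ 4 - i ^ 4) + v ^ 3 * (12 * i ^ 2 + 12 * i + 4) +
        v ^ 2 * (12 * i + 6) + 4 * v := by ring
    have e2 : v ^ 3 * (12 * (i : ℝ) ^ 2 + 12 * i + 4) + v ^ 2 * (12 * i + 6) + 4 * v ≤
        v ^ 4 * i ^ 2 := by
      have h3 : v ^ 2 ≤ v ^ 3 := pow_le_pow_right₀ (by linarith) (by norm_num)
      have h4 : v ≤ v ^ 3 := le_self_pow₀ (by linarith) (by norm_num)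
      have h5 : v ^ 3 * (12 * (i : ℝ) ^ 2 + 12 * i + 4) + v ^ 2 * (12 * i + 6) + 4 * v ≤
        v ^ 3 * (12 * (i : ℝ) ^ 2 + 12 * i + 4) + v ^ 3 * (12 * i + 6) + 4 * v ^ 3 := by
        gcongr
      have h6 : v ^ 3 * (12 * (i : ℝ) ^ 2 + 12 * i + 4) + v ^ 3 * (12 * i + 6) + 4 * v ^ 3 ≤
        v ^ 3 * (256 * i ^ 2) := by
        have : (12 * (i : ℝ) ^ 2 + 12 * i + 4) + (12 * i + 6) + 4 ≤ 256 * i ^ 2 := by nlinarith
        have h7 := mul_le_mul_of_nonneg_left this (by positivity : 0 ≤ v ^ 3)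
        linarith
      have h8 : v ^ 3 * (256 * i ^ 2) ≤ v ^ 3 * (v * i ^ 2) := by gcongr
      calc _ ≤ _ := h5
        _ ≤ _ := h6
        _ ≤ _ := h8
        _ = _ := by ring
    have e3 : 16 * ((z : ℝ) * Q ^ 4) * u ^ 16 ≤ ((z : ℝ) ^ 3 * Q ^ 4) * u ^ 20 * i ^ 2 := by
      have h3 : (z : ℝ) ≤ z ^ 3 := le_self_pow₀ hz' (by norm_num)
      have h4 : (16 : ℝ) ≤ i ^ 2 := by nlinarith
      have h5 : (u : ℝ) ^ 16 ≤ u ^ 20 := pow_le_pow_right₀ (by linarith) (by norm_num)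
      calc 16 * ((z : ℝ) * Q ^ 4) * u ^ 16 = ((z : ℝ) * Q ^ 4) * u ^ 16 * 16 := by ring
        _ ≤ ((z : ℝ) ^ 3 * Q ^ 4) * u ^ 20 * i ^ 2 := by gcongr
    have e4 : (C : ℝ) * u ^ 11 ≤ ((z : ℝ) ^ 3 * Q ^ 4) * u ^ 20 * i ^ 2 := by
      have h3 : (1 : ℝ) ≤ ((z : ℝ) ^ 3 * Q ^ 4) * i ^ 2 :=
        one_le_mul_of_one_le_of_one_le (one_le_mul_of_one_le_of_one_le (one_le_pow₀ hz')
          (one_le_pow₀ hQ')) (one_le_pow₀ (by linarith))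
      calc (C : ℝ) * u ^ 11 ≤ (u : ℝ) * (u : ℝ) ^ 11 := by gcongr
        _ = (u : ℝ) ^ 12 := by ring
        _ ≤ (u : ℝ) ^ 20 := pow_le_pow_right₀ (by linarith) (by norm_num)
        _ = 1 * (u : ℝ) ^ 20 := (one_mul _).symm
        _ ≤ (((z : ℝ) ^ 3 * Q ^ 4) * i ^ 2) * (u : ℝ) ^ 20 := by gcongr
        _ = _ := by ring
    have e5 : ((i : ℝ) + 1) ^ 4 - i ^ 4 = 4 * i ^ 3 + 6 * i ^ 2 + 4 * i + 1 := by ring
    have e6 : v ^ 4 = Q ^ 4 * u ^ 20 := by rw [hv]; ring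
    have e7 : 4 * (i : ℝ) ^ 2 ≤ (((i : ℝ) + 1) ^ 4 - i ^ 4) * (1 / i) := by
      rw [e5, mul_one_div, le_div_iff₀ hi0]
      nlinarith [pow_pos hi0 2, pow_pos hi0 3]
    have e8 : ((z : ℝ) ^ 3 * Q ^ 4) * u ^ 20 * (4 * i ^ 2) ≤
        ((z : ℝ) ^ 3 * Q ^ 4) * u ^ 20 * ((((i : ℝ) + 1) ^ 4 - i ^ 4) * (1 / i)) :=
      mul_le_mul_of_nonneg_left e7 (by positivity)
    have e9 : (z : ℝ) ^ 3 * ((1 + ((i : ℝ) + 1) * v) ^ 4 - (1 + i * v) ^ 4) ≤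
        (z : ℝ) ^ 3 * (v ^ 4 * (((i : ℝ) + 1) ^ 4 - i ^ 4) + v ^ 4 * i ^ 2) := by
      apply mul_le_mul_of_nonneg_left _ (by positivity)
      rw [e1]; linarith
    have e10 : (z : ℝ) ^ 3 * (v ^ 4 * (((i : ℝ) + 1) ^ 4 - i ^ 4) + v ^ 4 * i ^ 2) =
        ((z : ℝ) ^ 3 * Q ^ 4) * u ^ 20 * (((i : ℝ) + 1) ^ 4 - i ^ 4) +
        ((z : ℝ) ^ 3 * Q ^ 4) * u ^ 20 * i ^ 2 := by rw [e6]; ring
    have e11 : 0 ≤ ((z : ℝ) ^ 3 * Q ^ 4) * u ^ 20 * i ^ 2 := by positivity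
    linarith
  have hmom := moment_block (a := a) hz hQ0 ha hi hC hu1 hu4 hJ0 hJle
  have hBc : (B.card : ℝ) ≤ 11 / W * A.card := by
    rw [hAc]
    refine bad_block hz hzW h2W hQ0 hQW hQ ha ha0 (by omega) hCd hCd0 ?_ hu2 hu3
    have h1 : 264 * z ^ 2 * i ^ 7 ≥ 264 * z := by
      have h2 : 1 ≤ z * i ^ 7 := Nat.mul_pos (by omega) (by positivity)
      calc 264 * z ^ 2 * i ^ 7 = 264 * z * (z * i ^ 7) := by ring
        _ ≥ 264 * z * 1 := Nat.mul_le_mul_left _ h2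
        _ = 264 * z := by ring
    omega
  have hch := cheb (A := A) (B := B) (Finset.filter_subset _ _) (n := pt z Q a)
    (H := C * u ^ 11) hHn hAc0 hJsub hmom hBc
  have hsub : (((Ico (XX z Q i u) (XX z Q (i + 1) u)).filter fun x : ℕ =>
      ¬ ∃ p ∈ A, Good z Q a W p ∧
        (x : ℤ) ∈ Ioc (pt z Q a p - (C * u ^ 11 : ℕ)) (pt z Q a p)).image
          (fun x : ℕ => (x : ℤ))) ⊆
      J.filter fun x => ¬ ∃ α ∈ A \ B, x ∈ Ioc (pt z Q a α - (C * u ^ 11 : ℕ)) (pt z Q a α) := by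
    intro y hy
    obtain ⟨x, hx, rfl⟩ := Finset.mem_image.1 hy
    obtain ⟨h1, h2⟩ := Finset.mem_filter.1 hx
    rw [Finset.mem_Ico] at h1
    refine Finset.mem_filter.2 ⟨?_, ?_⟩
    · rw [hJ, Finset.mem_Ioc]
      constructor
      · rw [hlo]
        have h3 : (0 : ℤ) < (C * u ^ 11 : ℕ) := by exact_mod_cast hHn
        have h4 : (0 : ℤ) ≤ 16 * (z * Q ^ 4) * u ^ 16 := by positivity
        have h5 : (XX z Q i u : ℤ) ≤ x := by exact_mod_cast h1.1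
        omega
      · rw [hhi2]
        exact_mod_cast h1.2.le
    · rintro ⟨p, hp, hpx⟩
      obtain ⟨hp1, hp2⟩ := Finset.mem_sdiff.1 hp
      refine h2 ⟨p, hp1, ?_, hpx⟩
      by_contra hcon
      exact hp2 (Finset.mem_filter.2 ⟨hp1, hcon⟩)
  have hcard := Finset.card_le_card hsub
  rw [Finset.card_image_of_injective _ Nat.cast_injective] at hcard
  have hcard' : (((Ico (XX z Q i u) (XX z Q (i + 1) u)).filter fun x : ℕ =>
      ¬ ∃ p ∈ A, Good z Q a W p ∧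
        (x : ℤ) ∈ Ioc (pt z Q a p - (C * u ^ 11 : ℕ)) (pt z Q a p)).card : ℝ) ≤
      ((J.filter fun x => ¬ ∃ α ∈ A \ B,
        x ∈ Ioc (pt z Q a α - (C * u ^ 11 : ℕ)) (pt z Q a α)).card : ℝ) := by
    exact_mod_cast hcard
  refine hcard'.trans (hch.trans ?_)
  have e1 : 4 * (80 / (i : ℝ)) + 2 * (11 / W) = 320 / i + 22 / W := by ring
  rw [e1]
  apply mul_le_mul_of_nonneg_left _ (by positivity)
  refine hJle.trans ?_
  have hpos4 : 0 < ((i : ℝ) + 1) ^ 4 - i ^ 4 := by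
    have : ((i : ℝ) + 1) ^ 4 - i ^ 4 = 4 * i ^ 3 + 6 * i ^ 2 + 4 * i + 1 := by ring
    rw [this]; positivity
  have h1 : 1 + 1 / (i : ℝ) ≤ 2 := by
    have : 1 / (i : ℝ) ≤ 1 := by rw [div_le_one hi0]; linarith
    linarith
  calc _ ≤ ((z : ℝ) ^ 3 * Q ^ 4) * (u : ℝ) ^ 20 * (((i : ℝ) + 1) ^ 4 - i ^ 4) * 2 :=
        mul_le_mul_of_nonneg_left h1 (by positivity)
    _ = _ := by ring

end Pool.Agent.TH562.CN
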