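import Mathlib
import Pool.Agent.TH562.CN.Exc

/-! Almost all intervals. -/

set_option autoImplicit false

namespace Pool.Agent.TH562.CN

open Finset

theorem sum_tele (F : ℕ → ℝ) {a b : ℕ} (h : a ≤ b) :
    ∑ i ∈ Ico a b, (F (i + 1) - F i) = F b - F a := by
  induction b, h using Nat.le_induction with
  | base => simp
  | succ n hn ih =>
    rw [Finset.sum_Ico_succ_top hn, ih]
    ring

theorem find_block (X : ℕ → ℕ) {a b x : ℕ} (h : a ≤ b) (h1 : X a ≤ x) (h2 : x < X b) :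
    ∃ i ∈ Ico a b, X i ≤ x ∧ x < X (i + 1) := by
  induction b, h using Nat.le_induction with
  | base => omega
  | succ n hn ih =>
    rcases lt_or_ge x (X n) with h3 | h3
    · obtain ⟨i, hi, hi2⟩ := ih h3
      rw [Finset.mem_Ico] at hi
      exact ⟨i, Finset.mem_Ico.2 ⟨hi.1, by omega⟩, hi2⟩
    · exact ⟨n, Finset.mem_Ico.2 ⟨hn, by omega⟩, h3, h2⟩

open Classical in
theorem class_final {z j : ℕ} (hzj : (z = 1 ∧ j = 1) ∨ (z = 3 ∧ j = 3) ∨ (z = 5 ∧ j = 5) ∨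
    (z = 7 ∧ j = 7) ∨ (z = 6 ∧ j = 2) ∨ (z = 2 ∧ j = 6)) {δ : ℝ} (hδ : 0 < δ) :
    ∃ C : ℝ, 0 < C ∧ ∀ᶠ N : ℕ in Filter.atTop,
      (((Icc 1 N).filter fun x : ℕ => ¬ ∃ n : ℕ, x ≤ n ∧
        (n : ℝ) ≤ x + C * (x : ℝ) ^ ((11 : ℝ) / 20) ∧ Squarefree n ∧ n % 8 = j ∧ Cong n).card : ℝ) ≤
        δ * N := by
  obtain ⟨Cd, hCd0, hCd⟩ := Pool.Agent.H510R2.divisor_bound ((1 : ℝ) / 10) (by norm_num)
  have hz1 : 1 ≤ z := by omega
  have hz7 : z ≤ 7 := by omega
  have hzsq : Squarefree z := by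
    rcases hzj with ⟨rfl, rfl⟩ | ⟨rfl, rfl⟩ | ⟨rfl, rfl⟩ | ⟨rfl, rfl⟩ | ⟨rfl, rfl⟩ | ⟨rfl, rfl⟩
    · exact squarefree_one
    · exact Nat.prime_three.squarefree
    · exact Nat.prime_five.squarefree
    · exact (by norm_num : Nat.Prime 7).squarefree
    · rw [show 6 = 2 * 3 from rfl, Nat.squarefree_mul_iff]
      exact ⟨by norm_num, Nat.prime_two.squarefree, Nat.prime_three.squarefree⟩
    · exact Nat.prime_two.squarefree
  obtain ⟨K, hK⟩ : ∃ K : ℕ, 1 / δ ≤ K ∧ 1 ≤ K := by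
    obtain ⟨K, hK⟩ := exists_nat_ge (1 / δ)
    refine ⟨K + 1, ?_, by omega⟩
    push_cast; linarith
  obtain ⟨hK1, hK2⟩ := hK
  set i0 := 5120 * K with hi0
  set W := 352 * K with hW
  set m := 64 * K with hm
  set M := m * i0 with hM
  set Q := primorial W with hQ
  have h2W : 2 ≤ W := by omega
  have h7W : 7 ≤ W := by omega
  have hQ0 : 0 < Q := primorial_pos W
  have hQsq : Squarefree Q := squarefree_primorial W
  have hQW : ∀ p : ℕ, p.Prime → p ≤ W → p ∣ Q := fun p hp hpW => hp.dvd_primorial_iff.2 hpW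
  have hQW' : ∀ p : ℕ, p.Prime → W < p → ¬ p ∣ Q := by
    intro p hp hpW h
    have := hp.dvd_primorial_iff.1 h
    omega
  have hzQ : z ∣ Q := hzsq.dvd_primorial.trans (primorial_dvd_primorial (by omega))
  have h2Q : 2 ∣ Q := hQW 2 Nat.prime_two h2W
  have hzW : ∀ p : ℕ, p.Prime → p ∣ z → p ≤ W := by
    intro p _ hp
    have := Nat.le_of_dvd (by omega) hp
    omega
  set a := Q / z with ha
  have haQ : a ≤ Q := Nat.div_le_self _ _
  have ha0 : 0 < a := Nat.div_pos (Nat.le_of_dvd hQ0 hzQ) (by omega)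
  set G : ℕ := z ^ 3 * Q ^ 4 with hG
  have hG1 : 1 ≤ G := Nat.mul_pos (by positivity) (by positivity)
  have hM1 : i0 ≤ M := Nat.le_mul_of_pos_left _ (by omega)
  have hMpos : 0 < M := by omega
  set C : ℕ := G * M ^ 4 with hC
  obtain ⟨U1, hU1⟩ := exists_nat_ge (16 * (z : ℝ) * Q ^ 3 * M ^ 3 * W ^ 3 * Cd)
  set U0 := 40 + 264 * z ^ 2 * M ^ 7 + 8 * Q * W + C + U1 with hU0
  refine ⟨C, by
    have : 0 < C := Nat.mul_pos hG1 (by positivity)
    exact_mod_cast this, ?_⟩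
  filter_upwards [Filter.eventually_gt_atTop (G * M ^ 4 * U0 ^ 20)] with N hN
  have hex : ∃ u : ℕ, N ≤ G * M ^ 4 * u ^ 20 := by
    refine ⟨N, ?_⟩
    calc N ≤ N ^ 20 := Nat.le_self_pow (by norm_num) N
      _ = 1 * N ^ 20 := (one_mul _).symm
      _ ≤ G * M ^ 4 * N ^ 20 := Nat.mul_le_mul_right _ (Nat.mul_pos hG1 (by positivity))
  obtain ⟨u, hu, hmin⟩ : ∃ u : ℕ, N ≤ G * M ^ 4 * u ^ 20 ∧ ∀ v < u, G * M ^ 4 * v ^ 20 < N :=
    ⟨Nat.find hex, Nat.find_spec hex, fun v hv => not_le.1 (Nat.find_min hex hv)⟩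
  have huU : U0 < u := by
    by_contra hcon
    push Not at hcon
    have h1 : G * M ^ 4 * u ^ 20 ≤ G * M ^ 4 * U0 ^ 20 :=
      Nat.mul_le_mul_left _ (Nat.pow_le_pow_left hcon 20)
    omega
  have hu40 : 40 < u := by omega
  -- comparison of N and u
  have hNu : ((G * M ^ 4 * u ^ 20 : ℕ) : ℝ) ≤ 2 * N := by
    have h1 := hmin (u - 1) (by omega)
    have h2 : ((G * M ^ 4 * (u - 1) ^ 20 : ℕ) : ℝ) < N := by exact_mod_cast h1
    have h3 : (u : ℝ) ^ 20 ≤ 2 * ((u - 1 : ℕ) : ℝ) ^ 20 := by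
      have hu' : (40 : ℝ) < u := by exact_mod_cast hu40
      have h4 : ((u - 1 : ℕ) : ℝ) = u * (1 + (-1 / u)) := by
        rw [Nat.cast_sub (by omega)]
        field_simp
        push_cast; ring
      have h5 : (1 : ℝ) + (20 : ℕ) * (-1 / u) ≤ (1 + (-1 / u)) ^ 20 := by
        apply one_add_mul_le_pow
        have : 1 / (u : ℝ) ≤ 1 := by rw [div_le_one (by linarith)]; linarith
        have e : -1 / (u : ℝ) = -(1 / u) := by ring
        rw [e]; linarith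
      have h6 : (1 : ℝ) / 2 ≤ 1 + (20 : ℕ) * (-1 / u) := by
        have h7 : 20 / (u : ℝ) ≤ 1 / 2 := by
          rw [div_le_iff₀ (by linarith)]; linarith
        have h8 : 1 + ((20 : ℕ) : ℝ) * (-1 / u) = 1 - 20 / (u : ℝ) := by push_cast; ring
        rw [h8]; linarith
      rw [h4, mul_pow]
      have h9 : 0 < (u : ℝ) ^ 20 := by positivity
      nlinarith
    have h4 : (0 : ℝ) < (G : ℝ) * (M : ℝ) ^ 4 := by
      have : 0 < G * M ^ 4 := Nat.mul_pos hG1 (by positivity)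
      exact_mod_cast this
    push_cast at h2 ⊢
    have h5 := mul_le_mul_of_nonneg_left h3 h4.le
    linarith
  -- blocks
  set E : ℕ → Finset ℕ := fun i => (Ico (XX z Q i u) (XX z Q (i + 1) u)).filter fun x : ℕ =>
      ¬ ∃ p ∈ Ico (i * u ^ 5) ((i + 1) * u ^ 5) ×ˢ Ico (u ^ 4) (2 * u ^ 4), Good z Q a W p ∧
        (x : ℤ) ∈ Ioc (pt z Q a p - (C * u ^ 11 : ℕ)) (pt z Q a p) with hE
  have hEcard : ∀ i ∈ Ico i0 M, ((E i).card : ℝ) ≤ (320 / (i0 : ℝ) + 22 / W) *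
      (2 * (((z : ℝ) ^ 3 * Q ^ 4) * (u : ℝ) ^ 20 * (((i : ℝ) + 1) ^ 4 - i ^ 4))) := by
    intro i hi
    rw [Finset.mem_Ico] at hi
    have hiM : i + 1 ≤ M := hi.2
    have hp7 : i ^ 7 ≤ M ^ 7 := Nat.pow_le_pow_left (by omega) 7
    have hp4 : i ^ 4 ≤ M ^ 4 := Nat.pow_le_pow_left (by omega) 4
    have hb := exc_block (z := z) (Q := Q) (a := a) (W := W) (i := i) (u := u) (C := C) (Cd := Cd)
      hz1 hzW h2W hQ0 hQW hQW' haQ ha0 (by omega) hCd hCd0 (by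
        have := Nat.mul_le_mul_left (264 * z ^ 2) hp7
        omega) (by omega) (by
        have h1 : 16 * (z : ℝ) * Q ^ 3 * (i + 1) ^ 3 * W ^ 3 * Cd ≤
            16 * (z : ℝ) * Q ^ 3 * M ^ 3 * W ^ 3 * Cd := by
          have : (i : ℝ) + 1 ≤ M := by exact_mod_cast hiM
          gcongr
        have h2 : (U1 : ℝ) ≤ u := by
          have : U1 ≤ u := by omega
          exact_mod_cast this
        linarith) (Nat.mul_le_mul_left _ hp4) (by omega)
    refine hb.trans ?_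
    apply mul_le_mul_of_nonneg_right
    · have h1 : (320 : ℝ) / i ≤ 320 / i0 := by
        have : (i0 : ℝ) ≤ i := by exact_mod_cast hi.1
        have h0 : (0 : ℝ) < i0 := by
          have : 0 < i0 := by omega
          exact_mod_cast this
        exact div_le_div_of_nonneg_left (by norm_num) h0 this
      linarith
    · have : ((i : ℝ) + 1) ^ 4 - i ^ 4 = 4 * i ^ 3 + 6 * i ^ 2 + 4 * i + 1 := by ring
      rw [this]; positivity
  -- the exceptional set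
  have hsub : ((Icc 1 N).filter fun x : ℕ => ¬ ∃ n : ℕ, x ≤ n ∧
        (n : ℝ) ≤ x + C * (x : ℝ) ^ ((11 : ℝ) / 20) ∧ Squarefree n ∧ n % 8 = j ∧ Cong n) ⊆
      range (XX z Q i0 u) ∪ (Ico i0 M).biUnion E := by
    intro x hx
    obtain ⟨hx1, hx2⟩ := Finset.mem_filter.1 hx
    rw [Finset.mem_Icc] at hx1
    rcases lt_or_ge x (XX z Q i0 u) with h | h
    · exact Finset.mem_union_left _ (Finset.mem_range.2 h)
    · refine Finset.mem_union_right _ (Finset.mem_biUnion.2 ?_)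
      have hxM : x < XX z Q M u := by
        have h1 : G * M ^ 4 * u ^ 20 < XX z Q M u := by
          unfold XX
          rw [hG]
          have h2 : (Q * (M * u ^ 5)) ^ 4 < (1 + Q * (M * u ^ 5)) ^ 4 :=
            Nat.pow_lt_pow_left (by omega) (by norm_num)
          calc z ^ 3 * Q ^ 4 * M ^ 4 * u ^ 20 = z ^ 3 * (Q * (M * u ^ 5)) ^ 4 := by ring
            _ < z ^ 3 * (1 + Q * (M * u ^ 5)) ^ 4 :=
              Nat.mul_lt_mul_of_pos_left h2 (by positivity)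
        omega
      obtain ⟨i, hi, hi1, hi2⟩ := find_block (fun i => XX z Q i u) hM1 h hxM
      refine ⟨i, hi, Finset.mem_filter.2 ⟨Finset.mem_Ico.2 ⟨hi1, hi2⟩, ?_⟩⟩
      rintro ⟨p, hp, hgood, hpx⟩
      apply hx2
      rw [Finset.mem_Ico] at hi
      obtain ⟨hp1, hp2⟩ := Finset.mem_product.1 hp
      rw [Finset.mem_Ico] at hp1 hp2
      set s := a + Q * p.2 with hs
      set t := 1 + Q * p.1 with ht
      have hs1 : s ≤ 2 * (Q * u ^ 4) := by
        have h1 : Q * (p.2 + 1) ≤ Q * (2 * u ^ 4) := Nat.mul_le_mul_left Q hp2.2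
        have h2 : Q * (p.2 + 1) = Q * p.2 + Q := by ring
        have h3 : Q * (2 * u ^ 4) = 2 * (Q * u ^ 4) := by ring
        omega
      have ht1 : 2 * (Q * u ^ 4) < t := by
        have h1 : Q * (i * u ^ 5) ≤ Q * p.1 := Nat.mul_le_mul_left Q hp1.1
        have h2 : 2 * (Q * u ^ 4) ≤ Q * (i * u ^ 5) := by
          have h3 : Q * (i * u ^ 5) = (i * u) * (Q * u ^ 4) := by ring
          rw [h3]
          apply Nat.mul_le_mul_right
          have : 1 * u ≤ i * u := Nat.mul_le_mul_right _ (by omega)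
          omega
        omega
      have hst : s < t := by omega
      have hlt : s ^ 2 < z * t ^ 2 := by
        have h1 : s ^ 2 < t ^ 2 := Nat.pow_lt_pow_left hst two_ne_zero
        have h2 : t ^ 2 ≤ z * t ^ 2 := Nat.le_mul_of_pos_left _ hz1
        omega
      have hval := pt_eq_val (z := z) (Q := Q) (a := a) (p := p) hlt
      rw [Finset.mem_Ioc, ← hval] at hpx
      obtain ⟨hpx1, hpx2⟩ := hpx
      refine ⟨val z t s, by exact_mod_cast hpx2, ?_, ?_, ?_, ?_⟩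
      · have h1 : val z t s < x + C * u ^ 11 := by
          have : ((val z t s : ℕ) : ℤ) < x + (C * u ^ 11 : ℕ) := by linarith
          exact_mod_cast this
        have h2 : ((val z t s : ℕ) : ℝ) ≤ x + C * (u : ℝ) ^ 11 := by
          have : ((val z t s : ℕ) : ℝ) < ((x + C * u ^ 11 : ℕ) : ℝ) := by exact_mod_cast h1
          push_cast at this
          linarith
        have h3 : (u : ℝ) ^ 11 ≤ (x : ℝ) ^ ((11 : ℝ) / 20) := by
          have h4 : (u : ℝ) ^ 20 ≤ x := by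
            have h5 : u ^ 20 ≤ XX z Q i0 u := by
              unfold XX
              have h6 : u ^ 5 ≤ 1 + Q * (i0 * u ^ 5) := by
                have : 1 * u ^ 5 ≤ Q * (i0 * u ^ 5) := by
                  rw [← mul_assoc]
                  exact Nat.mul_le_mul_right _ (Nat.mul_pos hQ0 (by omega))
                omega
              calc u ^ 20 = 1 * (u ^ 5) ^ 4 := by ring
                _ ≤ z ^ 3 * (1 + Q * (i0 * u ^ 5)) ^ 4 :=
                  Nat.mul_le_mul (Nat.one_le_pow _ _ hz1) (Nat.pow_le_pow_left h6 4)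
            have h7 : u ^ 20 ≤ x := h5.trans h
            exact_mod_cast h7
          calc (u : ℝ) ^ 11 = ((u : ℝ) ^ 20) ^ ((11 : ℝ) / 20) := by
                rw [← Real.rpow_natCast, ← Real.rpow_natCast, ← Real.rpow_mul (by positivity)]
                norm_num
            _ ≤ _ := Real.rpow_le_rpow (by positivity) h4 (by norm_num)
        have h4 := mul_le_mul_of_nonneg_left h3 (Nat.cast_nonneg (α := ℝ) C)
        linarith
      · exact sqf_val hzsq hlt h2W hzW hgood.1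
          (small_primes hQsq hzQ hQW ⟨p.1, rfl⟩ ⟨p.2, rfl⟩)
          (fun c hc q hq hqW => hgood.2 c hc q hq hqW)
      · exact residue hzj hQsq hzQ h2Q hlt
      · exact cong_val (by omega) (by omega) (by omega) hlt
  have hcard := (Finset.card_le_card hsub).trans (Finset.card_union_le _ _)
  have hcard2 : (((Icc 1 N).filter fun x : ℕ => ¬ ∃ n : ℕ, x ≤ n ∧
        (n : ℝ) ≤ x + C * (x : ℝ) ^ ((11 : ℝ) / 20) ∧ Squarefree n ∧ n % 8 = j ∧
          Cong n).card : ℝ) ≤ (XX z Q i0 u : ℝ) + ∑ i ∈ Ico i0 M, ((E i).card : ℝ) := by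
    rw [Finset.card_range] at hcard
    have h1 : ((Ico i0 M).biUnion E).card ≤ ∑ i ∈ Ico i0 M, (E i).card := Finset.card_biUnion_le
    have h2 := hcard.trans (Nat.add_le_add_left h1 _)
    exact_mod_cast h2
  refine hcard2.trans ?_
  have hGr : (z : ℝ) ^ 3 * Q ^ 4 = G := by rw [hG]; push_cast; ring
  have hu0 : (0 : ℝ) < u := by
    have : 0 < u := by omega
    exact_mod_cast this
  have hKr : (1 : ℝ) ≤ K := by exact_mod_cast hK2
  have hG1r : (1 : ℝ) ≤ G := by exact_mod_cast hG1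
  have hsum : ∑ i ∈ Ico i0 M, ((E i).card : ℝ) ≤ (320 / (i0 : ℝ) + 22 / W) *
      (2 * (G * (u : ℝ) ^ 20 * (M : ℝ) ^ 4)) := by
    refine (Finset.sum_le_sum hEcard).trans ?_
    rw [← Finset.mul_sum]
    apply mul_le_mul_of_nonneg_left _ (by positivity)
    rw [← Finset.mul_sum, ← Finset.mul_sum, hGr]
    have h1 := sum_tele (fun i : ℕ => (i : ℝ) ^ 4) hM1
    push_cast at h1
    rw [h1]
    have h2 : (0 : ℝ) ≤ (i0 : ℝ) ^ 4 := by positivity
    have h3 : (0 : ℝ) ≤ G * (u : ℝ) ^ 20 := by positivity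
    have h4 : G * (u : ℝ) ^ 20 * ((M : ℝ) ^ 4 - (i0 : ℝ) ^ 4) ≤
      G * (u : ℝ) ^ 20 * (M : ℝ) ^ 4 := mul_le_mul_of_nonneg_left (by linarith) h3
    linarith
  have hbot : (XX z Q i0 u : ℝ) ≤ 16 * G * (i0 : ℝ) ^ 4 * (u : ℝ) ^ 20 := by
    unfold XX
    have h1 : 1 ≤ Q * (i0 * u ^ 5) := Nat.mul_pos hQ0 (Nat.mul_pos (by omega) (by positivity))
    have h1' : (1 : ℝ) ≤ (Q : ℝ) * (i0 * u ^ 5) := by exact_mod_cast h1
    push_cast
    calc (z : ℝ) ^ 3 * (1 + Q * (i0 * u ^ 5)) ^ 4 ≤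
        (z : ℝ) ^ 3 * (Q * (i0 * u ^ 5) + Q * (i0 * u ^ 5)) ^ 4 := by gcongr
      _ = 16 * ((z : ℝ) ^ 3 * Q ^ 4) * (i0 : ℝ) ^ 4 * (u : ℝ) ^ 20 := by ring
      _ = _ := by rw [hGr]
  have hcombine : (XX z Q i0 u : ℝ) + ∑ i ∈ Ico i0 M, ((E i).card : ℝ) ≤
      (1 / (2 * K)) * ((G * M ^ 4 * u ^ 20 : ℕ) : ℝ) := by
    have e1 : (320 / (i0 : ℝ) + 22 / W) = 1 / (8 * K) := by
      rw [hi0, hW]
      push_cast
      field_simp
      norm_num
    have e2 : (M : ℝ) ^ 4 = (64 * K) ^ 4 * (i0 : ℝ) ^ 4 := by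
      rw [hM, hm]; push_cast; ring
    have e3 : 16 * (G : ℝ) * (i0 : ℝ) ^ 4 * (u : ℝ) ^ 20 ≤
        (1 / (4 * K)) * (G * (M : ℝ) ^ 4 * (u : ℝ) ^ 20) := by
      rw [e2]
      have h1 : (1 / (4 * (K : ℝ))) * (G * ((64 * K) ^ 4 * (i0 : ℝ) ^ 4) * (u : ℝ) ^ 20) =
        (G * (i0 : ℝ) ^ 4 * (u : ℝ) ^ 20) * (64 ^ 4 / 4 * K ^ 3) := by
        field_simp
      rw [h1]
      have h2 : (16 : ℝ) ≤ 64 ^ 4 / 4 * (K : ℝ) ^ 3 := by
        have : (1 : ℝ) ≤ (K : ℝ) ^ 3 := one_le_pow₀ hKr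
        norm_num
        linarith
      have h3 : (0 : ℝ) ≤ G * (i0 : ℝ) ^ 4 * (u : ℝ) ^ 20 := by positivity
      nlinarith
    rw [e1] at hsum
    push_cast
    have e4 : 1 / (8 * (K : ℝ)) * (2 * (G * (u : ℝ) ^ 20 * (M : ℝ) ^ 4)) =
        (1 / (4 * K)) * (G * (M : ℝ) ^ 4 * (u : ℝ) ^ 20) := by
      field_simp
      norm_num
    rw [e4] at hsum
    have e5 : (1 / (2 * (K : ℝ))) * (G * (M : ℝ) ^ 4 * (u : ℝ) ^ 20) =
        (1 / (4 * K)) * (G * (M : ℝ) ^ 4 * (u : ℝ) ^ 20) +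
        (1 / (4 * K)) * (G * (M : ℝ) ^ 4 * (u : ℝ) ^ 20) := by
      field_simp
      norm_num
    rw [e5]
    linarith
  refine hcombine.trans ?_
  have h1 : (1 / (2 * (K : ℝ))) * ((G * M ^ 4 * u ^ 20 : ℕ) : ℝ) ≤ (1 / (2 * K)) * (2 * N) :=
    mul_le_mul_of_nonneg_left hNu (by positivity)
  refine h1.trans ?_
  have h2 : (1 / (2 * (K : ℝ))) * (2 * N) = (1 / K) * N := by field_simp
  rw [h2]
  apply mul_le_mul_of_nonneg_right _ (Nat.cast_nonneg N)
  rw [div_le_iff₀ (by linarith)]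
  rw [div_le_iff₀ hδ] at hK1
  linarith

end Pool.Agent.TH562.CN
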